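import Mathlib

set_option autoImplicit false

namespace Pool.Agent.H64

open Set Metric Filter Topology

section Top

variable {X : Type*} [TopologicalSpace X]

/-- `a` and `b` lie in a common preconnected subset of `O`. -/
def J (O : Set X) (a b : X) : Prop := ∃ C : Set X, C ⊆ O ∧ IsPreconnected C ∧ a ∈ C ∧ b ∈ C

lemma J.mono {O O' : Set X} {a b : X} (h : J O a b) (hO : O ⊆ O') : J O' a b := by
  obtain ⟨C, h1, h2, h3, h4⟩ := h
  exact ⟨C, h1.trans hO, h2, h3, h4⟩

lemma J.symm {O : Set X} {a b : X} (h : J O a b) : J O b a := by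
  obtain ⟨C, h1, h2, h3, h4⟩ := h
  exact ⟨C, h1, h2, h4, h3⟩

lemma J.trans {O : Set X} {a b c : X} (h : J O a b) (h' : J O b c) : J O a c := by
  obtain ⟨C, h1, h2, h3, h4⟩ := h
  obtain ⟨C', h1', h2', h3', h4'⟩ := h'
  exact ⟨C ∪ C', union_subset h1 h1', h2.union b h4 h3' h2', Or.inl h3, Or.inr h4'⟩

lemma J.refl {O : Set X} {a : X} (h : a ∈ O) : J O a a :=
  ⟨{a}, by simpa using h, isPreconnected_singleton, rfl, rfl⟩

lemma J.left_mem {O : Set X} {a b : X} (h : J O a b) : a ∈ O := by
  obtain ⟨C, h1, h2, h3, h4⟩ := h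
  exact h1 h3

lemma J.right_mem {O : Set X} {a b : X} (h : J O a b) : b ∈ O := by
  obtain ⟨C, h1, h2, h3, h4⟩ := h
  exact h1 h4

lemma J_iff {O : Set X} {a b : X} : J O a b ↔ a ∈ O ∧ b ∈ connectedComponentIn O a := by
  constructor
  · rintro ⟨C, h1, h2, h3, h4⟩
    exact ⟨h1 h3, h2.subset_connectedComponentIn h3 h1 h4⟩
  · rintro ⟨h1, h2⟩
    exact ⟨_, connectedComponentIn_subset _ _, isPreconnected_connectedComponentIn,
      mem_connectedComponentIn h1, h2⟩

lemma J.mem_comp {O : Set X} {a b : X} (h : J O a b) : b ∈ connectedComponentIn O a :=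
  (J_iff.1 h).2

/-- if `M` is open and relatively closed in `O`, then it is a union of components. -/
lemma J.mem_of_clopen {O M : Set X} {a b : X} (h : J O a b) (hM : IsOpen M)
    (hcl : closure M ∩ O ⊆ M) (ha : a ∈ M) : b ∈ M := by
  obtain ⟨C, h1, h2, h3, h4⟩ := h
  exact h2.subset_of_closure_inter_subset hM ⟨a, h3, ha⟩
    (fun x hx => hcl ⟨hx.1, h1 hx.2⟩) h4

lemma exists_mem_frontier {C V : Set X} (hC : IsPreconnected C) (hV : IsOpen V)
    {a b : X} (ha : a ∈ C) (haV : a ∈ V) (hb : b ∈ C) (hbV : b ∉ V) :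
    ∃ c ∈ C, c ∈ closure V ∧ c ∉ V := by
  by_contra hcon
  push Not at hcon
  apply hbV
  exact hC.subset_of_closure_inter_subset hV ⟨a, ha, haV⟩ (fun x hx => hcon x hx.2 hx.1) hb

lemma closure_comp_inter [LocallyConnectedSpace X] {O : Set X} (hO : IsOpen O) {x : X} :
    closure (connectedComponentIn O x) ∩ O ⊆ connectedComponentIn O x := by
  rintro y ⟨hy1, hy2⟩
  have h1 : IsOpen (connectedComponentIn O y) := hO.connectedComponentIn
  have h2 : y ∈ connectedComponentIn O y := mem_connectedComponentIn hy2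
  obtain ⟨z, hz1, hz2⟩ := mem_closure_iff.1 hy1 _ h1 h2
  rw [connectedComponentIn_eq hz2, ← connectedComponentIn_eq hz1]
  exact h2

lemma isClosed_comp {K : Set X} (hK : IsClosed K) {x : X} :
    IsClosed (connectedComponentIn K x) := by
  by_cases hx : x ∈ K
  · rw [← closure_subset_iff_isClosed]
    exact isPreconnected_connectedComponentIn.closure.subset_connectedComponentIn
      (subset_closure (mem_connectedComponentIn hx))
      (hK.closure_subset_iff.2 (connectedComponentIn_subset _ _))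
  · rw [connectedComponentIn_eq_empty hx]
    exact isClosed_empty

lemma isPreconnected_insert_inter {C U V : Set X} {p : X} (hC : IsPreconnected C) (hp : p ∈ C)
    (hU : IsOpen U) (hV : IsOpen V) (hUV : Disjoint U V) (hcov : C ⊆ insert p (U ∪ V)) :
    IsPreconnected (insert p (C ∩ U)) := by
  have key : ∀ u v : Set X, IsOpen u → IsOpen v → insert p (C ∩ U) ⊆ u ∪ v → p ∈ u →
      (insert p (C ∩ U) ∩ v).Nonempty → (insert p (C ∩ U) ∩ (u ∩ v)).Nonempty := by
    intro u v hu hv hsub hpu hne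
    by_contra hcon
    rw [not_nonempty_iff_eq_empty] at hcon
    have hcon' : ∀ z, z ∈ insert p (C ∩ U) → z ∈ u → z ∈ v → False := by
      intro z hz hzu hzv
      have : z ∈ insert p (C ∩ U) ∩ (u ∩ v) := ⟨hz, hzu, hzv⟩
      rw [hcon] at this
      exact this
    obtain ⟨d, hd, hdv⟩ := hne
    have hdp : d ≠ p := by
      rintro rfl
      exact hcon' _ hd hpu hdv
    have hdC : d ∈ C ∩ U := by
      rcases hd with rfl | h
      · exact absurd rfl hdp
      · exact h
    obtain ⟨z, hzC, hz1, hz2⟩ := hC (u ∪ V) (v ∩ U) (hu.union hV) (hv.inter hU) (by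
      intro c hc
      by_cases hcp : c = p
      · subst hcp; exact Or.inl (Or.inl hpu)
      rcases hcov hc with h | h | h
      · exact absurd h hcp
      · rcases hsub (Or.inr ⟨hc, h⟩) with h' | h'
        · exact Or.inl (Or.inl h')
        · exact Or.inr ⟨h', h⟩
      · exact Or.inl (Or.inr h)) ⟨p, hp, Or.inl hpu⟩ ⟨d, hdC.1, hdv, hdC.2⟩
    rcases hz1 with h | h
    · exact hcon' z (Or.inr ⟨hzC, hz2.2⟩) h hz2.1
    · exact (Set.disjoint_left.1 hUV) hz2.2 h
  intro u v hu hv hsub h1 h2
  rcases hsub (mem_insert p _) with h | h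
  · exact key u v hu hv hsub h h2
  · have := key v u hv hu (by rwa [union_comm]) h h1
    rwa [inter_comm v u] at this

lemma suraBura [T2Space X] {K G : Set X} (hK : IsCompact K) (hG : IsOpen G) {x : X}
    (hx : x ∈ K) (h : connectedComponentIn K x ⊆ G) :
    ∃ E, E ⊆ K ∩ G ∧ IsClosed E ∧ IsClosed (K \ E) ∧ x ∈ E := by
  have : CompactSpace K := isCompact_iff_compactSpace.1 hK
  have h1 : connectedComponentIn K x = Subtype.val '' connectedComponent (⟨x, hx⟩ : K) :=
    connectedComponentIn_eq_image hx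
  have h2 : ∀ y ∈ ⋂ s : { s : Set K // IsClopen s ∧ (⟨x, hx⟩ : K) ∈ s }, s.1,
      (Subtype.val ⁻¹' G : Set K) ∈ 𝓝 y := by
    intro y hy
    rw [← connectedComponent_eq_iInter_isClopen] at hy
    apply (hG.preimage continuous_subtype_val).mem_nhds
    apply h
    rw [h1]
    exact ⟨y, hy, rfl⟩
  have hdir : Directed (· ⊇ ·) (fun s : { s : Set K // IsClopen s ∧ (⟨x, hx⟩ : K) ∈ s } => s.1) := by
    intro s t
    exact ⟨⟨s.1 ∩ t.1, s.2.1.inter t.2.1, s.2.2, t.2.2⟩, inter_subset_left, inter_subset_right⟩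
  have : Nonempty { s : Set K // IsClopen s ∧ (⟨x, hx⟩ : K) ∈ s } := ⟨⟨univ, isClopen_univ, mem_univ _⟩⟩
  obtain ⟨s, hs⟩ := exists_subset_nhds_of_compactSpace hdir (fun s => s.2.1.1) h2
  refine ⟨Subtype.val '' s.1, ?_, ?_, ?_, ⟨_, s.2.2, rfl⟩⟩
  · rintro _ ⟨y, hy, rfl⟩
    exact ⟨y.2, hs hy⟩
  · exact (hK.isClosed.isClosedEmbedding_subtypeVal).isClosedMap _ s.2.1.1
  · have : K \ (Subtype.val '' s.1) = Subtype.val '' (s.1ᶜ) := by
      ext y
      constructor
      · rintro ⟨hy1, hy2⟩
        exact ⟨⟨y, hy1⟩, fun hh => hy2 ⟨_, hh, rfl⟩, rfl⟩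
      · rintro ⟨z, hz, rfl⟩
        refine ⟨z.2, ?_⟩
        rintro ⟨w, hw, hwz⟩
        exact hz ((Subtype.ext hwz) ▸ hw)
    rw [this]
    exact (hK.isClosed.isClosedEmbedding_subtypeVal).isClosedMap _ s.2.1.2.isClosed_compl

lemma boundary_bump [T2Space X] {g O : Set X} (hg : IsCompact g) (hg' : IsPreconnected g)
    (hO : IsOpen O) (hgO : (g ∩ O).Nonempty) {x : X} (hx : x ∈ g \ O) :
    (connectedComponentIn (g \ O) x ∩ closure O).Nonempty := by
  by_contra hcon
  have hsub : connectedComponentIn (g \ O) x ⊆ (closure O)ᶜ := by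
    intro y hy hy'
    exact hcon ⟨y, hy, hy'⟩
  have hcomp : IsCompact (g \ O) := hg.diff hO
  obtain ⟨E, hE1, hE2, hE3, hE4⟩ := suraBura hcomp isClosed_closure.isOpen_compl hx hsub
  obtain ⟨z, hzg, hzO⟩ := hgO
  have h := isPreconnected_closed_iff.1 hg' E (((g \ O) \ E) ∪ (g ∩ closure O)) hE2
    (hE3.union (hg.isClosed.inter isClosed_closure)) (by
      intro y hy
      by_cases hyE : y ∈ E
      · exact Or.inl hyE
      · by_cases hyO : y ∈ O
        · exact Or.inr (Or.inr ⟨hy, subset_closure hyO⟩)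
        · exact Or.inr (Or.inl ⟨⟨hy, hyO⟩, hyE⟩)) ⟨x, hx.1, hE4⟩
    ⟨z, hzg, Or.inr ⟨hzg, subset_closure hzO⟩⟩
  obtain ⟨y, hy, hyE, hy'⟩ := h
  rcases hy' with h | h
  · exact h.2 hyE
  · exact (hE1 hyE).2 h.2

/-- In an open connected subset of a locally connected locally compact Hausdorff space any two
points lie in a compact connected subset. -/
lemma exists_compact_connected [T2Space X] [LocallyConnectedSpace X] [CompactSpace X] {O : Set X} (hO : IsOpen O) {a b : X} (h : J O a b) :
    ∃ C, C ⊆ O ∧ IsCompact C ∧ IsPreconnected C ∧ a ∈ C ∧ b ∈ C := by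
  obtain ⟨S, hS1, hS2, haS, hbS⟩ := h
  refine hS2.induction₂ (fun a b => ∃ C, C ⊆ O ∧ IsCompact C ∧ IsPreconnected C ∧ a ∈ C ∧ b ∈ C)
    ?_ ?_ ?_ haS hbS
  · intro x hx
    have hxO : O ∈ 𝓝 x := hO.mem_nhds (hS1 hx)
    obtain ⟨K, hK1, hK2, hK3⟩ := exists_mem_nhds_isClosed_subset hxO
    obtain ⟨V, hV1, hV2, hV3⟩ := locallyConnectedSpace_iff_connected_subsets.1 ‹_› x K hK1
    have hcl : closure V ⊆ K := hK2.closure_subset_iff.2 hV3
    filter_upwards [mem_nhdsWithin_of_mem_nhds hV1] with y hy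
    exact ⟨closure V, hcl.trans hK3, isClosed_closure.isCompact, hV2.closure,
      subset_closure (mem_of_mem_nhds hV1), subset_closure hy⟩
  · rintro x y z - - - ⟨C, h1, h2, h3, h4, h5⟩ ⟨C', h1', h2', h3', h4', h5'⟩
    exact ⟨C ∪ C', union_subset h1 h1', h2.union h2', h3.union y h5 h4' h3', Or.inl h4, Or.inr h5'⟩
  · rintro x y - - ⟨C, h1, h2, h3, h4, h5⟩
    exact ⟨C, h1, h2, h3, h5, h4⟩

end Top

section Met

variable {X : Type*} [MetricSpace X]

/-- no infinite disjoint sequence of connected sets with diameters bounded below. -/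
def Star (X : Type*) [MetricSpace X] : Prop :=
  ∀ ε : ℝ, 0 < ε → ¬ ∃ A : ℕ → Set X, (∀ n, IsPreconnected (A n)) ∧
    Pairwise (fun i j => Disjoint (A i) (A j)) ∧ ∀ n, ε ≤ Metric.diam (A n)

lemma Star.finite (hS : Star X) {ε : ℝ} (hε : 0 < ε) {F : Set (Set X)}
    (hpd : ∀ a ∈ F, ∀ b ∈ F, a ≠ b → Disjoint a b) (hc : ∀ a ∈ F, IsPreconnected a)
    (hd : ∀ a ∈ F, ε ≤ Metric.diam a) : F.Finite := by
  by_contra hinf
  have hinf' : F.Infinite := hinf
  let f := hinf'.natEmbedding
  apply hS ε hε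
  refine ⟨fun n => (f n : Set X), fun n => hc _ (f n).2, ?_, fun n => hd _ (f n).2⟩
  intro i j hij
  apply hpd _ (f i).2 _ (f j).2
  intro h
  exact hij (f.injective (Subtype.ext h))

lemma dist_le_diam [CompactSpace X] {A : Set X} {a b : X} (ha : a ∈ A) (hb : b ∈ A) :
    dist a b ≤ Metric.diam A :=
  dist_le_diam_of_mem Metric.isBounded_of_compactSpace ha hb

lemma diam_mono [CompactSpace X] {A B : Set X} (h : A ⊆ B) : Metric.diam A ≤ Metric.diam B :=
  Metric.diam_mono h Metric.isBounded_of_compactSpace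

lemma comp_eq_or_disjoint {O : Set X} {x y : X} :
    connectedComponentIn O x = connectedComponentIn O y ∨
      Disjoint (connectedComponentIn O x) (connectedComponentIn O y) := by
  by_cases h : Disjoint (connectedComponentIn O x) (connectedComponentIn O y)
  · exact Or.inr h
  · rw [Set.not_disjoint_iff] at h
    obtain ⟨z, hz1, hz2⟩ := h
    left
    rw [connectedComponentIn_eq hz1, connectedComponentIn_eq hz2]

/-- finitely many components with a lower bound for the diameters. -/
lemma Star.finite_comps (hS : Star X) {ε : ℝ} (hε : 0 < ε) {O : Set X} {P : X → Prop}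
    (hP : ∀ x, P x → ε ≤ Metric.diam (connectedComponentIn O x)) :
    {a | ∃ x, P x ∧ a = connectedComponentIn O x}.Finite := by
  apply hS.finite hε
  · rintro _ ⟨x, hx, rfl⟩ _ ⟨y, hy, rfl⟩ hne
    rcases comp_eq_or_disjoint (O := O) (x := x) (y := y) with h | h
    · exact absurd h hne
    · exact h
  · rintro _ ⟨x, hx, rfl⟩
    exact isPreconnected_connectedComponentIn
  · rintro _ ⟨x, hx, rfl⟩
    exact hP x hx

lemma Star.locallyConnected [CompactSpace X] [PreconnectedSpace X] (hS : Star X) :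
    LocallyConnectedSpace X := by
  rw [locallyConnectedSpace_iff_connected_subsets]
  intro x U hU
  obtain ⟨r, hr, hrU⟩ := Metric.nhds_basis_closedBall.mem_iff.1 hU
  by_cases huniv : closedBall x r = univ
  · exact ⟨univ, univ_mem, isPreconnected_univ, by rw [← huniv]; exact hrU⟩
  have hne : (univ ∩ (closedBall x r)ᶜ).Nonempty := by
    rw [univ_inter, nonempty_compl]; exact huniv
  have hd : ∀ y, y ∈ closedBall x (r/2) → r / 2 ≤ Metric.diam (connectedComponentIn (closedBall x r) y) := by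
    intro y hy
    have hyr : y ∈ closedBall x r := closedBall_subset_closedBall (by linarith) hy
    have hb := boundary_bump (g := (univ : Set X)) (O := (closedBall x r)ᶜ) isCompact_univ
      isPreconnected_univ isClosed_closedBall.isOpen_compl hne (x := y) ⟨mem_univ _, fun h => h hyr⟩
    have he : univ \ (closedBall x r)ᶜ = closedBall x r := by
      ext z; simp
    rw [he] at hb
    obtain ⟨z, hz1, hz2⟩ := hb
    have hz3 : r ≤ dist z x := by
      have : (closedBall x r)ᶜ ⊆ {z | r ≤ dist z x} := by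
        intro w hw
        simp only [mem_compl_iff, mem_closedBall, not_le] at hw
        exact hw.le
      have hcl : IsClosed {z | r ≤ dist z x} := isClosed_le continuous_const (continuous_id.dist continuous_const)
      exact (closure_minimal this hcl) hz2
    have h1 : dist z y ≤ Metric.diam (connectedComponentIn (closedBall x r) y) :=
      dist_le_diam hz1 (mem_connectedComponentIn hyr)
    have h2 : dist z x ≤ dist z y + dist y x := dist_triangle _ _ _
    have h3 : dist y x ≤ r / 2 := hy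
    linarith
  have hfin := hS.finite_comps (O := closedBall x r) (P := fun y => y ∈ closedBall x (r/2)) (half_pos hr) hd
  set C := connectedComponentIn (closedBall x r) x with hC
  have hxr : x ∈ closedBall x r := mem_closedBall_self hr.le
  have hclosed : ∀ y, IsClosed (connectedComponentIn (closedBall x r) y) :=
    fun y => isClosed_comp isClosed_closedBall
  let G : Set (Set X) := {a | ∃ y, y ∈ closedBall x (r/2) ∧ a = connectedComponentIn (closedBall x r) y} \ {C}
  have hG : G.Finite := hfin.subset sdiff_subset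
  have hGc : IsClosed (⋃₀ G) := by
    rw [sUnion_eq_biUnion]
    apply hG.isClosed_biUnion
    rintro _ ⟨⟨y, hy, rfl⟩, -⟩
    exact hclosed y
  have hxG : x ∉ ⋃₀ G := by
    rintro ⟨_, ⟨⟨y, hy, rfl⟩, hne⟩, hxy⟩
    apply hne
    rw [mem_singleton_iff, hC, connectedComponentIn_eq hxy]
  refine ⟨C, ?_, isPreconnected_connectedComponentIn, (connectedComponentIn_subset _ _).trans hrU⟩
  have hn : closedBall x (r/2) ∩ (⋃₀ G)ᶜ ∈ 𝓝 x :=
    inter_mem (closedBall_mem_nhds x (half_pos hr)) (hGc.isOpen_compl.mem_nhds hxG)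
  filter_upwards [hn] with y hy
  by_contra hyC
  apply hy.2
  refine ⟨connectedComponentIn (closedBall x r) y, ⟨⟨y, hy.1, rfl⟩, ?_⟩, ?_⟩
  · intro h
    apply hyC
    rw [mem_singleton_iff] at h
    rw [← h]
    exact mem_connectedComponentIn (closedBall_subset_closedBall (by linarith) hy.1)
  · exact mem_connectedComponentIn (closedBall_subset_closedBall (by linarith) hy.1)

end Met

end Pool.Agent.H64
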