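import Mathlib

set_option autoImplicit false

namespace Pool.Agent.H64

open Set Metric Filter Topology Cardinal

/-- injective choice for families of at most continuum many sets of size continuum -/
lemma exists_injective_choice {ι X : Type} (K : ι → Set X) (hι : #ι ≤ 𝔠)
    (hK : ∀ i, ∃ f : (ℕ → Bool) → X, Function.Injective f ∧ ∀ x, f x ∈ K i) :
    ∃ g : ι → X, Function.Injective g ∧ ∀ i, g i ∈ K i := by
  obtain ⟨r, wo, hr⟩ := exists_ord_eq ι
  have hcard : ∀ i, #{j // r j i} < 𝔠 := by
    intro i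
    refine lt_of_lt_of_le ?_ hι
    have h1 : Ordinal.typein r i < ord #ι := by
      rw [hr]
      exact Ordinal.typein_lt_type r i
    have h2 := lt_ord.1 h1
    rwa [Ordinal.card_typein] at h2
  have hex : ∀ (i : ι) (ih : ∀ j, r j i → X), ∃ x, x ∈ K i ∧ ∀ j (h : r j i), ih j h ≠ x := by
    intro i ih
    by_contra hcon
    push Not at hcon
    obtain ⟨f, hf1, hf2⟩ := hK i
    have hch : ∀ y : ℕ → Bool, ∃ j : {j // r j i}, ih j.1 j.2 = f y := by
      intro y
      obtain ⟨j, h, hj⟩ := hcon (f y) (hf2 y)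
      exact ⟨⟨j, h⟩, hj⟩
    choose k hk using hch
    have hkinj : Function.Injective k := by
      intro y y' hyy'
      apply hf1
      rw [← hk y, ← hk y', hyy']
    have h1 : #(ℕ → Bool) ≤ #{j // r j i} := mk_le_of_injective hkinj
    have h2 : #(ℕ → Bool) = 𝔠 := by simp
    rw [h2] at h1
    exact absurd (hcard i) (not_lt.2 h1)
  choose F hF1 hF2 using hex
  let g : ι → X := (wo.wf).fix F
  have hg : ∀ i, g i = F i (fun j _ => g j) := fun i => (wo.wf).fix_eq F i
  refine ⟨g, ?_, ?_⟩
  · intro i i' hii'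
    by_contra hne
    rcases trichotomous_of r i i' with h | h | h
    · have := hF2 i' (fun j _ => g j) i h
      rw [← hg] at this
      exact this hii'
    · exact hne h
    · have := hF2 i (fun j _ => g j) i' h
      rw [← hg] at this
      exact this hii'.symm
  · intro i
    rw [hg]
    exact hF1 i _

theorem exists_bernstein (X : Type) [TopologicalSpace X] [SecondCountableTopology X] :
    ∃ B : ℕ → Set X, (∀ i j, i ≠ j → Disjoint (B i) (B j)) ∧
      ∀ j, ∀ K : Set X, IsClosed K → (∃ f : (ℕ → Bool) → X, Function.Injective f ∧ ∀ x, f x ∈ K) →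
        (B j ∩ K).Nonempty := by
  let κ := {K : Set X // IsClosed K ∧ ∃ f : (ℕ → Bool) → X, Function.Injective f ∧ ∀ x, f x ∈ K}
  have hκ : #κ ≤ 𝔠 := by
    let b := TopologicalSpace.countableBasis X
    have hb : TopologicalSpace.IsTopologicalBasis b := TopologicalSpace.isBasis_countableBasis X
    let φ : κ → Set b := fun K => {u | (u : Set X) ⊆ K.1ᶜ}
    have hφ : Function.Injective φ := by
      intro K K' h
      apply Subtype.ext
      apply compl_injective
      rw [hb.open_eq_sUnion' K.2.1.isOpen_compl, hb.open_eq_sUnion' K'.2.1.isOpen_compl]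
      congr 1
      ext u
      constructor
      · rintro ⟨hu1, hu2⟩
        refine ⟨hu1, ?_⟩
        have : (⟨u, hu1⟩ : b) ∈ φ K := hu2
        rw [h] at this
        exact this
      · rintro ⟨hu1, hu2⟩
        refine ⟨hu1, ?_⟩
        have : (⟨u, hu1⟩ : b) ∈ φ K' := hu2
        rw [← h] at this
        exact this
    have h1 : #κ ≤ #(Set b) := mk_le_of_injective hφ
    have h2 : #(Set b) ≤ 𝔠 := by
      rw [mk_set, ← two_power_aleph0]
      apply power_le_power_left two_ne_zero
      have : Countable b := (TopologicalSpace.countable_countableBasis X).to_subtype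
      exact mk_le_aleph0
    exact h1.trans h2
  have hι : #(κ × ℕ) ≤ 𝔠 := by
    rw [mk_prod, lift_id, lift_id]
    calc #κ * #ℕ ≤ 𝔠 * 𝔠 := mul_le_mul' hκ (by simp [aleph0_le_continuum])
      _ = 𝔠 := continuum_mul_self
  obtain ⟨g, hg1, hg2⟩ := exists_injective_choice (fun p : κ × ℕ => p.1.1) hι (fun p => p.1.2.2)
  refine ⟨fun j => {x | ∃ K : κ, g (K, j) = x}, ?_, ?_⟩
  · intro i j hij
    rw [Set.disjoint_left]
    rintro x ⟨K, hK⟩ ⟨K', hK'⟩
    have := hg1 (hK.trans hK'.symm)
    exact hij (Prod.ext_iff.1 this).2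
  · intro j K hK hf
    exact ⟨g (⟨K, hK, hf⟩, j), ⟨_, rfl⟩, hg2 (⟨K, hK, hf⟩, j)⟩

end Pool.Agent.H64
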