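import Pool.Agent.H64.Seq
import Pool.Agent.H64.Bernstein

set_option autoImplicit false

namespace Pool.Agent.H64

open Set Metric Filter Topology

lemma Le_of_le {X : Type*} {S : ℕ → St X} (hle : ∀ t, (S t).Le (S (t + 1))) {s t : ℕ} (h : s ≤ t) :
    (S s).Le (S t) := by
  induction t, h using Nat.le_induction with
  | base => exact St.Le.refl _
  | succ t _ ih => exact ih.trans (hle t)

variable {X : Type*} [MetricSpace X]

lemma St.Good.exists_mem_compl {S : St X} (h : S.Good) {j : ℕ} {ν : Lk X} (hν : ν ∈ S.L j)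
    {U V : Set X} (hU : IsOpen U) (hV : IsOpen V) (hUV : Disjoint U V) (hcr : ν.Crosses U V) :
    ∃ c ∈ ν.N, c ∉ U ∪ V := by
  by_contra hcon
  push Not at hcon
  obtain ⟨-, -, -, hmin, -⟩ := h.link j ν hν
  have hr := hmin.2.1.left_mem hmin.1
  have hr' := hmin.2.1.right_mem hmin.1
  rcases isPreconnected_iff_subset_of_disjoint.1 hmin.isPreconnected U V hU hV hcon
    (by rw [hUV.inter_eq, inter_empty]) with h | h
  · rcases hcr with hc | hc
    · exact Set.disjoint_left.1 hUV (h hr') hc.2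
    · exact Set.disjoint_left.1 hUV (h hr) hc.1
  · rcases hcr with hc | hc
    · exact Set.disjoint_left.1 hUV hc.1 (h hr)
    · exact Set.disjoint_left.1 hUV hc.2 (h hr')

lemma two_children [CompactSpace X] {S : ℕ → St X} (hG : ∀ t, (S t).Good)
    (hle : ∀ t, (S t).Le (S (t + 1)))
    (hT : ∀ t j, j ≠ 0 → ∀ μ ∈ (S t).L j, TaskDone t j μ ((S t).oth j) (S (t + 1)))
    {j : ℕ} (hj : j ≠ 0) {μ : Lk X} {t0 : ℕ} (hμ : μ ∈ (S t0).L j) {U V : Set X} (hU : IsOpen U)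
    (hV : IsOpen V) (hUV : Disjoint U V) (hsub : ∀ t, (S t).A j ⊆ U ∪ V) (hcr : μ.Crosses U V)
    (T : ℕ) :
    ∃ t1 ν1 ν2, ν1 ∈ (S t1).L j ∧ ν2 ∈ (S t1).L j ∧ ν1.Crosses U V ∧ ν2.Crosses U V ∧
      Disjoint ν1.N ν2.N ∧
      (ν1.N ⊆ thickening (1 / ((T : ℝ) + 1)) μ.N ∧ Metric.diam ν1.N < 1 / ((T : ℝ) + 1) ∧
        Disjoint ν1.N ((S T).oth j)) ∧
      (ν2.N ⊆ thickening (1 / ((T : ℝ) + 1)) μ.N ∧ Metric.diam ν2.N < 1 / ((T : ℝ) + 1) ∧
        Disjoint ν2.N ((S T).oth j)) := by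
  -- distance from the complement
  have hrUV : μ.r ∈ U ∪ V := by
    rcases hcr with h | h
    exacts [Or.inl h.1, Or.inr h.1]
  have hr'UV : μ.r' ∈ U ∪ V := by
    rcases hcr with h | h
    exacts [Or.inr h.2, Or.inl h.2]
  have hUVo : IsOpen (U ∪ V) := hU.union hV
  obtain ⟨ρ1, hρ1, hρ1s⟩ := Metric.isOpen_iff.1 hUVo _ hrUV
  obtain ⟨ρ2, hρ2, hρ2s⟩ := Metric.isOpen_iff.1 hUVo _ hr'UV
  obtain ⟨n0, hn0⟩ := exists_nat_one_div_lt (lt_min hρ1 hρ2)
  have hfar : ∀ c, c ∉ U ∪ V → ∀ n : ℕ, n0 ≤ n →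
      1 / ((n : ℝ) + 1) ≤ dist c μ.r ∧ 1 / ((n : ℝ) + 1) ≤ dist c μ.r' := by
    intro c hc n hn
    have h1 : 1 / ((n : ℝ) + 1) ≤ 1 / ((n0 : ℝ) + 1) := by
      apply one_div_le_one_div_of_le (by positivity)
      have : (n0 : ℝ) ≤ n := by exact_mod_cast hn
      linarith
    have h2 : ρ1 ≤ dist c μ.r := by
      by_contra hlt
      exact hc (hρ1s (not_le.1 hlt))
    have h3 : ρ2 ≤ dist c μ.r' := by
      by_contra hlt
      exact hc (hρ2s (not_le.1 hlt))
    constructor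
    · exact h1.trans (hn0.le.trans ((min_le_left _ _).trans h2))
    · exact h1.trans (hn0.le.trans ((min_le_right _ _).trans h3))
  set n := max T (max n0 t0) with hn
  have hnT : T ≤ n := le_max_left _ _
  have hnn0 : n0 ≤ n := (le_max_left _ _).trans (le_max_right _ _)
  have hnt0 : t0 ≤ n := (le_max_right _ _).trans (le_max_right _ _)
  have hμn : μ ∈ (S n).L j := (Le_of_le hle hnt0 j).2 hμ
  obtain ⟨l, hl, htask⟩ := hT n j hj μ hμn
  obtain ⟨m, hm⟩ := exists_nat_one_div_lt hl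
  set n' := max n m with hn'
  have hn'n : n ≤ n' := le_max_left _ _
  have hn'm : m ≤ n' := le_max_right _ _
  have hμn' : μ ∈ (S n').L j := (Le_of_le hle hn'n j).2 hμn
  obtain ⟨l', hl', htask'⟩ := hT n' j hj μ hμn'
  obtain ⟨c0, hc0N, hc0⟩ := (hG n).exists_mem_compl hμn hU hV hUV hcr
  have hfar0 := hfar c0 hc0 n' (hnn0.trans hn'n)
  obtain ⟨ν1, h11, h12, h13, h14, h15, h16⟩ := htask' c0 hfar0.1 hfar0.2 U V hU hV hUV
    (hsub _) hcr
  obtain ⟨c1, hc1N, hc1⟩ := (hG (n' + 1)).exists_mem_compl h11 hU hV hUV h12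
  have hfar1 := hfar c1 hc1 n hnn0
  obtain ⟨ν2, h21, h22, h23, h24, h25, h26⟩ := htask c1 hfar1.1 hfar1.2 U V hU hV hUV
    (hsub _) hcr
  have hT' : 1 / ((n : ℝ) + 1) ≤ 1 / ((T : ℝ) + 1) := by
    apply one_div_le_one_div_of_le (by positivity)
    have : (T : ℝ) ≤ n := by exact_mod_cast hnT
    linarith
  have hn'' : 1 / ((n' : ℝ) + 1) ≤ 1 / ((n : ℝ) + 1) := by
    apply one_div_le_one_div_of_le (by positivity)
    have : (n : ℝ) ≤ n' := by exact_mod_cast hn'n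
    linarith
  have hnm : 1 / ((n' : ℝ) + 1) ≤ 1 / ((m : ℝ) + 1) := by
    apply one_div_le_one_div_of_le (by positivity)
    have : (m : ℝ) ≤ n' := by exact_mod_cast hn'm
    linarith
  refine ⟨n' + 1, ν1, ν2, h11, (Le_of_le hle (by omega : n + 1 ≤ n' + 1) j).2 h21, h12, h22, ?_,
    ⟨h14.trans (thickening_mono (hn''.trans hT') _), h15.trans_le (hn''.trans hT'),
      h16.mono_right ((Le_of_le hle (hnT.trans hn'n)).oth j)⟩,
    ⟨h24.trans (thickening_mono hT' _), h25.trans_le hT',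
      h26.mono_right ((Le_of_le hle hnT).oth j)⟩⟩
  rw [Set.disjoint_left]
  intro x hx1 hx2
  have h1 := h23 x hx2
  have h2 : dist x c1 ≤ Metric.diam ν1.N := dist_le_diam hx1 hc1N
  linarith

/-- a crossing link produces a Cantor set of points outside `U ∪ V`. -/
lemma exists_cantor [CompactSpace X] {S : ℕ → St X} (hG : ∀ t, (S t).Good)
    (hle : ∀ t, (S t).Le (S (t + 1)))
    (hT : ∀ t j, j ≠ 0 → ∀ μ ∈ (S t).L j, TaskDone t j μ ((S t).oth j) (S (t + 1)))
    {j : ℕ} (hj : j ≠ 0) {μ : Lk X} {t0 : ℕ} (hμ : μ ∈ (S t0).L j) {U V : Set X} (hU : IsOpen U)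
    (hV : IsOpen V) (hUV : Disjoint U V) (hsub : ∀ t, (S t).A j ⊆ U ∪ V) (hcr : μ.Crosses U V) :
    ∃ K : Set X, IsClosed K ∧ (∃ f : (ℕ → Bool) → X, Function.Injective f ∧ ∀ x, f x ∈ K) ∧
      (∀ p ∈ K, p ∉ U ∪ V) ∧ (∀ p ∈ K, ∀ t, p ∉ (S t).oth j) ∧
      (∀ p ∈ K, p ∈ closure (⋃ t, (S t).A j)) := by
  let Node := {p : Lk X × Set X // (∃ t, p.1 ∈ (S t).L j) ∧ p.1.Crosses U V ∧ IsClosed p.2 ∧
    ∃ ρ > 0, thickening ρ p.1.N ⊆ p.2}
  have hstep : ∀ (k : ℕ) (n : Node), ∃ c : Bool → Node, Disjoint (c true).1.2 (c false).1.2 ∧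
      ∀ b, (c b).1.2 ⊆ n.1.2 ∧ Disjoint (c b).1.2 ((S k).oth j) ∧
        ∀ p ∈ (c b).1.2, ∀ q ∈ (c b).1.2, dist p q ≤ 3 / ((k : ℝ) + 1) := by
    rintro k ⟨⟨ν, Z⟩, ⟨t, ht⟩, hνc, hZ, ρ, hρ, hρZ⟩
    simp only at ht hνc hZ hρZ
    obtain ⟨m, hm⟩ := exists_nat_one_div_lt hρ
    obtain ⟨t1, ν1, ν2, h1, h2, h3, h4, h5, ⟨h6, h7, h8⟩, ⟨h9, h10, h11⟩⟩ :=
      two_children hG hle hT hj ht hU hV hUV hsub hνc (max k m)
    have hk1 : 1 / (((max k m : ℕ) : ℝ) + 1) ≤ 1 / ((k : ℝ) + 1) := by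
      apply one_div_le_one_div_of_le (by positivity)
      have : (k : ℝ) ≤ ((max k m : ℕ) : ℝ) := by exact_mod_cast le_max_left _ _
      linarith
    have hm1 : 1 / (((max k m : ℕ) : ℝ) + 1) ≤ 1 / ((m : ℝ) + 1) := by
      apply one_div_le_one_div_of_le (by positivity)
      have : (m : ℝ) ≤ ((max k m : ℕ) : ℝ) := by exact_mod_cast le_max_right _ _
      linarith
    have hcl1 : IsClosed ν1.N := ((hG t1).link j ν1 h1).2.2.2.1.1
    have hcl2 : IsClosed ν2.N := ((hG t1).link j ν2 h2).2.2.2.1.1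
    have hoc : IsClosed ((S k).oth j) := (hG k).closed_oth j
    have hGo : IsOpen (thickening ρ ν.N \ (S k).oth j) := isOpen_thickening.sdiff hoc
    have hin : ∀ ν' : Lk X, ν'.N ⊆ thickening (1 / (((max k m : ℕ) : ℝ) + 1)) ν.N →
        Disjoint ν'.N ((S (max k m)).oth j) → ν'.N ⊆ thickening ρ ν.N \ (S k).oth j := by
      intro ν' ha hb x hx
      refine ⟨thickening_mono (hm1.trans hm.le) _ (ha hx), ?_⟩
      intro hxo
      exact Set.disjoint_left.1 hb hx ((Le_of_le hle (le_max_left k m)).oth j hxo)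
    obtain ⟨δ1, hδ1, hδ1s⟩ := hcl1.isCompact.exists_cthickening_subset_open hGo (hin ν1 h6 h8)
    obtain ⟨δ2, hδ2, hδ2s⟩ := hcl2.isCompact.exists_cthickening_subset_open hGo (hin ν2 h9 h11)
    obtain ⟨δ3, hδ3, hδ3s⟩ := h5.exists_cthickenings hcl1.isCompact hcl2
    have hkpos : 0 < 1 / ((k : ℝ) + 1) := by positivity
    set δ := min (min δ1 δ2) (min δ3 (1 / ((k : ℝ) + 1))) with hδ
    have hδpos : 0 < δ := lt_min (lt_min hδ1 hδ2) (lt_min hδ3 hkpos)
    have hδδ1 : δ ≤ δ1 := (min_le_left _ _).trans (min_le_left _ _)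
    have hδδ2 : δ ≤ δ2 := (min_le_left _ _).trans (min_le_right _ _)
    have hδδ3 : δ ≤ δ3 := (min_le_right _ _).trans (min_le_left _ _)
    have hδk : δ ≤ 1 / ((k : ℝ) + 1) := (min_le_right _ _).trans (min_le_right _ _)
    have hdist : ∀ ν' : Lk X, IsClosed ν'.N →
        Metric.diam ν'.N < 1 / (((max k m : ℕ) : ℝ) + 1) →
        ∀ p ∈ cthickening δ ν'.N, ∀ q ∈ cthickening δ ν'.N, dist p q ≤ 3 / ((k : ℝ) + 1) := by
      intro ν' hcl hd p hp q hq
      rw [hcl.isCompact.cthickening_eq_biUnion_closedBall hδpos.le, mem_iUnion₂] at hp hq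
      obtain ⟨p', hp', hpp'⟩ := hp
      obtain ⟨q', hq', hqq'⟩ := hq
      have e1 : dist p p' ≤ δ := hpp'
      have e2 : dist q q' ≤ δ := hqq'
      have e3 : dist p' q' ≤ Metric.diam ν'.N := dist_le_diam hp' hq'
      have e4 := dist_triangle4_right p q p' q'
      have e5 := dist_triangle p p' q
      have e6 := dist_triangle p' q' q
      rw [dist_comm q' q] at e6
      have e7 : (3 : ℝ) / ((k : ℝ) + 1) = 3 * (1 / ((k : ℝ) + 1)) := by ring
      rw [e7]
      linarith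
    refine ⟨fun b => if b then ⟨⟨ν1, cthickening δ ν1.N⟩, ⟨t1, h1⟩, h3, isClosed_cthickening, δ,
      hδpos, thickening_subset_cthickening _ _⟩ else ⟨⟨ν2, cthickening δ ν2.N⟩, ⟨t1, h2⟩, h4,
      isClosed_cthickening, δ, hδpos, thickening_subset_cthickening _ _⟩, ?_, ?_⟩
    · exact hδ3s.mono (cthickening_mono hδδ3 _) (cthickening_mono hδδ3 _)
    · intro b
      cases b
      · have hs := (cthickening_mono hδδ2 ν2.N).trans hδ2s
        refine ⟨fun p hp => hρZ (hs hp).1, ?_, hdist ν2 hcl2 h10⟩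
        rw [Set.disjoint_left]
        exact fun p hp => (hs hp).2
      · have hs := (cthickening_mono hδδ1 ν1.N).trans hδ1s
        refine ⟨fun p hp => hρZ (hs hp).1, ?_, hdist ν1 hcl1 h7⟩
        rw [Set.disjoint_left]
        exact fun p hp => (hs hp).2
  choose c hc1 hc2 using hstep
  let root : Node := ⟨⟨μ, univ⟩, ⟨t0, hμ⟩, hcr, isClosed_univ, 1, one_pos, subset_univ _⟩
  let node : (ℕ → Bool) → ℕ → Node := fun x k => Nat.rec root (fun k n => c k n (x k)) k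
  have hnode : ∀ x k, node x (k + 1) = c k (node x k) (x k) := fun x k => rfl
  have hagree : ∀ (x y : ℕ → Bool) (k : ℕ), (∀ i, i < k → x i = y i) → node x k = node y k := by
    intro x y k
    induction k with
    | zero => intro _; rfl
    | succ k ih =>
      intro h
      rw [hnode, hnode, ih (fun i hi => h i (Nat.lt_succ_of_lt hi)), h k (Nat.lt_succ_self k)]
  have hanti : ∀ x k, (node x (k + 1)).1.2 ⊆ (node x k).1.2 := by
    intro x k
    rw [hnode]
    exact (hc2 k (node x k) (x k)).1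
  have hNZ : ∀ n : Node, n.1.1.N ⊆ n.1.2 := by
    rintro ⟨⟨ν, Z⟩, -, -, -, ρ, hρ, hρZ⟩
    exact (self_subset_thickening hρ _).trans hρZ
  have hCc : IsClosed (U ∪ V)ᶜ := (hU.union hV).isClosed_compl
  have hne : ∀ x, (⋂ k, ((node x k).1.2 ∩ (U ∪ V)ᶜ)).Nonempty := by
    intro x
    apply IsCompact.nonempty_iInter_of_sequence_nonempty_isCompact_isClosed
    · exact fun k => inter_subset_inter_left _ (hanti x k)
    · intro k
      obtain ⟨t, ht⟩ := (node x k).2.1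
      obtain ⟨p, hp1, hp2⟩ := (hG t).exists_mem_compl ht hU hV hUV (node x k).2.2.1
      exact ⟨p, hNZ _ hp1, hp2⟩
    · exact ((node x 0).2.2.2.1.inter hCc).isCompact
    · exact fun k => (node x k).2.2.2.1.inter hCc
  choose p hp using hne
  have hpZ : ∀ x k, p x ∈ (node x k).1.2 := fun x k => (mem_iInter.1 (hp x) k).1
  have hpC : ∀ x, p x ∉ U ∪ V := fun x => (mem_iInter.1 (hp x) 0).2
  have hdistZ : ∀ x k, ∀ a ∈ (node x (k + 1)).1.2, ∀ b ∈ (node x (k + 1)).1.2,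
      dist a b ≤ 3 / ((k : ℝ) + 1) := by
    intro x k
    rw [hnode]
    exact (hc2 k (node x k) (x k)).2.2
  have hsmall : ∀ ε > 0, ∃ k : ℕ, 3 / ((k : ℝ) + 1) < ε := by
    intro ε hε
    obtain ⟨k, hk⟩ := exists_nat_one_div_lt (show 0 < ε / 3 by positivity)
    refine ⟨k, ?_⟩
    have e7 : (3 : ℝ) / ((k : ℝ) + 1) = 3 * (1 / ((k : ℝ) + 1)) := by ring
    rw [e7]
    linarith
  have hcont : Continuous p := by
    rw [continuous_iff_continuousAt]
    intro x
    rw [ContinuousAt, Metric.tendsto_nhds]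
    intro ε hε
    obtain ⟨k, hk⟩ := hsmall ε hε
    have hnh : (Set.pi (Finset.range (k + 1) : Set ℕ) (fun i => {x i}) : Set (ℕ → Bool)) ∈ 𝓝 x := by
      apply set_pi_mem_nhds (Finset.finite_toSet _)
      intro i _
      exact (isOpen_discrete _).mem_nhds rfl
    filter_upwards [hnh] with y hy
    have hyx : node y (k + 1) = node x (k + 1) :=
      hagree y x (k + 1) (fun i hi => hy i (by simpa using hi))
    have h1 := hpZ y (k + 1)
    rw [hyx] at h1
    exact (hdistZ x k _ h1 _ (hpZ x (k + 1))).trans_lt hk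
  have hinj : Function.Injective p := by
    intro x y hxy
    by_contra hne
    have hex : ∃ k, x k ≠ y k := by
      by_contra hcon
      push Not at hcon
      exact hne (funext hcon)
    classical
    set k := Nat.find hex with hk
    have hk1 : x k ≠ y k := Nat.find_spec hex
    have hk2 : ∀ i, i < k → x i = y i := fun i hi => by
      by_contra h
      exact Nat.find_min hex hi h
    have heq := hagree x y k hk2
    have h1 := hpZ x (k + 1)
    have h2 := hpZ y (k + 1)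
    rw [hnode] at h1 h2
    rw [← heq, ← hxy] at h2
    have hd := hc1 k (node x k)
    cases hx : x k
    · have hy : y k = true := by
        cases hy : y k
        · exact absurd (hx.trans hy.symm) hk1
        · rfl
      rw [hx] at h1
      rw [hy] at h2
      exact Set.disjoint_left.1 hd h2 h1
    · have hy : y k = false := by
        cases hy : y k
        · rfl
        · exact absurd (hx.trans hy.symm) hk1
      rw [hx] at h1
      rw [hy] at h2
      exact Set.disjoint_left.1 hd h1 h2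
  refine ⟨range p, (isCompact_range hcont).isClosed, ⟨p, hinj, fun x => ⟨x, rfl⟩⟩, ?_, ?_, ?_⟩
  · rintro _ ⟨x, rfl⟩
    exact hpC x
  · rintro _ ⟨x, rfl⟩ t ht
    have h1 := hpZ x (t + 1)
    rw [hnode] at h1
    exact Set.disjoint_left.1 (hc2 t (node x t) (x t)).2.1 h1 ht
  · rintro _ ⟨x, rfl⟩
    rw [Metric.mem_closure_iff]
    intro ε hε
    obtain ⟨k, hk⟩ := hsmall ε hε
    obtain ⟨t, ht⟩ := (node x (k + 1)).2.1
    obtain ⟨-, hr, -, hmin, -⟩ := (hG t).link j _ ht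
    have hrN := hNZ (node x (k + 1)) (hmin.2.1.left_mem hmin.1)
    exact ⟨_, mem_iUnion.2 ⟨t, hr⟩, (hdistZ x k _ (hpZ x (k + 1)) _ hrN).trans_lt hk⟩

end Pool.Agent.H64
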