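import Pool.Agent.H64.PrBasic

set_option autoImplicit false

namespace Pool.Agent.H64

open Set Metric Filter Topology

variable {X : Type*} [MetricSpace X]

/-- punctured neighbourhood of `N` -/
def Rg (N : Set X) (δ : ℝ) : Set X := thickening δ N \ N

lemma isOpen_Rg {N : Set X} (hN : IsClosed N) (δ : ℝ) : IsOpen (Rg N δ) :=
  isOpen_thickening.sdiff hN

lemma Rg_mono {N : Set X} {δ δ' : ℝ} (h : δ ≤ δ') : Rg N δ ⊆ Rg N δ' :=
  sdiff_subset_sdiff_left (thickening_mono h N)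

lemma Star.small_comps [CompactSpace X] [LocallyConnectedSpace X] (hS : Star X) {N : Set X}
    (hN : IsClosed N) {ρ : ℝ} (hρ : 0 < ρ) :
    ∃ δ > 0, ∀ C, IsPreconnected C → C ⊆ Rg N δ → Metric.diam C ≤ ρ := by
  by_contra hcon
  push Not at hcon
  have hQ : ∀ δ : {δ : ℝ // 0 < δ}, ∃ Q : Set X, ∃ δ' : {δ : ℝ // 0 < δ}, IsPreconnected Q ∧
      Q ⊆ Rg N δ ∧ ρ ≤ Metric.diam Q ∧ Disjoint Q (thickening δ' N) := by
    rintro ⟨δ, hδ⟩
    obtain ⟨C, hC1, hC2, hC3⟩ := hcon δ hδ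
    have hab : ∃ a ∈ C, ∃ b ∈ C, ρ < dist a b := by
      by_contra hcon'
      push Not at hcon'
      exact absurd (diam_le_of_forall_dist_le hρ.le hcon') (not_le.2 hC3)
    obtain ⟨a, ha, b, hb, hab⟩ := hab
    obtain ⟨Q, hQ1, hQ2, hQ3, haQ, hbQ⟩ := exists_compact_connected (isOpen_Rg hN δ)
      (⟨C, hC2, hC1, ha, hb⟩ : J (Rg N δ) a b)
    have hdisj : Disjoint Q N := by
      rw [Set.disjoint_left]
      exact fun x hx => (hQ1 hx).2
    obtain ⟨δ', hδ', hd⟩ := hdisj.exists_thickenings hQ2 hN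
    exact ⟨Q, ⟨δ', hδ'⟩, hQ3, hQ1, hab.le.trans (dist_le_diam haQ hbQ),
      hd.mono_left (self_subset_thickening hδ' Q)⟩
  choose Q δ' hQ1 hQ2 hQ3 hQ4 using hQ
  let d : ℕ → {δ : ℝ // 0 < δ} := fun n => Nat.rec ⟨1, one_pos⟩
    (fun _ p => ⟨min (p : ℝ) (δ' p), lt_min p.2 (δ' p).2⟩) n
  have hd : ∀ n, (d (n + 1)).1 = min (d n).1 (δ' (d n)).1 := fun n => rfl
  have hmono : Antitone (fun n => (d n).1) := antitone_nat_of_succ_le (fun n => by
    rw [hd]; exact min_le_left _ _)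
  have hlt : ∀ i j, i < j → Disjoint (Q (d i)) (Q (d j)) := by
    intro i j hij
    apply (hQ4 (d i)).mono_right
    intro x hx
    have h1 := (hQ2 (d j) hx).1
    apply thickening_mono _ N h1
    calc (d j).1 ≤ (d (i + 1)).1 := hmono hij
      _ ≤ (δ' (d i)).1 := by rw [hd]; exact min_le_right _ _
  apply hS ρ hρ
  refine ⟨fun i => Q (d i), fun i => hQ1 _, ?_, fun i => hQ3 _⟩
  intro i j hij
  rcases lt_or_gt_of_ne hij with h | h
  · exact hlt i j h
  · exact (hlt j i h).symm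

/-- `Y` is a component of a punctured neighbourhood of `N`, adherent to `N`. -/
def EndC (N Y : Set X) : Prop :=
  ∃ δ > 0, ∃ x ∈ Rg N δ, Y = connectedComponentIn (Rg N δ) x ∧ (closure Y ∩ N).Nonempty

lemma EndC.isOpen [LocallyConnectedSpace X] {N Y : Set X} (hN : IsClosed N) (h : EndC N Y) :
    IsOpen Y := by
  obtain ⟨δ, hδ, x, hx, rfl, -⟩ := h
  exact (isOpen_Rg hN δ).connectedComponentIn

lemma EndC.isPreconnected {N Y : Set X} (h : EndC N Y) : IsPreconnected Y := by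
  obtain ⟨δ, hδ, x, hx, rfl, -⟩ := h
  exact isPreconnected_connectedComponentIn

lemma EndC.disjoint {N Y : Set X} (h : EndC N Y) : Disjoint Y N := by
  obtain ⟨δ, hδ, x, hx, rfl, -⟩ := h
  rw [Set.disjoint_left]
  exact fun y hy => (connectedComponentIn_subset _ _ hy).2

lemma EndC.nonempty {N Y : Set X} (h : EndC N Y) : Y.Nonempty := by
  obtain ⟨δ, hδ, x, hx, rfl, -⟩ := h
  exact ⟨x, mem_connectedComponentIn hx⟩

lemma EndC.nonempty' {N Y : Set X} (h : EndC N Y) : (closure Y ∩ N).Nonempty := by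
  obtain ⟨δ, hδ, x, hx, rfl, h⟩ := h
  exact h

/-- boundary points of a component of `Rg N δ` inside the thickening are in `N`. -/
lemma mem_of_boundary [LocallyConnectedSpace X] {N : Set X} (hN : IsClosed N) {δ : ℝ} {x v : X}
    (hv : v ∈ closure (connectedComponentIn (Rg N δ) x)) (hv' : v ∉ connectedComponentIn (Rg N δ) x)
    (hvδ : v ∈ thickening δ N) : v ∈ N := by
  by_contra hvN
  exact hv' (closure_comp_inter (isOpen_Rg hN δ) ⟨hv, hvδ, hvN⟩)

lemma exists_sub_comp [CompactSpace X] [LocallyConnectedSpace X] (hS : Star X) {N : Set X}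
    (hN : IsClosed N) {O Y : Set X} {x0 : X} (hON : Disjoint O N)
    (hY : Y = connectedComponentIn O x0)
    {y : X} (hyN : y ∈ N) (hOy : O ∪ N ∈ 𝓝 y) (hyY : y ∈ closure Y) {G : Set X} (hG : G ∈ 𝓝 y) :
    ∃ Y2, EndC N Y2 ∧ Y2 ⊆ Y ∧ closure Y2 ⊆ G := by
  obtain ⟨ρ, hρ, hρG⟩ := Metric.nhds_basis_closedBall.mem_iff.1 (inter_mem hG hOy)
  obtain ⟨δ, hδ, hδC⟩ := hS.small_comps hN (half_pos hρ)
  have hb : (0:ℝ) < min (ρ / 2) δ := lt_min (half_pos hρ) hδ
  set Bn := connectedComponentIn (ball y (min (ρ / 2) δ)) y with hBn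
  have hBno : IsOpen Bn := isOpen_ball.connectedComponentIn
  have hyB : y ∈ Bn := mem_connectedComponentIn (mem_ball_self hb)
  have hBsub : Bn ⊆ ball y (min (ρ / 2) δ) := connectedComponentIn_subset _ _
  obtain ⟨u, huB, huY⟩ := _root_.mem_closure_iff.1 hyY Bn hBno hyB
  have hud : dist u y < min (ρ / 2) δ := hBsub huB
  have huO : u ∈ O := by rw [hY] at huY; exact connectedComponentIn_subset _ _ huY
  have huN : u ∉ N := Set.disjoint_left.1 hON huO
  have huR : u ∈ Rg N δ := ⟨mem_thickening_iff.2 ⟨y, hyN, hud.trans_le (min_le_right _ _)⟩, huN⟩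
  set Y2 := connectedComponentIn (Rg N δ) u with hY2
  have hY2d : Metric.diam Y2 ≤ ρ / 2 :=
    hδC _ isPreconnected_connectedComponentIn (connectedComponentIn_subset _ _)
  have huY2 : u ∈ Y2 := mem_connectedComponentIn huR
  have hclB : closure Y2 ⊆ closedBall y ρ := by
    intro z hz
    rw [mem_closedBall]
    have h1 : dist z u ≤ Metric.diam (closure Y2) := dist_le_diam hz (subset_closure huY2)
    rw [Metric.diam_closure] at h1
    have h2 := dist_triangle z u y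
    have h3 := hud.trans_le (min_le_left _ _)
    linarith
  have hsub : Y2 ⊆ Y := by
    rw [hY, connectedComponentIn_eq (hY ▸ huY)]
    apply isPreconnected_connectedComponentIn.subset_connectedComponentIn huY2
    intro z hz
    rcases (hρG (hclB (subset_closure hz))).2 with h | h
    · exact h
    · exact absurd h (connectedComponentIn_subset _ _ hz).2
  refine ⟨Y2, ⟨δ, hδ, u, huR, rfl, ?_⟩, hsub, fun z hz => (hρG (hclB hz)).1⟩
  have hyY2 : y ∉ Y2 := fun h => (connectedComponentIn_subset _ _ h).2 hyN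
  obtain ⟨v, hv1, hv2, hv3⟩ := exists_mem_frontier
    (isPreconnected_connectedComponentIn : IsPreconnected Bn)
    ((isOpen_Rg hN δ).connectedComponentIn : IsOpen Y2) huB huY2 hyB hyY2
  refine ⟨v, hv2, mem_of_boundary hN hv2 hv3 ?_⟩
  exact mem_thickening_iff.2 ⟨y, hyN, (hBsub hv1 : dist v y < _).trans_le (min_le_right _ _)⟩

lemma EndC.exists_sub [CompactSpace X] [LocallyConnectedSpace X] (hS : Star X) {N Y : Set X}
    (hN : IsClosed N) (hY : EndC N Y) {y : X} (hy : y ∈ closure Y ∩ N) {G : Set X} (hG : G ∈ 𝓝 y) :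
    ∃ Y2, EndC N Y2 ∧ Y2 ⊆ Y ∧ closure Y2 ⊆ G := by
  obtain ⟨δ, hδ, x, hx, hYeq, -⟩ := hY
  apply exists_sub_comp hS hN (O := Rg N δ) (x0 := x) _ hYeq hy.2 _ hy.1 hG
  · rw [Set.disjoint_left]
    exact fun z hz => hz.2
  · apply mem_of_superset (isOpen_thickening.mem_nhds (self_subset_thickening hδ N hy.2))
    intro z hz
    by_cases hzN : z ∈ N
    · exact Or.inr hzN
    · exact Or.inl ⟨hz, hzN⟩

/-- one step of accessibility -/
lemma Star.access_step [CompactSpace X] [LocallyConnectedSpace X] (hS : Star X) {V : Set X}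
    (hV : IsOpen V) (hVc : IsPreconnected V) {y : X} (hy : y ∈ closure V) {ρ : ℝ}
    (hρ : 0 < ρ) : ∃ V', IsOpen V' ∧ IsPreconnected V' ∧ y ∈ closure V' ∧ V' ⊆ V ∧ V' ⊆ ball y ρ := by
  by_cases hVb : V ⊆ ball y ρ
  · exact ⟨V, hV, hVc, hy, subset_rfl, hVb⟩
  rw [not_subset] at hVb
  obtain ⟨b, hbV, hb⟩ := hVb
  set O := V ∩ ball y ρ with hO
  have hOo : IsOpen O := hV.inter isOpen_ball
  have hd : ∀ x, x ∈ V ∩ ball y (ρ / 2) → ρ / 2 ≤ Metric.diam (connectedComponentIn O x) := by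
    rintro x ⟨hxV, hx⟩
    have hxO : x ∈ O := ⟨hxV, ball_subset_ball (by linarith) hx⟩
    obtain ⟨c, hcV, hc1, hc2⟩ := exists_mem_frontier hVc
      (hOo.connectedComponentIn : IsOpen (connectedComponentIn O x)) hxV
      (mem_connectedComponentIn hxO) hbV (fun h => hb (connectedComponentIn_subset _ _ h).2)
    have hcO : c ∉ O := fun h => hc2 (closure_comp_inter hOo ⟨hc1, h⟩)
    have hcd : ρ ≤ dist c y := by
      by_contra hlt
      exact hcO ⟨hcV, not_le.1 hlt⟩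
    have h1 : dist c x ≤ Metric.diam (closure (connectedComponentIn O x)) :=
      dist_le_diam hc1 (subset_closure (mem_connectedComponentIn hxO))
    rw [Metric.diam_closure] at h1
    have h2 := dist_triangle c x y
    have h3 : dist x y < ρ / 2 := hx
    linarith
  have hfin := hS.finite_comps (O := O) (P := fun x => x ∈ V ∩ ball y (ρ / 2)) (half_pos hρ) hd
  have hsub : V ∩ ball y (ρ / 2) ⊆
      ⋃ a ∈ {a | ∃ x, x ∈ V ∩ ball y (ρ / 2) ∧ a = connectedComponentIn O x}, a := by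
    intro x hx
    rw [mem_iUnion₂]
    exact ⟨_, ⟨x, hx, rfl⟩, mem_connectedComponentIn ⟨hx.1, ball_subset_ball (by linarith) hx.2⟩⟩
  have hycl : y ∈ closure (V ∩ ball y (ρ / 2)) := by
    rw [_root_.mem_closure_iff]
    intro o ho hyo
    obtain ⟨z, hz1, hz2⟩ := _root_.mem_closure_iff.1 hy (o ∩ ball y (ρ / 2)) (ho.inter isOpen_ball)
      ⟨hyo, mem_ball_self (half_pos hρ)⟩
    exact ⟨z, hz1.1, hz2, hz1.2⟩
  have hy2 := closure_mono hsub hycl
  rw [hfin.closure_biUnion] at hy2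
  rw [mem_iUnion₂] at hy2
  obtain ⟨_, ⟨x, hx, rfl⟩, hyx⟩ := hy2
  exact ⟨connectedComponentIn O x, hOo.connectedComponentIn, isPreconnected_connectedComponentIn,
    hyx, (connectedComponentIn_subset _ _).trans inter_subset_left,
    (connectedComponentIn_subset _ _).trans inter_subset_right⟩

lemma Star.accessible [CompactSpace X] [LocallyConnectedSpace X] (hS : Star X) {V : Set X}
    (hV : IsOpen V) (hVc : IsPreconnected V) {y : X} (hy : y ∈ closure V) {v : X} (hv : v ∈ V) :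
    ∃ h, IsCompact h ∧ IsPreconnected h ∧ h ⊆ insert y V ∧ y ∈ h ∧ v ∈ h := by
  let T := {W : Set X // IsOpen W ∧ IsPreconnected W ∧ y ∈ closure W}
  have hstep : ∀ (n : ℕ) (W : T), ∃ W' : T, W'.1 ⊆ W.1 ∧ W'.1 ⊆ ball y (1 / ((n : ℝ) + 1)) := by
    intro n W
    obtain ⟨V', h1, h2, h3, h4, h5⟩ := hS.access_step W.2.1 W.2.2.1 W.2.2.2
      (show (0:ℝ) < 1 / ((n : ℝ) + 1) by positivity)
    exact ⟨⟨V', h1, h2, h3⟩, h4, h5⟩
  choose f hf1 hf2 using hstep
  let W : ℕ → T := fun n => Nat.rec ⟨V, hV, hVc, hy⟩ (fun n p => f n p) n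
  have hW0 : (W 0).1 = V := rfl
  have hWs : ∀ n, W (n + 1) = f n (W n) := fun n => rfl
  have hWanti : Antitone (fun n => (W n).1) := antitone_nat_of_succ_le (fun n => by
    rw [hWs]; exact hf1 n (W n))
  have hWV : ∀ n, (W n).1 ⊆ V := fun n => hWanti (Nat.zero_le n)
  have hne : ∀ n, ∃ w, w ∈ (W n).1 := fun n => (closure_nonempty_iff.1 ⟨y, (W n).2.2.2⟩)
  choose w hw using hne
  let w' : ℕ → X := fun n => Nat.casesOn n v (fun n => w (n + 1))
  have hw' : ∀ n, w' n ∈ (W n).1 := by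
    intro n
    cases n with
    | zero => exact hv
    | succ n => exact hw (n + 1)
  have hκ : ∀ n, ∃ C, C ⊆ (W n).1 ∧ IsCompact C ∧ IsPreconnected C ∧ w' n ∈ C ∧ w' (n + 1) ∈ C := by
    intro n
    exact exists_compact_connected (W n).2.1
      ⟨(W n).1, subset_rfl, (W n).2.2.1, hw' n, hWanti (Nat.le_succ n) (hw' (n + 1))⟩
  choose κ hκ1 hκ2 hκ3 hκ4 hκ5 using hκ
  have hpre : IsPreconnected (⋃ n, κ n) := by
    apply IsPreconnected.iUnion_of_chain hκ3
    intro n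
    exact ⟨w' (n + 1), hκ5 n, hκ4 (n + 1)⟩
  refine ⟨closure (⋃ n, κ n), isClosed_closure.isCompact, hpre.closure, ?_, ?_, ?_⟩
  · intro x hx
    by_cases hxy : x = y
    · exact Or.inl hxy
    right
    have hpos : 0 < dist x y / 2 := half_pos (dist_pos.2 hxy)
    obtain ⟨n, hn⟩ := exists_nat_one_div_lt hpos
    have hsub : (⋃ n, κ n) ⊆ (⋃ i ∈ Finset.range (n + 1), κ i) ∪ closedBall y (dist x y / 2) := by
      intro z hz
      obtain ⟨i, hi⟩ := mem_iUnion.1 hz
      by_cases hin : i < n + 1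
      · left
        rw [mem_iUnion₂]
        exact ⟨i, Finset.mem_range.2 hin, hi⟩
      · right
        have h1 : z ∈ (W (n + 1)).1 := hWanti (not_lt.1 hin) (hκ1 i hi)
        rw [hWs] at h1
        have h2 : dist z y < 1 / ((n : ℝ) + 1) := hf2 n (W n) h1
        exact (h2.trans hn).le
    have hcl : IsClosed ((⋃ i ∈ Finset.range (n + 1), κ i) ∪ closedBall y (dist x y / 2)) := by
      apply IsClosed.union _ isClosed_closedBall
      exact (Finset.range (n+1)).finite_toSet.isClosed_biUnion (fun i _ => (hκ2 i).isClosed)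
    rcases closure_minimal hsub hcl hx with h | h
    · rw [mem_iUnion₂] at h
      obtain ⟨i, -, hi⟩ := h
      exact hWV i (hκ1 i hi)
    · rw [mem_closedBall] at h
      linarith
  · rw [Metric.mem_closure_iff]
    intro ε hε
    obtain ⟨n, hn⟩ := exists_nat_one_div_lt hε
    refine ⟨w' (n + 1), mem_iUnion.2 ⟨n, hκ5 n⟩, ?_⟩
    have h1 : w' (n + 1) ∈ (W (n + 1)).1 := hw' (n + 1)
    rw [hWs] at h1
    have h2 : dist (w' (n + 1)) y < 1 / ((n : ℝ) + 1) := hf2 n (W n) h1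
    rw [dist_comm]
    exact h2.trans hn
  · exact subset_closure (mem_iUnion.2 ⟨0, hκ4 0⟩)

lemma Star.exists_arc [CompactSpace X] [LocallyConnectedSpace X] (hS : Star X) {Y Y1 gs : Set X}
    (hYo : IsOpen Y) (hYc : IsPreconnected Y) (hY1o : IsOpen Y1) (hY1c : IsPreconnected Y1)
    (hY1Y : Y1 ⊆ Y) (hgs : IsCompact gs) (hgsc : IsPreconnected gs) (hmeet : (gs ∩ Y).Nonempty)
    {y : X} (hy : y ∈ closure Y1) (hyY : y ∉ Y) (hygs : y ∉ gs) :
    ∃ g, IsCompact g ∧ IsPreconnected g ∧ gs ⊆ g ∧ g ⊆ gs ∪ insert y Y ∧ y ∈ g ∧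
      ∃ η > 0, g ∩ ball y η ⊆ insert y Y1 := by
  obtain ⟨v, hv⟩ := closure_nonempty_iff.1 ⟨y, hy⟩
  obtain ⟨h, h1, h2, h3, h4, h5⟩ := hS.accessible hY1o hY1c hy hv
  obtain ⟨p, hp1, hp2⟩ := hmeet
  obtain ⟨κ, k1, k2, k3, k4, k5⟩ := exists_compact_connected hYo
    (⟨Y, subset_rfl, hYc, hp2, hY1Y hv⟩ : J Y p v)
  have hyK : y ∉ gs ∪ κ := by
    rintro (h | h)
    · exact hygs h
    · exact hyY (k1 h)
  have hKc : IsClosed (gs ∪ κ) := (hgs.union k2).isClosed
  obtain ⟨η, hη, hηs⟩ := Metric.isOpen_iff.1 hKc.isOpen_compl y hyK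
  refine ⟨(gs ∪ κ) ∪ h, (hgs.union k2).union h1, ?_, ?_, ?_, Or.inr h4, η, hη, ?_⟩
  · exact (hgsc.union p hp1 k4 k3).union v (Or.inr k5) h5 h2
  · exact fun x hx => Or.inl (Or.inl hx)
  · rintro x ((hx | hx) | hx)
    · exact Or.inl hx
    · exact Or.inr (Or.inr (k1 hx))
    · rcases h3 hx with h | h
      · exact Or.inr (Or.inl h)
      · exact Or.inr (Or.inr (hY1Y h))
  · rintro x ⟨hx | hx, hxb⟩
    · exact absurd hx (hηs hxb)
    · exact h3 hx

/-- `n` points far from `r, r'` separate `r` from `r'` in the thickening, modulo `B` and `g`. -/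
def Blk (n : ℕ) (B N : Set X) (r r' : X) (g : Set X) : Prop :=
  ∃ f : Fin n → X, (∀ i, 1 / ((n : ℝ) + 1) ≤ dist (f i) r ∧ 1 / ((n : ℝ) + 1) ≤ dist (f i) r') ∧
    ¬ J (thickening (1 / ((n : ℝ) + 1)) N \ (range f ∪ (B ∪ g))) r r'

lemma Blk.mono {n : ℕ} {B N : Set X} {r r' : X} {g g' : Set X} (h : Blk n B N r r' g)
    (hg : g ⊆ g') : Blk n B N r r' g' := by
  obtain ⟨f, hf, hJ⟩ := h
  refine ⟨f, hf, fun hJ' => hJ (hJ'.mono ?_)⟩
  apply sdiff_subset_sdiff_right
  apply union_subset_union_right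
  exact union_subset_union_right _ hg

lemma Pr_of_not_Blk [CompactSpace X] [PreconnectedSpace X] {B N : Set X} {r r' : X} {g : Set X}
    (hN : IsClosed N) (hne : r ≠ r') (h : ∀ n, ¬ Blk n B N r r' g) : Pr (B ∪ g) N r r' := by
  intro W hW hNW F hF hr hr'
  obtain ⟨δ, hδ, hδW⟩ := hN.isCompact.exists_thickening_subset_open hW hNW
  have hinf : (univ : Set X).Infinite := isPreconnected_univ.infinite_of_nontrivial
    ⟨r, mem_univ _, r', mem_univ _, hne⟩
  obtain ⟨z, hz⟩ := (hinf.sdiff (Set.toFinite {r, r'})).nonempty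
  have hzr : z ≠ r := fun h => hz.2 (Or.inl h)
  have hzr' : z ≠ r' := fun h => hz.2 (Or.inr h)
  set F' := insert z F with hF'
  have hF'fin : F'.Finite := hF.insert z
  have hpos : ∃ δ2 > 0, ∀ x ∈ F', δ2 ≤ dist x r ∧ δ2 ≤ dist x r' := by
    have h1 : ∀ x ∈ F', 0 < min (dist x r) (dist x r') := by
      rintro x (rfl | hx)
      · exact lt_min (dist_pos.2 hzr) (dist_pos.2 hzr')
      · exact lt_min (dist_pos.2 (fun h => hr (h ▸ hx))) (dist_pos.2 (fun h => hr' (h ▸ hx)))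
    obtain ⟨x0, hx0, hx0'⟩ := F'.exists_min_image (fun x => min (dist x r) (dist x r')) hF'fin
      ⟨z, mem_insert _ _⟩
    refine ⟨min (dist x0 r) (dist x0 r'), h1 x0 hx0, fun x hx => ?_⟩
    exact ⟨(hx0' x hx).trans (min_le_left _ _), (hx0' x hx).trans (min_le_right _ _)⟩
  obtain ⟨δ2, hδ2, hδ2F⟩ := hpos
  obtain ⟨m, hm⟩ := exists_nat_one_div_lt (lt_min hδ hδ2)
  set l := hF'fin.toFinset.toList with hl
  have hmeml : ∀ x, x ∈ l ↔ x ∈ F' := by
    intro x
    rw [hl, Finset.mem_toList, Set.Finite.mem_toFinset]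
  set n := max m l.length with hn
  have hnm : 1 / ((n : ℝ) + 1) < min δ δ2 := by
    refine lt_of_le_of_lt ?_ hm
    apply one_div_le_one_div_of_le (by positivity)
    have : (m : ℝ) ≤ n := by exact_mod_cast le_max_left _ _
    linarith
  have hmemF' : ∀ i, l.getD i z ∈ F' := by
    intro i
    by_cases hi : i < l.length
    · rw [List.getD_eq_getElem _ _ hi]
      exact (hmeml _).1 (List.getElem_mem hi)
    · rw [List.getD_eq_default _ _ (not_lt.1 hi)]
      exact mem_insert _ _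
  have hnot := h n
  unfold Blk at hnot
  push Not at hnot
  have hJ := hnot (fun i : Fin n => l.getD i z) (fun i => by
    have := hδ2F _ (hmemF' i)
    exact ⟨(hnm.trans_le (min_le_right _ _)).le.trans this.1,
      (hnm.trans_le (min_le_right _ _)).le.trans this.2⟩)
  refine hJ.mono ?_
  rintro x ⟨hx1, hx2⟩
  refine ⟨hδW (thickening_mono (hnm.trans_le (min_le_left _ _)).le _ hx1), ?_⟩
  rintro (hxF | hxg)
  · apply hx2
    left
    have hxl : x ∈ l := (hmeml x).2 (Or.inr hxF)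
    obtain ⟨i, hi, hix⟩ := List.mem_iff_getElem.1 hxl
    refine ⟨⟨i, hi.trans_le (le_max_right _ _)⟩, ?_⟩
    simp only
    rw [List.getD_eq_getElem _ _ hi, hix]
  · exact hx2 (Or.inr hxg)

/-- non-blocking is an open condition. -/
lemma exists_not_Blk [CompactSpace X] [LocallyConnectedSpace X] {n : ℕ} {B N : Set X} {r r' : X}
    {g : Set X} (hB : IsClosed B) (hg : IsClosed g) {y : X} (hy : y ∈ g)
    (h : ¬ Blk n B N r r' g) : ∃ ρ > 0, ¬ Blk n B N r r' (g ∪ closedBall y ρ) := by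
  set W := thickening (1 / ((n : ℝ) + 1)) N with hW
  set K : Set (Fin n → X) := {f | ∀ i, 1 / ((n : ℝ) + 1) ≤ dist (f i) r ∧
    1 / ((n : ℝ) + 1) ≤ dist (f i) r'} with hK
  have hKc : IsClosed K := by
    have : K = ⋂ i, ({f | 1 / ((n : ℝ) + 1) ≤ dist (f i) r} ∩ {f | 1 / ((n : ℝ) + 1) ≤ dist (f i) r'}) := by
      ext f
      simp [hK]
    rw [this]
    apply isClosed_iInter
    intro i
    apply IsClosed.inter
    · exact isClosed_le continuous_const ((continuous_apply i).dist continuous_const)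
    · exact isClosed_le continuous_const ((continuous_apply i).dist continuous_const)
  have hmain : ∃ ρ > 0, ∀ f ∈ K, J (W \ (range f ∪ (B ∪ (g ∪ closedBall y ρ)))) r r' := by
    refine hKc.isCompact.induction_on (p := fun S => ∃ ρ > 0, ∀ f ∈ S,
      J (W \ (range f ∪ (B ∪ (g ∪ closedBall y ρ)))) r r') ?_ ?_ ?_ ?_
    · exact ⟨1, one_pos, fun f hf => absurd hf (notMem_empty f)⟩
    · rintro s t hst ⟨ρ, hρ, h⟩
      exact ⟨ρ, hρ, fun f hf => h f (hst hf)⟩
    · rintro s t ⟨ρ, hρ, h1⟩ ⟨ρ', hρ', h2⟩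
      have key : ∀ ρ'' : ℝ, min ρ ρ' ≤ ρ'' → ∀ f : Fin n → X,
          J (W \ (range f ∪ (B ∪ (g ∪ closedBall y ρ'')))) r r' →
          J (W \ (range f ∪ (B ∪ (g ∪ closedBall y (min ρ ρ'))))) r r' := by
        intro ρ'' hle f hJ
        refine hJ.mono ?_
        apply sdiff_subset_sdiff_right
        apply union_subset_union_right
        apply union_subset_union_right
        apply union_subset_union_right
        exact closedBall_subset_closedBall hle
      refine ⟨min ρ ρ', lt_min hρ hρ', ?_⟩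
      rintro f (hf | hf)
      · exact key ρ (min_le_left _ _) f (h1 f hf)
      · exact key ρ' (min_le_right _ _) f (h2 f hf)
    · intro f hf
      have hJ : J (W \ (range f ∪ (B ∪ g))) r r' := by
        by_contra hcon
        exact h ⟨f, hf, hcon⟩
      have hOo : IsOpen (W \ (range f ∪ (B ∪ g))) :=
        isOpen_thickening.sdiff ((Set.finite_range f).isClosed.union (hB.union hg))
      obtain ⟨C, hC1, hC2, hC3, hrC, hr'C⟩ := exists_compact_connected hOo hJ
      have hyC : y ∈ Cᶜ := fun h => (hC1 h).2 (Or.inr (Or.inr hy))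
      obtain ⟨ρ, hρ, hρC⟩ := Metric.nhds_basis_closedBall.mem_iff.1
        (hC2.isClosed.isOpen_compl.mem_nhds hyC)
      have hU : {f' : Fin n → X | ∀ i, f' i ∈ Cᶜ} ∈ 𝓝 f := by
        have : {f' : Fin n → X | ∀ i, f' i ∈ Cᶜ} = Set.pi univ (fun _ => Cᶜ) := by
          ext f'; simp
        rw [this]
        apply set_pi_mem_nhds (Set.toFinite _)
        intro i _
        apply hC2.isClosed.isOpen_compl.mem_nhds
        exact fun h => (hC1 h).2 (Or.inl ⟨i, rfl⟩)
      refine ⟨_, mem_nhdsWithin_of_mem_nhds hU, ρ, hρ, ?_⟩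
      intro f' hf'
      refine ⟨C, ?_, hC3, hrC, hr'C⟩
      intro x hx
      refine ⟨(hC1 hx).1, ?_⟩
      rintro (⟨i, rfl⟩ | hxB | hxg | hxb)
      · exact hf' i hx
      · exact (hC1 hx).2 (Or.inr (Or.inl hxB))
      · exact (hC1 hx).2 (Or.inr (Or.inr hxg))
      · exact hρC hxb hx
  obtain ⟨ρ, hρ, hρ'⟩ := hmain
  refine ⟨ρ, hρ, ?_⟩
  rintro ⟨f, hf, hJ⟩
  exact hJ (hρ' f hf)

end Pool.Agent.H64
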