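import Pool.Agent.H64.Fusion

set_option autoImplicit false

namespace Pool.Agent.H64

open Set Metric Filter Topology

/-- a link: two end points and a supporting set -/
structure Lk (X : Type*) where
  r : X
  r' : X
  N : Set X

/-- the link has its end points in different sets `U`, `V` -/
def Lk.Crosses {X : Type*} (μ : Lk X) (U V : Set X) : Prop :=
  (μ.r ∈ U ∧ μ.r' ∈ V) ∨ (μ.r ∈ V ∧ μ.r' ∈ U)

variable {X : Type*} [MetricSpace X]

/-- `E` is connected modulo the links in `L` -/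
def ConnL (E : Set X) (L : Set (Lk X)) : Prop :=
  ∀ U V : Set X, IsOpen U → IsOpen V → Disjoint U V → E ⊆ U ∪ V →
    (∀ μ ∈ L, ¬ μ.Crosses U V) → E ⊆ U ∨ E ⊆ V

lemma ConnL.mono {E : Set X} {L L' : Set (Lk X)} (h : ConnL E L) (hL : L ⊆ L') : ConnL E L' :=
  fun U V hU hV hUV hE hc => h U V hU hV hUV hE (fun μ hμ => hc μ (hL hμ))

lemma ConnL.union {E E' : Set X} {L L' : Set (Lk X)} (h : ConnL E L) (h' : ConnL E' L') {x : X}
    (hx : x ∈ E) (hx' : x ∈ E') : ConnL (E ∪ E') (L ∪ L') := by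
  intro U V hU hV hUV hE hc
  have h1 := h U V hU hV hUV (subset_union_left.trans hE) (fun μ hμ => hc μ (Or.inl hμ))
  have h2 := h' U V hU hV hUV (subset_union_right.trans hE) (fun μ hμ => hc μ (Or.inr hμ))
  rcases h1 with h1 | h1 <;> rcases h2 with h2 | h2
  · exact Or.inl (union_subset h1 h2)
  · exact absurd (h2 hx') (Set.disjoint_left.1 hUV (h1 hx))
  · exact absurd (h1 hx) (Set.disjoint_left.1 hUV (h2 hx'))
  · exact Or.inr (union_subset h1 h2)

lemma ConnL.of_isPreconnected {E : Set X} (h : IsPreconnected E) (L : Set (Lk X)) :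
    ConnL E L := by
  intro U V hU hV hUV hE _
  apply isPreconnected_iff_subset_of_disjoint.1 h U V hU hV hE
  rw [hUV.inter_eq, inter_empty]

lemma ConnL.pair (u v : X) (M : Set X) : ConnL {u, v} {⟨u, v, M⟩} := by
  intro U V hU hV hUV hE hc
  have hc' := hc _ rfl
  unfold Lk.Crosses at hc'
  simp only at hc'
  push Not at hc'
  rcases hE (mem_insert u _) with hu | hu
  · left
    rcases hE (mem_insert_of_mem _ rfl : v ∈ ({u, v} : Set X)) with hv | hv
    · rintro x (rfl | rfl)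
      exacts [hu, hv]
    · exact absurd hv (hc'.1 hu)
  · right
    rcases hE (mem_insert_of_mem _ rfl : v ∈ ({u, v} : Set X)) with hv | hv
    · exact absurd hv (hc'.2 hu)
    · rintro x (rfl | rfl)
      exacts [hu, hv]

/-- a small minimal link with end points in `E` and support inside `O` -/
def GoodLk (O : Set X) (ε : ℝ) (E : Set X) (μ : Lk X) : Prop :=
  μ.r ≠ μ.r' ∧ μ.r ∈ E ∧ μ.r' ∈ E ∧ PrMin ∅ μ.N μ.r μ.r' ∧ μ.N ⊆ O ∧ Metric.diam μ.N < ε

lemma GoodLk.mono {O : Set X} {ε : ℝ} {E E' : Set X} {μ : Lk X} (h : GoodLk O ε E μ)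
    (hE : E ⊆ E') : GoodLk O ε E' μ :=
  ⟨h.1, hE h.2.1, hE h.2.2.1, h.2.2.2⟩

theorem exists_extension [CompactSpace X] [PreconnectedSpace X] [LocallyConnectedSpace X]
    (hS : Star X) {ι : Type*} [Finite ι] (Nf B : ι → Set X) (r r' : ι → X)
    (hB : ∀ i, IsClosed (B i)) (hne : ∀ i, r i ≠ r' i)
    (hmin : ∀ i, PrMin (B i) (Nf i) (r i) (r' i)) (hfin : ∀ i, (Nf i ∩ B i).Finite)
    {O : Set X} (hO : IsOpen O) (hOc : IsPreconnected O) (hrO : ∀ i, r i ∉ O)
    (hr'O : ∀ i, r' i ∉ O) {ε : ℝ} (hε : 0 < ε) {q q' : X} (hq : q ∈ O) (hq' : q' ∈ O) :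
    ∃ (E : Set X) (L : Set (Lk X)), IsClosed E ∧ E ⊆ O ∧ q ∈ E ∧ q' ∈ E ∧
      (∀ i, (Nf i ∩ E).Finite) ∧ (∀ i, Pr (B i ∪ E) (Nf i) (r i) (r' i)) ∧ L.Finite ∧
      (∀ μ ∈ L, GoodLk O ε E μ) ∧ ConnL E L := by
  set N := ⋃ i, Nf i with hNeq
  have hNf : ∀ i, IsClosed (Nf i) := fun i => (hmin i).1
  have hN : IsClosed N := isClosed_iUnion_of_finite hNf
  let OK : Set X → Prop := fun E0 => IsClosed E0 ∧ ∀ i, (Nf i ∩ E0).Finite ∧
    Pr (B i ∪ E0) (Nf i) (r i) (r' i)
  let R : X → X → Prop := fun w w' => w ∈ O ∧ w' ∈ O ∧ ∀ E0, OK E0 →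
    ∃ (E : Set X) (L : Set (Lk X)), OK (E0 ∪ E) ∧ IsClosed E ∧ E ⊆ O ∧ w ∈ E ∧ w' ∈ E ∧
      L.Finite ∧ (∀ μ ∈ L, GoodLk O ε E μ) ∧ ConnL E L
  have hRs : ∀ u v, R u v → R v u := by
    rintro u v ⟨hu, hv, h⟩
    refine ⟨hv, hu, fun E0 hE0 => ?_⟩
    obtain ⟨E, L, h1, h2, h3, h4, h5, h6⟩ := h E0 hE0
    exact ⟨E, L, h1, h2, h3, h5, h4, h6⟩
  have hRt : ∀ u v w, R u v → R v w → R u w := by
    rintro u v w ⟨hu, hv, h⟩ ⟨-, hw, h'⟩
    refine ⟨hu, hw, fun E0 hE0 => ?_⟩
    obtain ⟨E, L, h1, h2, h3, h4, h5, h6, h7, h8⟩ := h E0 hE0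
    obtain ⟨E', L', h1', h2', h3', h4', h5', h6', h7', h8'⟩ := h' _ h1
    refine ⟨E ∪ E', L ∪ L', by rwa [← union_assoc], h2.union h2', union_subset h3 h3', Or.inl h4,
      Or.inr h5', h6.union h6', ?_, h8.union h8' h5 h4'⟩
    rintro μ (hμ | hμ)
    · exact (h7 μ hμ).mono subset_union_left
    · exact (h7' μ hμ).mono subset_union_right
  -- closed connected sets disjoint from N can be added
  have hOKdisj : ∀ E0 K, OK E0 → IsClosed K → Disjoint K N → OK (E0 ∪ K) := by
    intro E0 K hE0 hK hKN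
    refine ⟨hE0.1.union hK, fun i => ⟨?_, ?_⟩⟩
    · apply (hE0.2 i).1.subset
      rintro x ⟨hx1, hx2 | hx2⟩
      · exact ⟨hx1, hx2⟩
      · exact absurd (mem_iUnion.2 ⟨i, hx1⟩) (Set.disjoint_left.1 hKN hx2)
    · rw [← union_assoc]
      apply (hE0.2 i).2.add_disjoint hK
      exact hKN.mono_right (subset_iUnion _ i)
  -- direct links
  have hdirect : ∀ (w : X) (ρ : ℝ), 0 ≤ ρ → closedBall w ρ ⊆ O → ρ < ε / 2 →
      ∀ u v, Pr ∅ (closedBall w ρ) u v → R u v := by
    intro w ρ hρ0 hwO hρε u v huv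
    have hu : u ∈ O := hwO (huv.left_mem isClosed_closedBall)
    have hv : v ∈ O := hwO (huv.right_mem isClosed_closedBall)
    refine ⟨hu, hv, fun E0 hE0 => ?_⟩
    have hOK : OK (E0 ∪ {u, v}) := by
      refine ⟨hE0.1.union (Set.toFinite _).isClosed, fun i => ⟨?_, ?_⟩⟩
      · apply ((hE0.2 i).1.union (Set.toFinite {u, v})).subset
        rintro x ⟨hx1, hx2 | hx2⟩
        · exact Or.inl ⟨hx1, hx2⟩
        · exact Or.inr hx2
      · rw [← union_assoc]
        apply (hE0.2 i).2.add_finite (Set.toFinite _)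
        · rintro (h | h)
          · exact hrO i (h ▸ hu)
          · exact hrO i ((mem_singleton_iff.1 h) ▸ hv)
        · rintro (h | h)
          · exact hr'O i (h ▸ hu)
          · exact hr'O i ((mem_singleton_iff.1 h) ▸ hv)
    have hsub : ({u, v} : Set X) ⊆ O := by
      rintro x (rfl | rfl)
      exacts [hu, hv]
    by_cases huv' : u = v
    · refine ⟨{u, v}, ∅, hOK, (Set.toFinite _).isClosed, hsub, mem_insert _ _,
        mem_insert_of_mem _ rfl, finite_empty, by simp, ?_⟩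
      apply ConnL.of_isPreconnected
      rw [huv', pair_eq_singleton]
      exact isPreconnected_singleton
    · obtain ⟨M, hM1, hM2⟩ := exists_PrMin isClosed_closedBall huv
      refine ⟨{u, v}, {⟨u, v, M⟩}, hOK, (Set.toFinite _).isClosed, hsub, mem_insert _ _,
        mem_insert_of_mem _ rfl, finite_singleton _, ?_, ConnL.pair u v M⟩
      rintro μ rfl
      refine ⟨huv', mem_insert _ _, mem_insert_of_mem _ rfl, hM2, hM1.trans hwO, ?_⟩
      calc Metric.diam M ≤ Metric.diam (closedBall w ρ) := diam_mono hM1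
        _ ≤ 2 * ρ := Metric.diam_closedBall hρ0
        _ < ε := by linarith
  -- local claim
  have hlocal : ∀ w ∈ O, ∀ᶠ w' in 𝓝[O] w, R w w' := by
    intro w hw
    obtain ⟨ρ0, hρ0, hρ0O⟩ := Metric.nhds_basis_closedBall.mem_iff.1 (hO.mem_nhds hw)
    obtain ⟨ρ1, hρ1, hρ1r⟩ : ∃ ρ1 > 0, ∀ i, ρ1 < dist (r i) (r' i) := by
      by_cases hι : Nonempty ι
      · obtain ⟨i0, hi0⟩ := Finite.exists_min (fun i => dist (r i) (r' i))
        have hpos : 0 < dist (r i0) (r' i0) := dist_pos.2 (hne i0)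
        exact ⟨dist (r i0) (r' i0) / 2, half_pos hpos, fun i => by
          have := hi0 i
          linarith⟩
      · exact ⟨1, one_pos, fun i => absurd ⟨i⟩ hι⟩
    set ρ := min (min ρ0 ρ1) (ε / 4) with hρdef
    have hρ : 0 < ρ := lt_min (lt_min hρ0 hρ1) (by positivity)
    have hρρ0 : ρ ≤ ρ0 := (min_le_left _ _).trans (min_le_left _ _)
    have hρρ1 : ρ ≤ ρ1 := (min_le_left _ _).trans (min_le_right _ _)
    have hρε : ρ < ε / 2 := (min_le_right _ _).trans_lt (by linarith)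
    have hball : closedBall w ρ ⊆ O := (closedBall_subset_closedBall hρρ0).trans hρ0O
    obtain ⟨s, hs, hsR⟩ := local_linking hS Nf B r r' hmin hρ
      (fun i => hρρ1.trans_lt (hρ1r i)) w R (hdirect w ρ hρ.le hball hρε) hRs hRt
    set s' := min s ρ with hs'
    have hs'pos : 0 < s' := lt_min hs hρ
    set Bw := connectedComponentIn (ball w s') w with hBw
    have hBwo : IsOpen Bw := isOpen_ball.connectedComponentIn
    have hwB : w ∈ Bw := mem_connectedComponentIn (mem_ball_self hs'pos)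
    have hBsub : Bw ⊆ ball w s' := connectedComponentIn_subset _ _
    have hBO : Bw ⊆ O := hBsub.trans ((ball_subset_ball (min_le_right _ _)).trans
      (ball_subset_closedBall.trans hball))
    have hBp : IsPreconnected Bw := isPreconnected_connectedComponentIn
    have hNR : ∀ m ∈ N, m ∈ Bw → R m w := by
      intro m hm hmB
      obtain ⟨i, hi⟩ := mem_iUnion.1 hm
      exact hsR i m hi ((mem_ball.1 (hBsub hmB)).trans_le (min_le_left _ _))
    filter_upwards [mem_nhdsWithin_of_mem_nhds (hBwo.mem_nhds hwB)] with w' hw'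
    by_cases hw'N : w' ∈ N
    · exact hRs _ _ (hNR w' hw'N hw')
    set Y := connectedComponentIn (Bw \ N) w' with hY
    have hBNo : IsOpen (Bw \ N) := hBwo.sdiff hN
    have hYo : IsOpen Y := hBNo.connectedComponentIn
    have hYp : IsPreconnected Y := isPreconnected_connectedComponentIn
    have hw'Y : w' ∈ Y := mem_connectedComponentIn ⟨hw', hw'N⟩
    have hYsub : Y ⊆ Bw \ N := connectedComponentIn_subset _ _
    refine ⟨hw, hBO hw', fun E0 hE0 => ?_⟩
    by_cases hwY : w ∈ Y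
    · obtain ⟨κ, k1, k2, k3, k4, k5⟩ := exists_compact_connected hYo
        (⟨Y, subset_rfl, hYp, hwY, hw'Y⟩ : J Y w w')
      have hκN : Disjoint κ N := by
        rw [Set.disjoint_left]
        exact fun x hx => (hYsub (k1 hx)).2
      exact ⟨κ, ∅, hOKdisj E0 κ hE0 k2.isClosed hκN, k2.isClosed,
        fun x hx => hBO (hYsub (k1 hx)).1, k4, k5, finite_empty, by simp,
        ConnL.of_isPreconnected k3 _⟩
    · obtain ⟨u, huB, hu1, hu2⟩ := exists_mem_frontier hBp hYo hw' hw'Y hwB hwY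
      have huN : u ∈ N := by
        by_contra huN
        exact hu2 (closure_comp_inter hBNo ⟨hu1, huB, huN⟩)
      have hdisj : Disjoint (Bw \ N) N := by
        rw [Set.disjoint_left]
        exact fun x hx => hx.2
      obtain ⟨Y2, hY2, hY2Y, hY2B⟩ := exists_sub_comp hS hN hdisj hY huN
        (mem_of_superset (hBwo.mem_nhds huB) (by
          intro x hx
          by_cases hxN : x ∈ N
          · exact Or.inr hxN
          · exact Or.inl ⟨hx, hxN⟩)) hu1 (hBwo.mem_nhds huB)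
      obtain ⟨g, y, g1, g2, g3, g4, g5, ⟨p, hp1, hp2⟩, g7⟩ := exists_good_end hS Nf
        (fun i => B i ∪ E0) r r' hNeq hNf (fun i => (hB i).union hE0.1) hne
        (fun i => (hE0.2 i).2) (by
          intro i
          apply ((hfin i).union (hE0.2 i).1).subset
          rintro x ⟨hx1, hx2 | hx2⟩
          · exact Or.inl ⟨hx1, hx2⟩
          · exact Or.inr ⟨hx1, hx2⟩) hY2
        (fun i h => hrO i (hBO (hY2B h))) (fun i h => hr'O i (hBO (hY2B h)))
      have hyB : y ∈ Bw := hY2B g3.1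
      have hgB : g ⊆ Bw := by
        intro x hx
        rcases g5 hx with h | h
        · exact h ▸ hyB
        · exact (hYsub (hY2Y h)).1
      obtain ⟨κ, k1, k2, k3, k4, k5⟩ := exists_compact_connected hYo
        (⟨Y, subset_rfl, hYp, hY2Y hp2, hw'Y⟩ : J Y p w')
      have hκN : Disjoint κ N := by
        rw [Set.disjoint_left]
        exact fun x hx => (hYsub (k1 hx)).2
      have hgN : g ∩ N ⊆ {y} := by
        rintro x ⟨hx, hxN⟩
        rcases g5 hx with h | h
        · exact h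
        · exact absurd hxN (Set.disjoint_left.1 hY2.disjoint h)
      have hOKg : OK (E0 ∪ g) := by
        refine ⟨hE0.1.union g1.isClosed, fun i => ⟨?_, ?_⟩⟩
        · apply ((hE0.2 i).1.union (finite_singleton y)).subset
          rintro x ⟨hx1, hx2 | hx2⟩
          · exact Or.inl ⟨hx1, hx2⟩
          · exact Or.inr (hgN ⟨hx2, mem_iUnion.2 ⟨i, hx1⟩⟩)
        · rw [← union_assoc]
          exact g7 i
      have hOKgκ : OK (E0 ∪ (g ∪ κ)) := by
        rw [← union_assoc]
        exact hOKdisj _ κ hOKg k2.isClosed hκN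
      obtain ⟨-, -, hR⟩ := hNR y g3.2 hyB
      obtain ⟨E, L, h1, h2, h3, h4, h5, h6, h7, h8⟩ := hR _ hOKgκ
      refine ⟨(g ∪ κ) ∪ E, L, by rwa [← union_assoc], (g1.isClosed.union k2.isClosed).union h2,
        union_subset (union_subset (hgB.trans hBO) ?_) h3, Or.inr h5, Or.inl (Or.inr k5), h6,
        fun μ hμ => (h7 μ hμ).mono subset_union_right, ?_⟩
      · exact fun x hx => hBO (hYsub (k1 hx)).1
      · have hc1 : ConnL (g ∪ κ) ∅ := ConnL.of_isPreconnected (g2.union p hp1 k4 k3) _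
        have hc2 := hc1.union h8 (Or.inl g4) h4
        rwa [empty_union] at hc2
  have hRq : R q q' := hOc.induction₂ R hlocal (fun x y z _ _ _ h1 h2 => hRt x y z h1 h2)
    (fun x y _ _ h => hRs x y h) hq hq'
  obtain ⟨-, -, hR⟩ := hRq
  have hOK0 : OK ∅ := by
    refine ⟨isClosed_empty, fun i => ⟨by simp, ?_⟩⟩
    rw [union_empty]
    exact (hmin i).2.1
  obtain ⟨E, L, h1, h2, h3, h4, h5, h6, h7, h8⟩ := hR ∅ hOK0
  rw [empty_union] at h1
  exact ⟨E, L, h2, h3, h4, h5, fun i => (h1.2 i).1, fun i => (h1.2 i).2, h6, h7, h8⟩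

end Pool.Agent.H64
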