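import Pool.Agent.H64.Cantor

set_option autoImplicit false

namespace Pool.Agent.H64

open Set Metric Filter Topology

/-- the final sets are preconnected -/
lemma isPreconnected_final {X : Type} [MetricSpace X] [CompactSpace X] {S : ℕ → St X}
    (hG : ∀ t, (S t).Good) (hle : ∀ t, (S t).Le (S (t + 1)))
    (hT : ∀ t j, j ≠ 0 → ∀ μ ∈ (S t).L j, TaskDone t j μ ((S t).oth j) (S (t + 1)))
    {j : ℕ} (hj : j ≠ 0) {B : Set X}
    (hB : ∀ K : Set X, IsClosed K → (∃ f : (ℕ → Bool) → X, Function.Injective f ∧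
      ∀ x, f x ∈ K) → (B ∩ K).Nonempty) {a : X} {t0 : ℕ} (ha : a ∈ (S t0).A j) :
    IsPreconnected ((⋃ t, (S t).A j) ∪
      ((B ∩ closure (⋃ t, (S t).A j)) \ ⋃ t, (S t).oth j)) := by
  set E := ⋃ t, (S t).A j with hE
  set Q := (B ∩ closure E) \ ⋃ t, (S t).oth j with hQ
  have hcl : E ∪ Q ⊆ closure E := union_subset subset_closure (fun x hx => hx.1.2)
  intro u v hu hv hsub hne1 hne2
  by_contra hcon
  rw [not_nonempty_iff_eq_empty] at hcon
  have hcon' : ∀ x, x ∈ E ∪ Q → x ∈ u → x ∈ v → False := by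
    intro x h1 h2 h3
    have : x ∈ (E ∪ Q) ∩ (u ∩ v) := ⟨h1, h2, h3⟩
    rw [hcon] at this
    exact this
  have hsep : SeparatedNhds ((E ∪ Q) ∩ u) ((E ∪ Q) ∩ v) := by
    rw [separatedNhds_iff_disjoint]
    apply CompletelyNormalSpace.completely_normal
    · rw [Set.disjoint_left]
      rintro x hx1 ⟨-, hx2⟩
      obtain ⟨y, hy1, hy2, hy3⟩ := _root_.mem_closure_iff.1 hx1 v hv hx2
      exact hcon' y hy2 hy3 hy1
    · rw [Set.disjoint_left]
      rintro x ⟨-, hx1⟩ hx2
      obtain ⟨y, hy1, hy2, hy3⟩ := _root_.mem_closure_iff.1 hx2 u hu hx1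
      exact hcon' y hy2 hy1 hy3
  obtain ⟨U, V, hU, hV, hPU, hQV, hUV⟩ := hsep
  have hUVsub : E ∪ Q ⊆ U ∪ V := by
    intro x hx
    rcases hsub hx with h | h
    · exact Or.inl (hPU ⟨hx, h⟩)
    · exact Or.inr (hQV ⟨hx, h⟩)
  have hAsub : ∀ t, (S t).A j ⊆ U ∪ V := fun t x hx =>
    hUVsub (Or.inl (mem_iUnion.2 ⟨t, hx⟩))
  by_cases hcr : ∃ t, ∃ μ ∈ (S t).L j, μ.Crosses U V
  · obtain ⟨t, μ, hμ, hcr⟩ := hcr
    obtain ⟨K, hK, hf, hK1, hK2, hK3⟩ := exists_cantor hG hle hT hj hμ hU hV hUV hAsub hcr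
    obtain ⟨b, hb1, hb2⟩ := hB K hK hf
    apply hK1 b hb2
    apply hUVsub
    right
    refine ⟨⟨hb1, hK3 b hb2⟩, ?_⟩
    intro h
    obtain ⟨t, ht⟩ := mem_iUnion.1 h
    exact hK2 b hb2 t ht
  · push Not at hcr
    have hside : ∀ (P P' : Set X), Disjoint P P' → IsOpen P' →
        (∀ t, (S t).A j ⊆ P ∨ (S t).A j ⊆ P') → a ∈ P → ¬ ((E ∪ Q) ∩ P').Nonempty := by
      rintro P P' hPP' hP'o hcase haP ⟨q, hq1, hq2⟩
      have hall : ∀ t, (S t).A j ⊆ P := by
        intro t
        rcases le_total t0 t with h | h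
        · rcases hcase t with h' | h'
          · exact h'
          · exact absurd (h' ((Le_of_le hle h j).1 ha)) (Set.disjoint_left.1 hPP' haP)
        · rcases hcase t0 with h' | h'
          · exact (Le_of_le hle h j).1.trans h'
          · exact absurd (h' ha) (Set.disjoint_left.1 hPP' haP)
      obtain ⟨y, hy1, hy2⟩ := _root_.mem_closure_iff.1 (hcl hq1) P' hP'o hq2
      obtain ⟨t, ht⟩ := mem_iUnion.1 hy2
      exact Set.disjoint_left.1 hPP' (hall t ht) hy1
    have hcase : ∀ t, (S t).A j ⊆ U ∨ (S t).A j ⊆ V := fun t =>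
      (hG t).conn j U V hU hV hUV (hAsub t) (fun μ hμ => hcr t μ hμ)
    have hU' : ((E ∪ Q) ∩ U).Nonempty := by
      obtain ⟨x, hx1, hx2⟩ := hne1
      exact ⟨x, hx1, hPU ⟨hx1, hx2⟩⟩
    have hV' : ((E ∪ Q) ∩ V).Nonempty := by
      obtain ⟨x, hx1, hx2⟩ := hne2
      exact ⟨x, hx1, hQV ⟨hx1, hx2⟩⟩
    rcases hAsub t0 ha with h | h
    · exact hside U V hUV hV hcase h hV'
    · exact hside V U hUV.symm hU (fun t => (hcase t).symm) h hU'

/-- no persistent pair in a space satisfying the disjoint connected sets condition -/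
theorem no_persistent_pair {X : Type} [MetricSpace X] [CompactSpace X] [PreconnectedSpace X]
    (hS : Star X) {x z : X} (hxz : x ≠ z) : ¬ Pr ∅ univ x z := by
  intro hPr
  have hlc : LocallyConnectedSpace X := hS.locallyConnected
  have hd : 0 < dist x z := dist_pos.2 hxz
  obtain ⟨S, hG, hle, hT, hends⟩ := exists_sequence hS hxz hPr (show 0 < dist x z / 3 by positivity)
  obtain ⟨B, hB1, hB2⟩ := exists_bernstein X
  let C : ℕ → Set X := fun j => (⋃ t, (S t).A j) ∪
    ((B j ∩ closure (⋃ t, (S t).A j)) \ ⋃ t, (S t).oth j)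
  have hAdisj : ∀ i j, i ≠ j → ∀ y, y ∈ (⋃ t, (S t).A i) → y ∈ (⋃ t, (S t).A j) → False := by
    intro i j hij y hy1 hy2
    obtain ⟨s, hs⟩ := mem_iUnion.1 hy1
    obtain ⟨t, ht⟩ := mem_iUnion.1 hy2
    exact Set.disjoint_left.1 ((hG (max s t)).disj i j hij)
      ((Le_of_le hle (le_max_left s t) i).1 hs) ((Le_of_le hle (le_max_right s t) j).1 ht)
  have hoth : ∀ i j, i ≠ j → ∀ y, y ∈ (⋃ t, (S t).A i) → y ∈ (⋃ t, (S t).oth j) := by
    intro i j hij y hy
    obtain ⟨s, hs⟩ := mem_iUnion.1 hy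
    exact mem_iUnion.2 ⟨s, St.mem_oth.2 ⟨i, hij, hs⟩⟩
  have hCdisj : ∀ i j, i ≠ j → Disjoint (C i) (C j) := by
    intro i j hij
    rw [Set.disjoint_left]
    rintro y (hy | hy) (hy' | hy')
    · exact hAdisj i j hij y hy hy'
    · exact hy'.2 (hoth i j hij y hy)
    · exact hy.2 (hoth j i hij.symm y hy')
    · exact Set.disjoint_left.1 (hB1 i j hij) hy.1.1 hy'.1.1
  apply hS (dist x z / 3) (by positivity)
  refine ⟨fun n => C (n + 1), ?_, ?_, ?_⟩
  · intro n
    obtain ⟨a, b, ha, -⟩ := hends (n + 1) (Nat.succ_ne_zero n)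
    exact isPreconnected_final hG hle hT (Nat.succ_ne_zero n) (hB2 (n + 1)) ha
  · intro i j hij
    exact hCdisj _ _ (fun h => hij (by omega))
  · intro n
    obtain ⟨a, b, ha, hb, hax, hbz⟩ := hends (n + 1) (Nat.succ_ne_zero n)
    have haC : a ∈ C (n + 1) := Or.inl (mem_iUnion.2 ⟨n + 1, ha⟩)
    have hbC : b ∈ C (n + 1) := Or.inl (mem_iUnion.2 ⟨n + 1, hb⟩)
    have h1 := dist_le_diam haC hbC
    have h2 := dist_triangle4 x a b z
    rw [dist_comm x a] at h2
    simp only
    linarith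

/-- the hard direction -/
theorem regular_of_star {X : Type} [MetricSpace X] [CompactSpace X] [PreconnectedSpace X]
    (hS : Star X) (x : X) (U : Set X) (hU : IsOpen U) (hx : x ∈ U) :
    ∃ V : Set X, IsOpen V ∧ x ∈ V ∧ V ⊆ U ∧ (frontier V).Finite := by
  have hlc : LocallyConnectedSpace X := hS.locallyConnected
  obtain ⟨V, h1, h2, -, h4, h5⟩ := exists_small_open (Z := univ) (K := Uᶜ) isOpen_univ
    hU.isClosed_compl.isCompact (by rw [closure_univ]; exact subset_univ _) (mem_univ x) (by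
      intro p hp
      rw [closure_univ]
      exact no_persistent_pair hS (fun h => hp (h ▸ hx)))
  refine ⟨V, h1, h2, ?_, ?_⟩
  · intro y hy
    by_contra hyU
    exact Set.disjoint_left.1 h4 (subset_closure hy) hyU
  · rwa [inter_univ] at h5

/-- the easy direction -/
theorem star_of_regular {X : Type} [MetricSpace X] [CompactSpace X] [Nonempty X]
    (h : ∀ x : X, ∀ U : Set X, IsOpen U → x ∈ U →
      ∃ V : Set X, IsOpen V ∧ x ∈ V ∧ V ⊆ U ∧ (frontier V).Finite) {ε : ℝ} (hε : 0 < ε)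
    {A : ℕ → Set X} (hA : ∀ n, IsPreconnected (A n))
    (hd : Pairwise (fun i j => Disjoint (A i) (A j))) : {n | ε ≤ Metric.diam (A n)}.Finite := by
  obtain ⟨F, hF, hFcov⟩ : ∃ F : Set X, F.Finite ∧ ∀ C : Set X, IsPreconnected C →
      ε ≤ Metric.diam C → (C ∩ univ).Nonempty → (C ∩ F).Nonempty := by
    refine (isCompact_univ : IsCompact (univ : Set X)).induction_on (p := fun S => ∃ F : Set X,
      F.Finite ∧ ∀ C : Set X, IsPreconnected C → ε ≤ Metric.diam C → (C ∩ S).Nonempty →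
        (C ∩ F).Nonempty) ?_ ?_ ?_ ?_
    · exact ⟨∅, finite_empty, fun C _ _ hne => by simp at hne⟩
    · rintro s t hst ⟨F, hF, h⟩
      exact ⟨F, hF, fun C h1 h2 h3 => h C h1 h2 (h3.mono (inter_subset_inter_right _ hst))⟩
    · rintro s t ⟨F, hF, h⟩ ⟨F', hF', h'⟩
      refine ⟨F ∪ F', hF.union hF', fun C h1 h2 h3 => ?_⟩
      obtain ⟨x, hx1, hx2 | hx2⟩ := h3
      · exact (h C h1 h2 ⟨x, hx1, hx2⟩).mono (inter_subset_inter_right _ subset_union_left)
      · exact (h' C h1 h2 ⟨x, hx1, hx2⟩).mono (inter_subset_inter_right _ subset_union_right)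
    · intro x _
      obtain ⟨V, hV, hxV, hVs, hVf⟩ := h x (ball x (ε / 4)) isOpen_ball
        (mem_ball_self (by positivity))
      refine ⟨V, mem_nhdsWithin_of_mem_nhds (hV.mem_nhds hxV), frontier V, hVf, ?_⟩
      rintro C hC hCd ⟨y, hyC, hyV⟩
      have hnot : ¬ C ⊆ V := by
        intro hCV
        have h1 : Metric.diam C ≤ ε / 2 := by
          calc Metric.diam C ≤ Metric.diam (ball x (ε / 4)) := diam_mono (hCV.trans hVs)
            _ ≤ 2 * (ε / 4) := Metric.diam_ball (by positivity)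
            _ = ε / 2 := by ring
        linarith
      rw [not_subset] at hnot
      obtain ⟨w, hwC, hwV⟩ := hnot
      obtain ⟨c, hc1, hc2, hc3⟩ := exists_mem_frontier hC hV hyC hyV hwC hwV
      exact ⟨c, hc1, by rw [hV.frontier_eq]; exact ⟨hc2, hc3⟩⟩
  have hne : ∀ n ∈ {n | ε ≤ Metric.diam (A n)}, (A n ∩ F).Nonempty := by
    intro n hn
    apply hFcov (A n) (hA n) hn
    by_contra hempty
    rw [inter_univ, not_nonempty_iff_eq_empty] at hempty
    have : ε ≤ Metric.diam (A n) := hn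
    rw [hempty, Metric.diam_empty] at this
    linarith
  choose! f hf using hne
  apply Set.Finite.of_finite_image (f := f) (hF.subset ?_) ?_
  · rintro _ ⟨n, hn, rfl⟩
    exact (hf n hn).2
  · intro n hn m hm hnm
    by_contra hne
    have h1 := (hf n hn).1
    have h2 := (hf m hm).1
    rw [← hnm] at h2
    exact Set.disjoint_left.1 (hd hne) h1 h2

theorem main_theorem (X : Type) [MetricSpace X] [CompactSpace X] [ConnectedSpace X] :
    ((∀ x : X, ∀ U : Set X, IsOpen U → x ∈ U →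
        ∃ V : Set X, IsOpen V ∧ x ∈ V ∧ V ⊆ U ∧ (frontier V).Finite) ↔
      (∀ A : ℕ → Set X, (∀ n, IsConnected (A n)) →
        Pairwise (fun i j => Disjoint (A i) (A j)) →
        Filter.Tendsto (fun n => Metric.diam (A n)) Filter.atTop (nhds 0))) := by
  constructor
  · intro h A hA hd
    rw [Metric.tendsto_nhds]
    intro ε hε
    have hfin := star_of_regular h hε (fun n => (hA n).isPreconnected) hd
    rw [← Nat.cofinite_eq_atTop]
    refine (hfin.subset ?_ : {n | ¬ dist (Metric.diam (A n)) 0 < ε}.Finite)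
    intro n hn
    have hn' : ¬ dist (Metric.diam (A n)) 0 < ε := hn
    rw [Real.dist_eq, sub_zero, abs_of_nonneg Metric.diam_nonneg, not_lt] at hn'
    exact hn'
  · intro h
    have hS : Star X := by
      rintro ε hε ⟨A, h1, h2, h3⟩
      have hne : ∀ n, (A n).Nonempty := by
        intro n
        by_contra hempty
        rw [not_nonempty_iff_eq_empty] at hempty
        have := h3 n
        rw [hempty, Metric.diam_empty] at this
        linarith
      have ht := h A (fun n => ⟨hne n, h1 n⟩) h2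
      rw [Metric.tendsto_nhds] at ht
      obtain ⟨n, hn⟩ := (ht ε hε).exists
      rw [Real.dist_eq, sub_zero, abs_of_nonneg Metric.diam_nonneg] at hn
      exact absurd (h3 n) (not_le.2 hn)
    exact regular_of_star hS

end Pool.Agent.H64
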