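import Pool.Agent.H64.GoodEnd

set_option autoImplicit false

namespace Pool.Agent.H64

open Set Metric Filter Topology

variable {X : Type*} [MetricSpace X]

/-- one step of the fusion construction -/
lemma fusion_step [CompactSpace X] [LocallyConnectedSpace X] (hS : Star X)
    {N Nl B : Set X} (hN : IsClosed N) (hNl : IsClosed Nl) (hNlN : Nl ⊆ N) (hB : IsClosed B)
    {r r' : X} (hPr : Pr B Nl r r') {Y : Set X} (hY : EndC N Y) (hrY : r ∉ closure Y)
    (hr'Y : r' ∉ closure Y) (hΦ : ∀ x ∈ closure Y, x ∈ Nl → x ∉ B) {gs : Set X}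
    (hgs : IsCompact gs) (hgsc : IsPreconnected gs) (hgsN : Disjoint gs N)
    (hmeet : (gs ∩ Y).Nonempty) (n : ℕ) {ε : ℝ} (hε : 0 < ε) :
    ∃ g' Y' y, IsCompact g' ∧ IsPreconnected g' ∧ Disjoint g' N ∧ EndC N Y' ∧ Y' ⊆ Y ∧
      (g' ∩ Y').Nonempty ∧ gs ⊆ g' ∧ g' ⊆ gs ∪ Y ∧ closure Y' ⊆ closedBall y ε ∧
      ¬ Blk n B Nl r r' (g' ∪ closure Y') := by
  obtain ⟨g, y, hadm, hy, hblk⟩ := exists_adm_not_Blk hS hN hNl hNlN hB hPr hY hrY hr'Y hΦ hgs
    hgsc hgsN hmeet n
  obtain ⟨hg, hgc, hgsg, hgsub, hyg⟩ := hadm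
  have hYN := hY.disjoint
  obtain ⟨ρ, hρ, hblk'⟩ := exists_not_Blk hB hg.isClosed hyg hblk
  have hygs : y ∉ gs := fun h => Set.disjoint_left.1 hgsN h hy.2
  obtain ⟨ρ0, hρ0, hρ0s⟩ := Metric.isOpen_iff.1 hgs.isClosed.isOpen_compl y hygs
  set ρ1 := min (min ρ ε) ρ0 with hρ1
  have hρ1pos : 0 < ρ1 := lt_min (lt_min hρ hε) hρ0
  have hρ1ρ : ρ1 ≤ ρ := (min_le_left _ _).trans (min_le_left _ _)
  have hρ1ε : ρ1 ≤ ε := (min_le_left _ _).trans (min_le_right _ _)
  have hρ1ρ0 : ρ1 ≤ ρ0 := min_le_right _ _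
  obtain ⟨δY, hδY, xY, hxY, hYeq, -⟩ := id hY
  obtain ⟨δc, hδc, hδcC⟩ := hS.small_comps hN (show 0 < ρ1 / 4 by positivity)
  set δ' := min δY δc with hδ'
  have hδ'pos : 0 < δ' := lt_min hδY hδc
  have hb : 0 < min (ρ1 / 4) δ' := lt_min (by positivity) hδ'pos
  set Bn := connectedComponentIn (ball y (min (ρ1 / 4) δ')) y with hBn
  have hBno : IsOpen Bn := isOpen_ball.connectedComponentIn
  have hyB : y ∈ Bn := mem_connectedComponentIn (mem_ball_self hb)
  have hBsub : Bn ⊆ ball y (min (ρ1 / 4) δ') := connectedComponentIn_subset _ _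
  obtain ⟨ρ2, hρ2, hρ2B⟩ := Metric.nhds_basis_closedBall.mem_iff.1 (hBno.mem_nhds hyB)
  have hρ2lt : ball y ρ2 ⊆ Bn := ball_subset_closedBall.trans hρ2B
  obtain ⟨x, hxgs, hxY'⟩ := hmeet
  have hgsO : gs ⊆ g \ ball y ρ2 := by
    intro z hz
    refine ⟨hgsg hz, fun hzb => ?_⟩
    have h1 := hBsub (hρ2lt hzb)
    have h2 : dist z y < ρ0 := by
      have := (mem_ball.1 h1).trans_le (min_le_left _ _)
      linarith
    exact hρ0s h2 hz
  obtain ⟨u, huC, hucl⟩ := boundary_bump hg hgc (isOpen_ball : IsOpen (ball y ρ2))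
    ⟨y, hyg, mem_ball_self hρ2⟩ (hgsO hxgs)
  set g' := connectedComponentIn (g \ ball y ρ2) x with hg'
  have hg'sub : g' ⊆ g \ ball y ρ2 := connectedComponentIn_subset _ _
  have hg'cl : IsClosed g' := isClosed_comp (hg.isClosed.sdiff isOpen_ball)
  have hg'gs : g' ⊆ gs ∪ Y := by
    intro z hz
    rcases hgsub (hg'sub hz).1 with h | h | h
    · exact Or.inl h
    · exact absurd (h ▸ mem_ball_self hρ2) (hg'sub hz).2
    · exact Or.inr h
  have hg'N : Disjoint g' N := by
    rw [Set.disjoint_left]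
    intro z hz hzN
    rcases hg'gs hz with h | h
    · exact Set.disjoint_left.1 hgsN h hzN
    · exact Set.disjoint_left.1 hYN h hzN
  have huB : u ∈ Bn := hρ2B (closure_ball_subset_closedBall hucl)
  have hud : dist u y < min (ρ1 / 4) δ' := hBsub huB
  have huN : u ∉ N := Set.disjoint_left.1 hg'N huC
  have huR : u ∈ Rg N δ' := ⟨mem_thickening_iff.2 ⟨y, hy.2, hud.trans_le (min_le_right _ _)⟩, huN⟩
  have hugs : u ∉ gs := by
    intro h
    have h2 : dist u y < ρ0 := by
      have := hud.trans_le (min_le_left _ _)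
      linarith
    exact hρ0s h2 h
  have huY : u ∈ Y := by
    rcases hg'gs huC with h | h
    · exact absurd h hugs
    · exact h
  set Y' := connectedComponentIn (Rg N δ') u with hY'
  have hY'o : IsOpen Y' := (isOpen_Rg hN δ').connectedComponentIn
  have huY' : u ∈ Y' := mem_connectedComponentIn huR
  have hY'Y : Y' ⊆ Y := by
    rw [hYeq, connectedComponentIn_eq (hYeq ▸ huY)]
    exact isPreconnected_connectedComponentIn.subset_connectedComponentIn huY'
      ((connectedComponentIn_subset _ _).trans (Rg_mono (min_le_left _ _)))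
  have hyY' : y ∉ Y' := fun h => (connectedComponentIn_subset _ _ h).2 hy.2
  obtain ⟨v, hv1, hv2, hv3⟩ := exists_mem_frontier
    (isPreconnected_connectedComponentIn : IsPreconnected Bn) hY'o huB huY' hyB hyY'
  have hvN : v ∈ N := mem_of_boundary hN hv2 hv3
    (mem_thickening_iff.2 ⟨y, hy.2, (mem_ball.1 (hBsub hv1)).trans_le (min_le_right _ _)⟩)
  have hcl : closure Y' ⊆ closedBall y ρ1 := by
    intro z hz
    rw [mem_closedBall]
    have h1 : dist z u ≤ Metric.diam (closure Y') := dist_le_diam hz (subset_closure huY')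
    rw [Metric.diam_closure] at h1
    have h2 : Metric.diam Y' ≤ ρ1 / 4 := hδcC _ isPreconnected_connectedComponentIn
      ((connectedComponentIn_subset _ _).trans (Rg_mono (min_le_right _ _)))
    have h3 := dist_triangle z u y
    have h4 := hud.trans_le (min_le_left _ _)
    linarith
  refine ⟨g', Y', y, hg'cl.isCompact, isPreconnected_connectedComponentIn, hg'N,
    ⟨δ', hδ'pos, u, huR, rfl, v, hv2, hvN⟩, hY'Y, ⟨u, huC, huY'⟩,
    hgsc.subset_connectedComponentIn hxgs hgsO, hg'gs,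
    hcl.trans (closedBall_subset_closedBall hρ1ε), ?_⟩
  intro hB'
  apply hblk'
  apply hB'.mono
  apply union_subset_union
  · exact hg'sub.trans sdiff_subset
  · exact hcl.trans (closedBall_subset_closedBall hρ1ρ)

/-- good ends exist. -/
theorem exists_good_end [CompactSpace X] [PreconnectedSpace X] [LocallyConnectedSpace X]
    (hS : Star X) {ι : Type*} [Finite ι] (Nf B : ι → Set X) (r r' : ι → X) {N : Set X}
    (hNeq : N = ⋃ i, Nf i) (hNf : ∀ i, IsClosed (Nf i)) (hB : ∀ i, IsClosed (B i))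
    (hne : ∀ i, r i ≠ r' i) (hPr : ∀ i, Pr (B i) (Nf i) (r i) (r' i))
    (hfin : ∀ i, (Nf i ∩ B i).Finite) {Y : Set X} (hY : EndC N Y)
    (hrY : ∀ i, r i ∉ closure Y) (hr'Y : ∀ i, r' i ∉ closure Y) :
    ∃ g y, IsCompact g ∧ IsPreconnected g ∧ y ∈ closure Y ∩ N ∧ y ∈ g ∧ g ⊆ insert y Y ∧
      (g ∩ Y).Nonempty ∧ ∀ i, Pr (B i ∪ g) (Nf i) (r i) (r' i) := by
  have hN : IsClosed N := by rw [hNeq]; exact isClosed_iUnion_of_finite hNf
  have hNfN : ∀ i, Nf i ⊆ N := fun i => by rw [hNeq]; exact subset_iUnion _ i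
  have hYo := hY.isOpen hN
  have hYp := hY.isPreconnected
  have hYN := hY.disjoint
  by_cases hiso : ∃ y ∈ closure Y ∩ N, ∃ η > 0, ∀ z ∈ closure Y ∩ N, dist z y < η → z = y
  · -- isolated point
    obtain ⟨y, hy, η, hη, hiso⟩ := hiso
    obtain ⟨v, hv⟩ := hY.nonempty
    obtain ⟨g, g1, g2, g3, g4, g5, η', hη', g6⟩ := hS.exists_arc hYo hYp hYo hYp subset_rfl
      (isCompact_singleton : IsCompact {v}) isPreconnected_singleton ⟨v, rfl, hv⟩ hy.1
      (fun h => Set.disjoint_left.1 hYN h hy.2)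
      (fun h => Set.disjoint_left.1 hYN (show y ∈ Y by rw [mem_singleton_iff.1 h]; exact hv) hy.2)
    have hvg : v ∈ g := g3 rfl
    have hgY : g ⊆ insert y Y := by
      intro x hx
      rcases g4 hx with h | h
      · exact Or.inr (by rw [mem_singleton_iff.1 h]; exact hv)
      · exact h
    have hgN : g ∩ N ⊆ {y} := by
      rintro x ⟨hx, hxN⟩
      rcases hgY hx with h | h
      · exact h
      · exact absurd hxN (Set.disjoint_left.1 hYN h)
    refine ⟨g, y, g1, g2, hy, g5, hgY, ⟨v, hvg, hv⟩, ?_⟩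
    intro i
    by_contra hcon
    unfold Pr at hcon
    push Not at hcon
    obtain ⟨W, hW, hNW, F, hF, hrF, hr'F, hJ⟩ := hcon
    have hyr : y ≠ r i := by
      rintro rfl; exact hrY i hy.1
    have hyr' : y ≠ r' i := by
      rintro rfl; exact hr'Y i hy.1
    obtain ⟨Y', hY', hY'Y, y2, hy2, hy2O, -, hy2d⟩ := two_sided hS hN (hNf i) (hNfN i) (hB i)
      (hPr i) hY g1 hgN g5 hyr hyr' hη' g6 hW hNW hF hrF hr'F hJ hη
    have : y2 = y := hiso y2 ⟨closure_mono hY'Y hy2.1, hy2.2⟩ hy2d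
    rw [this] at hy2O
    exact hy2O.2 (Or.inr (Or.inr g5))
  · push Not at hiso
    set Φ := ⋃ i, (Nf i ∩ B i) with hΦ
    have hΦfin : Φ.Finite := Set.finite_iUnion hfin
    obtain ⟨y1, hy1, hy1Φ⟩ : ∃ y1 ∈ closure Y ∩ N, y1 ∉ Φ := by
      by_contra hcon
      push Not at hcon
      have hTfin : (closure Y ∩ N).Finite := hΦfin.subset hcon
      obtain ⟨y, hy⟩ := hY.nonempty'
      have hcl : IsClosed ((closure Y ∩ N) \ {y}) := (hTfin.subset sdiff_subset).isClosed
      have hyn : y ∈ ((closure Y ∩ N) \ {y})ᶜ := fun h => h.2 rfl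
      obtain ⟨η, hη, hηs⟩ := Metric.isOpen_iff.1 hcl.isOpen_compl y hyn
      obtain ⟨z, hz1, hz2, hz3⟩ := hiso y hy η hη
      exact hηs hz2 ⟨hz1, hz3⟩
    obtain ⟨Y0, hY0, hY0Y, hY0Φ⟩ := hY.exists_sub hS hN hy1
      (hΦfin.isClosed.isOpen_compl.mem_nhds hy1Φ)
    have hι : Nonempty ι := by
      obtain ⟨y, hy⟩ := hY.nonempty'
      have := hy.2
      rw [hNeq] at this
      obtain ⟨i, -⟩ := mem_iUnion.1 this
      exact ⟨i⟩
    obtain ⟨τ, hτ⟩ := exists_surjective_nat (ℕ × ι)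
    let T := {p : Set X × Set X // IsCompact p.1 ∧ IsPreconnected p.1 ∧ Disjoint p.1 N ∧
      EndC N p.2 ∧ p.2 ⊆ Y0 ∧ (p.1 ∩ p.2).Nonempty}
    have hstep : ∀ (k : ℕ) (s : T), ∃ s' : T, s.1.1 ⊆ s'.1.1 ∧ s'.1.1 ⊆ s.1.1 ∪ s.1.2 ∧
        s'.1.2 ⊆ s.1.2 ∧ (∃ y, closure s'.1.2 ⊆ closedBall y (1 / ((k : ℝ) + 1))) ∧
        ¬ Blk (τ k).1 (B (τ k).2) (Nf (τ k).2) (r (τ k).2) (r' (τ k).2)
          (s'.1.1 ∪ closure s'.1.2) := by
      rintro k ⟨⟨gs, Ys⟩, h1, h2, h3, h4, h5, h6⟩
      simp only at h1 h2 h3 h4 h5 h6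
      have hsubY : closure Ys ⊆ closure Y := closure_mono (h5.trans hY0Y)
      obtain ⟨g', Y', y, k1, k2, k3, k4, k5, k6, k7, k8, k9, k10⟩ := fusion_step hS hN
        (hNf (τ k).2) (hNfN (τ k).2) (hB (τ k).2) (hPr (τ k).2) h4
        (fun h => hrY _ (hsubY h)) (fun h => hr'Y _ (hsubY h)) (by
          intro x hx hx1 hx2
          exact hY0Φ (closure_mono h5 hx) (mem_iUnion.2 ⟨_, hx1, hx2⟩)) h1 h2 h3 h6 (τ k).1
        (show (0:ℝ) < 1 / ((k : ℝ) + 1) by positivity)
      exact ⟨⟨⟨g', Y'⟩, k1, k2, k3, k4, k5.trans h5, k6⟩, k7, k8, k5, ⟨y, k9⟩, k10⟩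
    choose f hf1 hf2 hf3 hf4 hf5 using hstep
    obtain ⟨v, hv⟩ := hY0.nonempty
    let s : ℕ → T := fun k => Nat.rec ⟨⟨{v}, Y0⟩, isCompact_singleton, isPreconnected_singleton,
      Set.disjoint_singleton_left.2 (Set.disjoint_left.1 hY0.disjoint hv), hY0, subset_rfl,
      ⟨v, rfl, hv⟩⟩ (fun k p => f k p) k
    have hs0 : (s 0).1 = ⟨{v}, Y0⟩ := rfl
    have hss : ∀ k, s (k + 1) = f k (s k) := fun k => rfl
    have hgmono : Monotone (fun k => (s k).1.1) := monotone_nat_of_le_succ (fun k => by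
      rw [hss]; exact hf1 k (s k))
    have hYanti : Antitone (fun k => (s k).1.2) := antitone_nat_of_succ_le (fun k => by
      rw [hss]; exact hf3 k (s k))
    have hgsub : ∀ k j, k ≤ j → (s j).1.1 ⊆ (s k).1.1 ∪ (s k).1.2 := by
      intro k j hkj
      induction j, hkj using Nat.le_induction with
      | base => exact subset_union_left
      | succ j hkj ih =>
        rw [hss]
        refine (hf2 j (s j)).trans (union_subset ih ?_)
        exact (hYanti hkj).trans subset_union_right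
    have hne : (⋂ k, closure (s k).1.2).Nonempty := by
      apply IsCompact.nonempty_iInter_of_sequence_nonempty_isCompact_isClosed
      · exact fun k => closure_mono (hYanti (Nat.le_succ k))
      · intro k
        obtain ⟨p, -, hp⟩ := (s k).2.2.2.2.2.2
        exact ⟨p, subset_closure hp⟩
      · exact isClosed_closure.isCompact
      · exact fun k => isClosed_closure
    obtain ⟨y, hy⟩ := hne
    rw [mem_iInter] at hy
    have hclose : ∀ ε > 0, ∃ k, ∀ x ∈ closure (s k).1.2, dist x y < ε := by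
      intro ε hε
      obtain ⟨k, hk⟩ := exists_nat_one_div_lt (half_pos hε)
      refine ⟨k + 1, fun x hx => ?_⟩
      obtain ⟨c, hc⟩ := hf4 k (s k)
      rw [← hss] at hc
      have h1 : dist x c ≤ 1 / ((k : ℝ) + 1) := hc hx
      have h2 : dist y c ≤ 1 / ((k : ℝ) + 1) := hc (hy (k + 1))
      have h3 := dist_triangle_right x y c
      linarith
    have hyN : y ∈ N := by
      rw [← hN.closure_eq, Metric.mem_closure_iff]
      intro ε hε
      obtain ⟨k, hk⟩ := hclose ε hε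
      obtain ⟨t, ht1, ht2⟩ := (s k).2.2.2.2.1.nonempty'
      exact ⟨t, ht2, by rw [dist_comm]; exact hk t ht1⟩
    have hgpre : IsPreconnected (⋃ k, (s k).1.1) := by
      apply isPreconnected_iUnion
      · refine ⟨v, mem_iInter.2 (fun k => ?_)⟩
        apply hgmono (Nat.zero_le k)
        show v ∈ (s 0).1.1
        rw [hs0]
        exact rfl
      · exact fun k => (s k).2.2.1
    set g := closure (⋃ k, (s k).1.1) with hg
    have hgG : ∀ k, g ⊆ (s k).1.1 ∪ closure (s k).1.2 := by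
      intro k
      apply closure_minimal
      · apply iUnion_subset
        intro j
        rcases le_total k j with h | h
        · exact (hgsub k j h).trans (union_subset_union_right _ subset_closure)
        · exact (hgmono h).trans subset_union_left
      · exact (s k).2.1.isClosed.union isClosed_closure
    have hgY : g ⊆ insert y (⋃ k, (s k).1.1) := by
      intro x hx
      by_cases hxU : x ∈ ⋃ k, (s k).1.1
      · exact Or.inr hxU
      left
      by_contra hxy
      obtain ⟨k, hk⟩ := hclose (dist x y) (dist_pos.2 hxy)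
      rcases hgG k hx with h | h
      · exact hxU (mem_iUnion.2 ⟨k, h⟩)
      · exact lt_irrefl _ (hk x h)
    have hUY : (⋃ k, (s k).1.1) ⊆ Y0 := by
      apply iUnion_subset
      intro k x hx
      rcases hgsub 0 k (Nat.zero_le k) hx with h | h
      · rw [hs0] at h
        rw [mem_singleton_iff.1 h]
        exact hv
      · rw [hs0] at h
        exact h
    have hyg : y ∈ g := by
      rw [hg, Metric.mem_closure_iff]
      intro ε hε
      obtain ⟨k, hk⟩ := hclose ε hε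
      obtain ⟨p, hp1, hp2⟩ := (s k).2.2.2.2.2.2
      exact ⟨p, mem_iUnion.2 ⟨k, hp1⟩, by rw [dist_comm]; exact hk p (subset_closure hp2)⟩
    have hvg : v ∈ g := subset_closure (mem_iUnion.2 ⟨0, by
      show v ∈ (s 0).1.1
      rw [hs0]
      exact rfl⟩)
    refine ⟨g, y, isClosed_closure.isCompact, hgpre.closure,
      ⟨closure_mono hY0Y (hy 0), hyN⟩, hyg,
      hgY.trans (insert_subset_insert (hUY.trans hY0Y)), ⟨v, hvg, hY0Y hv⟩, ?_⟩
    intro i
    apply Pr_of_not_Blk (hNf i) (hne i)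
    intro n hblk
    obtain ⟨k, hk⟩ := hτ (n, i)
    have h5 := hf5 k (s k)
    rw [hk, ← hss] at h5
    exact h5 (hblk.mono (hgG (k + 1)))

end Pool.Agent.H64
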