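import Pool.Agent.H64.Ends

set_option autoImplicit false

namespace Pool.Agent.H64

open Set Metric Filter Topology

variable {X : Type*} [MetricSpace X]

/-- a relatively clopen set modulo a compact set meeting `N` only inside it. -/
lemma no_clash {N Nl B W M F K : Set X} {a b : X} (hNlN : Nl ⊆ N) (hPr : Pr B Nl a b)
    (hW : IsOpen W) (hNlW : Nl ⊆ W) (hM : IsOpen M) (haM : a ∈ M) (hF : F.Finite) (haF : a ∉ F)
    (hbF : b ∉ F) (hK : IsClosed K) (hKN : K ∩ N ⊆ M)
    (hcl : closure M ∩ (W \ (F ∪ B)) ⊆ M ∪ K) : b ∈ M := by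
  have hJ := hPr (W \ (K \ M)) (hW.sdiff (hK.sdiff hM)) (by
    intro x hx
    exact ⟨hNlW hx, fun h => h.2 (hKN ⟨h.1, hNlN hx⟩)⟩) F hF haF hbF
  apply hJ.mem_of_clopen hM _ haM
  rintro x ⟨hx1, ⟨hx2, hx3⟩, hx4⟩
  rcases hcl ⟨hx1, hx2, hx4⟩ with h | h
  · exact h
  · by_contra hxM
    exact hx3 ⟨h, hxM⟩

/-- two-sidedness of a blocking end. -/
lemma two_sided [CompactSpace X] [LocallyConnectedSpace X] (hS : Star X) {N Nl B : Set X}
    (hN : IsClosed N) (hNl : IsClosed Nl) (hNlN : Nl ⊆ N) (hB : IsClosed B) {r r' : X}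
    (hPr : Pr B Nl r r') {Y1 : Set X} (hY1 : EndC N Y1) {g : Set X} (hg : IsCompact g) {y : X}
    (hgN : g ∩ N ⊆ {y}) (hyg : y ∈ g) (hyr : y ≠ r) (hyr' : y ≠ r') {η : ℝ} (hη : 0 < η)
    (htail : g ∩ ball y η ⊆ insert y Y1) {W : Set X} (hW : IsOpen W) (hNlW : Nl ⊆ W) {F : Set X}
    (hF : F.Finite) (hrF : r ∉ F) (hr'F : r' ∉ F) (hJ : ¬ J (W \ (F ∪ (B ∪ g))) r r') {ε : ℝ}
    (hε : 0 < ε) :
    ∃ Y', EndC N Y' ∧ Y' ⊆ Y1 ∧ ∃ y2, y2 ∈ closure Y' ∩ N ∧ y2 ∈ W \ (F ∪ (B ∪ g)) ∧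
      y2 ∉ connectedComponentIn (W \ (F ∪ (B ∪ g))) r ∧ dist y2 y < ε := by
  obtain ⟨δ1, hδ1, x1, hx1, hY1eq, -⟩ := id hY1
  obtain ⟨δa, hδa, hδaW⟩ := hNl.isCompact.exists_thickening_subset_open hW hNlW
  have hη' : 0 < min η (ε / 2) := lt_min hη (half_pos hε)
  have hdis : Disjoint (g \ ball y (min η (ε / 2))) N := by
    rw [Set.disjoint_left]
    rintro x ⟨hx1, hx2⟩ hx3
    apply hx2
    have : x = y := hgN ⟨hx1, hx3⟩
    rw [this]
    exact mem_ball_self hη'
  obtain ⟨δb, hδb, hdisb⟩ := hdis.exists_thickenings (hg.diff isOpen_ball) hN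
  obtain ⟨δc, hδc, hδcC⟩ := hS.small_comps hN (show 0 < ε / 4 by positivity)
  set δ' := min (min δ1 δa) (min δb δc) with hδ'
  have hδ'pos : 0 < δ' := lt_min (lt_min hδ1 hδa) (lt_min hδb hδc)
  have h1 : δ' ≤ δ1 := (min_le_left _ _).trans (min_le_left _ _)
  have ha : δ' ≤ δa := (min_le_left _ _).trans (min_le_right _ _)
  have hb : δ' ≤ δb := (min_le_right _ _).trans (min_le_left _ _)
  have hc : δ' ≤ δc := (min_le_right _ _).trans (min_le_right _ _)
  have hrNl : r ∈ Nl := hPr.left_mem hNl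
  have hr'Nl : r' ∈ Nl := hPr.right_mem hNl
  have hyF1 : r ∉ insert y F := by
    rintro (h | h)
    exacts [hyr h.symm, hrF h]
  have hyF2 : r' ∉ insert y F := by
    rintro (h | h)
    exacts [hyr' h.symm, hr'F h]
  have hJ' := hPr (thickening δ' Nl) isOpen_thickening (self_subset_thickening hδ'pos Nl)
    (insert y F) (hF.insert y) hyF1 hyF2
  set O' := thickening δ' Nl \ (insert y F ∪ B) with hO'
  have hO'o : IsOpen O' := isOpen_thickening.sdiff ((hF.insert y).isClosed.union hB)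
  set C := connectedComponentIn O' r with hC
  have hr'C : r' ∈ C := hJ'.mem_comp
  have hrC : r ∈ C := mem_connectedComponentIn hJ'.left_mem
  have hCo : IsOpen C := hO'o.connectedComponentIn
  have hCsub : C ⊆ O' := connectedComponentIn_subset _ _
  set O := W \ (F ∪ (B ∪ g)) with hO
  have hOo : IsOpen O := hW.sdiff (hF.isClosed.union (hB.union hg.isClosed))
  have hrg : r ∉ g := fun h => hyr (hgN ⟨h, hNlN hrNl⟩).symm
  have hr'g : r' ∉ g := fun h => hyr' (hgN ⟨h, hNlN hr'Nl⟩).symm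
  have hrO : r ∈ O := ⟨hNlW hrNl, by
    rintro (h | h | h)
    exacts [hrF h, hPr.left_notMem h, hrg h]⟩
  have hCgO : C \ g ⊆ O := by
    rintro x ⟨hx, hxg⟩
    refine ⟨hδaW (thickening_mono ha _ (hCsub hx).1), ?_⟩
    rintro (h | h | h)
    · exact (hCsub hx).2 (Or.inl (Or.inr h))
    · exact (hCsub hx).2 (Or.inr h)
    · exact hxg h
  have hCgo : IsOpen (C \ g) := hCo.sdiff hg.isClosed
  set C' := connectedComponentIn (C \ g) r' with hC'
  have hC'o : IsOpen C' := hCgo.connectedComponentIn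
  have hr'C' : r' ∈ C' := mem_connectedComponentIn ⟨hr'C, hr'g⟩
  have hC'sub : C' ⊆ C \ g := connectedComponentIn_subset _ _
  have hC'p : IsPreconnected C' := isPreconnected_connectedComponentIn
  have hrC' : r ∉ C' := fun h => hJ ⟨C', hC'sub.trans hCgO, hC'p, h, hr'C'⟩
  obtain ⟨u, huC, hu1, hu2⟩ := exists_mem_frontier
    (isPreconnected_connectedComponentIn : IsPreconnected C) hC'o hr'C hr'C' hrC hrC'
  have hug : u ∈ g := by
    by_contra hug
    exact hu2 (closure_comp_inter hCgo ⟨hu1, huC, hug⟩)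
  have huy : u ≠ y := by
    rintro rfl
    exact (hCsub huC).2 (Or.inl (mem_insert _ _))
  have huth : u ∈ thickening δ' N := thickening_subset_of_subset _ hNlN (hCsub huC).1
  have hub : u ∈ ball y (min η (ε / 2)) := by
    by_contra hub
    exact Set.disjoint_left.1 hdisb (self_subset_thickening hδb _ ⟨hug, hub⟩)
      (thickening_mono hb _ huth)
  have huY1 : u ∈ Y1 := by
    rcases htail ⟨hug, ball_subset_ball (min_le_left _ _) hub⟩ with h | h
    · exact absurd h huy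
    · exact h
  have huN : u ∉ N := Set.disjoint_left.1 hY1.disjoint huY1
  have huR : u ∈ Rg N δ' := ⟨huth, huN⟩
  set Y' := connectedComponentIn (Rg N δ') u with hY'
  have hY'o : IsOpen Y' := (isOpen_Rg hN δ').connectedComponentIn
  have huY' : u ∈ Y' := mem_connectedComponentIn huR
  have hY'Y1 : Y' ⊆ Y1 := by
    rw [hY1eq, connectedComponentIn_eq (hY1eq ▸ huY1)]
    exact isPreconnected_connectedComponentIn.subset_connectedComponentIn huY'
      ((connectedComponentIn_subset _ _).trans (Rg_mono h1))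
  obtain ⟨w, hw1, hw2⟩ := _root_.mem_closure_iff.1 hu1 Y' hY'o huY'
  have hr'Y' : r' ∉ Y' := fun h => (connectedComponentIn_subset _ _ h).2 (hNlN hr'Nl)
  obtain ⟨y2, hy2C', hy2a, hy2b⟩ := exists_mem_frontier hC'p hY'o hw2 hw1 hr'C' hr'Y'
  have hy2N : y2 ∈ N := mem_of_boundary hN hy2a hy2b
    (thickening_subset_of_subset _ hNlN (hCsub (hC'sub hy2C').1).1)
  refine ⟨Y', ⟨δ', hδ'pos, u, huR, rfl, y2, hy2a, hy2N⟩, hY'Y1, y2, ⟨hy2a, hy2N⟩,
    hCgO (hC'sub hy2C'), ?_, ?_⟩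
  · intro hy2
    exact hJ ((J_iff.2 ⟨hrO, hy2⟩).trans ⟨C', hC'sub.trans hCgO, hC'p, hy2C', hr'C'⟩)
  · have hd1 : dist y2 u ≤ Metric.diam (closure Y') := dist_le_diam hy2a (subset_closure huY')
    rw [Metric.diam_closure] at hd1
    have hd2 : Metric.diam Y' ≤ ε / 4 := hδcC _ isPreconnected_connectedComponentIn
      ((connectedComponentIn_subset _ _).trans (Rg_mono hc))
    have hd3 : dist u y < ε / 2 := (mem_ball.1 hub).trans_le (min_le_right _ _)
    have hd4 := dist_triangle y2 u y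
    linarith

/-- admissible continua through `y` -/
def Adm (gs Y : Set X) (y : X) (g : Set X) : Prop :=
  IsCompact g ∧ IsPreconnected g ∧ gs ⊆ g ∧ g ⊆ gs ∪ insert y Y ∧ y ∈ g

lemma Adm.inter_subset {gs Y N : Set X} {y : X} {g : Set X} (h : Adm gs Y y g)
    (hgs : Disjoint gs N) (hY : Disjoint Y N) : g ∩ N ⊆ {y} := by
  rintro x ⟨hx1, hx2⟩
  rcases h.2.2.2.1 hx1 with h | h | h
  · exact absurd hx2 (Set.disjoint_left.1 hgs h)
  · exact h
  · exact absurd hx2 (Set.disjoint_left.1 hY h)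

/-- witnesses for blocking whose tail is in `Y1` -/
def Wit (n : ℕ) (B Nl : Set X) (r r' : X) (N gs Y Y1 : Set X) (y : X) (g : Set X)
    (f : Fin n → X) : Prop :=
  y ∈ closure Y1 ∩ N ∧ Adm gs Y y g ∧ (∃ η > 0, g ∩ ball y η ⊆ insert y Y1) ∧
    (∀ i, 1 / ((n : ℝ) + 1) ≤ dist (f i) r ∧ 1 / ((n : ℝ) + 1) ≤ dist (f i) r') ∧
    ¬ J (thickening (1 / ((n : ℝ) + 1)) Nl \ (range f ∪ (B ∪ g))) r r'

lemma Wit.mono {n : ℕ} {B Nl : Set X} {r r' : X} {N gs Y Y1 Y2 : Set X} {y : X} {g : Set X}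
    {f : Fin n → X} (h : Wit n B Nl r r' N gs Y Y1 y g f) (hY : Y1 ⊆ Y2) :
    Wit n B Nl r r' N gs Y Y2 y g f := by
  obtain ⟨h1, h2, ⟨η, hη, h3⟩, h4, h5⟩ := h
  exact ⟨⟨closure_mono hY h1.1, h1.2⟩, h2, ⟨η, hη, h3.trans (insert_subset_insert hY)⟩, h4, h5⟩

lemma Wit.notMem {n : ℕ} {B Nl : Set X} {r r' : X} {N gs Y Y1 : Set X} {y : X} {g : Set X}
    {f : Fin n → X} (h : Wit n B Nl r r' N gs Y Y1 y g f) : r ∉ range f ∧ r' ∉ range f := by
  have hpos : 0 < 1 / ((n : ℝ) + 1) := by positivity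
  constructor
  · rintro ⟨i, hi⟩
    have := (h.2.2.2.1 i).1
    rw [hi, dist_self] at this
    linarith
  · rintro ⟨i, hi⟩
    have := (h.2.2.2.1 i).2
    rw [hi, dist_self] at this
    linarith

/-- the main combinatorial lemma: some admissible continuum is not blocked. -/
lemma exists_adm_not_Blk [CompactSpace X] [LocallyConnectedSpace X] (hS : Star X)
    {N Nl B : Set X} (hN : IsClosed N) (hNl : IsClosed Nl) (hNlN : Nl ⊆ N) (hB : IsClosed B)
    {r r' : X} (hPr : Pr B Nl r r') {Y : Set X} (hY : EndC N Y) (hrY : r ∉ closure Y)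
    (hr'Y : r' ∉ closure Y) (hΦ : ∀ x ∈ closure Y, x ∈ Nl → x ∉ B) {gs : Set X}
    (hgs : IsCompact gs) (hgsc : IsPreconnected gs) (hgsN : Disjoint gs N)
    (hmeet : (gs ∩ Y).Nonempty) (n : ℕ) :
    ∃ g y, Adm gs Y y g ∧ y ∈ closure Y ∩ N ∧ ¬ Blk n B Nl r r' g := by
  classical
  by_contra hcon
  push Not at hcon
  have hYo := hY.isOpen hN
  have hYp := hY.isPreconnected
  have hYN := hY.disjoint
  set W := thickening (1 / ((n : ℝ) + 1)) Nl with hW
  have hWo : IsOpen W := isOpen_thickening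
  have hpos : 0 < 1 / ((n : ℝ) + 1) := by positivity
  have hNlW : Nl ⊆ W := self_subset_thickening hpos Nl
  have hrNl : r ∈ Nl := hPr.left_mem hNl
  have hr'Nl : r' ∈ Nl := hPr.right_mem hNl
  -- existence of witnesses
  have hexW : ∀ Y1, EndC N Y1 → Y1 ⊆ Y → ∀ y ∈ closure Y1 ∩ N,
      ∃ g f, Wit n B Nl r r' N gs Y Y1 y g f := by
    intro Y1 hY1 hY1Y y hy
    obtain ⟨g, g1, g2, g3, g4, g5, η, hη, g6⟩ := hS.exists_arc hYo hYp (hY1.isOpen hN)
      hY1.isPreconnected hY1Y hgs hgsc hmeet hy.1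
      (fun h => Set.disjoint_left.1 hYN h hy.2) (fun h => Set.disjoint_left.1 hgsN h hy.2)
    obtain ⟨f, hf1, hf2⟩ := hcon g y ⟨g1, g2, g3, g4, g5⟩ ⟨closure_mono hY1Y hy.1, hy.2⟩
    exact ⟨g, f, hy, ⟨g1, g2, g3, g4, g5⟩, ⟨η, hη, g6⟩, hf1, hf2⟩
  -- all adherent points are in Nl
  have hTNl : ∀ y ∈ closure Y ∩ N, y ∈ Nl := by
    intro y hy
    by_contra hyNl
    obtain ⟨g, f, hw⟩ := hexW Y hY subset_rfl y hy
    have hgN := hw.2.1.inter_subset hgsN hYN
    have hdisj : Disjoint g Nl := by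
      rw [Set.disjoint_left]
      intro x hx hx'
      have : x = y := hgN ⟨hx, hNlN hx'⟩
      exact hyNl (this ▸ hx')
    exact hw.2.2.2.2 ((hPr.add_disjoint hw.2.1.1.isClosed hdisj) W hWo hNlW _
      (Set.finite_range f) hw.notMem.1 hw.notMem.2)
  -- closure properties of components for witnesses
  have hOopen : ∀ (g : Set X) (f : Fin n → X), IsCompact g → IsOpen (W \ (range f ∪ (B ∪ g))) :=
    fun g f hg => hWo.sdiff ((Set.finite_range f).isClosed.union (hB.union hg.isClosed))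
  have hclo : ∀ (g : Set X) (f : Fin n → X), IsCompact g →
      closure (connectedComponentIn (W \ (range f ∪ (B ∪ g))) r) ∩ (W \ (range f ∪ B)) ⊆
        connectedComponentIn (W \ (range f ∪ (B ∪ g))) r ∪ g := by
    intro g f hg x hx
    by_cases hxg : x ∈ g
    · exact Or.inr hxg
    · left
      refine closure_comp_inter (hOopen g f hg) ⟨hx.1, hx.2.1, ?_⟩
      rintro (h | h | h)
      exacts [hx.2.2 (Or.inl h), hx.2.2 (Or.inr h), hxg h]
  -- step AB1
  have hAB1 : ∀ Y1, EndC N Y1 → Y1 ⊆ Y → ∃ y0 ∈ closure Y1 ∩ N, ∀ y g f,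
      Wit n B Nl r r' N gs Y Y1 y g f →
      y0 ∉ connectedComponentIn (W \ (range f ∪ (B ∪ g))) r := by
    intro Y1 hY1 hY1Y
    by_contra hcon1
    push Not at hcon1
    have hTc : IsCompact (closure Y1 ∩ N) := (isClosed_closure.inter hN).isCompact
    obtain ⟨M, F, K, hM, hTM, hF, hrF, hr'F, hK, hKN, hcl, hrM, hr'M⟩ :
        ∃ M F K : Set X, IsOpen M ∧ closure Y1 ∩ N ⊆ M ∧ F.Finite ∧ r ∉ F ∧ r' ∉ F ∧ IsClosed K ∧
          K ∩ N ⊆ closure Y1 ∩ N ∧ closure M ∩ (W \ (F ∪ B)) ⊆ M ∪ K ∧ (M.Nonempty → r ∈ M) ∧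
          r' ∉ M := by
      refine hTc.induction_on (p := fun S => ∃ M F K : Set X, IsOpen M ∧ S ⊆ M ∧ F.Finite ∧
        r ∉ F ∧ r' ∉ F ∧ IsClosed K ∧ K ∩ N ⊆ closure Y1 ∩ N ∧
        closure M ∩ (W \ (F ∪ B)) ⊆ M ∪ K ∧ (M.Nonempty → r ∈ M) ∧ r' ∉ M) ?_ ?_ ?_ ?_
      · exact ⟨∅, ∅, ∅, isOpen_empty, subset_rfl, finite_empty, notMem_empty _, notMem_empty _,
          isClosed_empty, by simp, by simp, fun h => absurd h not_nonempty_empty, notMem_empty _⟩
      · rintro s t hst ⟨M, F, K, h1, h2, h3⟩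
        exact ⟨M, F, K, h1, hst.trans h2, h3⟩
      · rintro s t ⟨M, F, K, h1, h2, h3, h4, h5, h6, h7, h8, h9, h10⟩
          ⟨M', F', K', h1', h2', h3', h4', h5', h6', h7', h8', h9', h10'⟩
        refine ⟨M ∪ M', F ∪ F', K ∪ K', h1.union h1', union_subset_union h2 h2', h3.union h3',
          ?_, ?_, h6.union h6', ?_, ?_, ?_, ?_⟩
        · rintro (h | h); exacts [h4 h, h4' h]
        · rintro (h | h); exacts [h5 h, h5' h]
        · rintro x ⟨hx | hx, hxN⟩
          exacts [h7 ⟨hx, hxN⟩, h7' ⟨hx, hxN⟩]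
        · rintro x ⟨hx1, hx2, hx3⟩
          rw [closure_union] at hx1
          rcases hx1 with hx1 | hx1
          · rcases h8 ⟨hx1, hx2, fun h => hx3 (h.elim (fun h => Or.inl (Or.inl h)) Or.inr)⟩ with h | h
            exacts [Or.inl (Or.inl h), Or.inr (Or.inl h)]
          · rcases h8' ⟨hx1, hx2, fun h => hx3 (h.elim (fun h => Or.inl (Or.inr h)) Or.inr)⟩ with h | h
            exacts [Or.inl (Or.inr h), Or.inr (Or.inr h)]
        · rintro ⟨x, hx | hx⟩
          exacts [Or.inl (h9 ⟨x, hx⟩), Or.inr (h9' ⟨x, hx⟩)]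
        · rintro (h | h); exacts [h10 h, h10' h]
      · intro y0 hy0
        obtain ⟨y, g, f, hw, hy0M⟩ := hcon1 y0 hy0
        have hrO : r ∈ W \ (range f ∪ (B ∪ g)) := by
          by_contra hr
          rw [connectedComponentIn_eq_empty hr] at hy0M
          exact hy0M
        have hMo : IsOpen (connectedComponentIn (W \ (range f ∪ (B ∪ g))) r) :=
          (hOopen g f hw.2.1.1).connectedComponentIn
        refine ⟨connectedComponentIn (W \ (range f ∪ (B ∪ g))) r,
          mem_nhdsWithin_of_mem_nhds (hMo.mem_nhds hy0M), _, range f, g, hMo, subset_rfl,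
          Set.finite_range f, hw.notMem.1, hw.notMem.2, hw.2.1.1.isClosed, ?_,
          hclo g f hw.2.1.1, fun _ => mem_connectedComponentIn hrO, ?_⟩
        · intro x hx
          have : x = y := hw.2.1.inter_subset hgsN hYN hx
          rw [this]
          exact hw.1
        · intro hr'
          exact hw.2.2.2.2 (J_iff.2 ⟨hrO, hr'⟩)
    obtain ⟨t, ht⟩ := hY1.nonempty'
    exact hr'M (no_clash hNlN hPr hWo hNlW hM (hrM ⟨t, hTM ht⟩) hF hrF hr'F hK
      (hKN.trans hTM) hcl)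
  -- the induction
  have hind : ∀ m : ℕ, ∃ Y1, EndC N Y1 ∧ Y1 ⊆ Y ∧ ∃ S : Finset X, S.card = m ∧
      (∀ x ∈ S, x ∉ closure Y1) ∧ ∀ y g f, Wit n B Nl r r' N gs Y Y1 y g f →
        (S : Set X) ⊆ range f := by
    intro m
    induction m with
    | zero => exact ⟨Y, hY, subset_rfl, ∅, rfl, by simp, by simp⟩
    | succ m ih =>
      obtain ⟨Y1, hY1, hY1Y, S, hS1, hS2, hS3⟩ := ih
      obtain ⟨y0, hy0, hy0M⟩ := hAB1 Y1 hY1 hY1Y
      obtain ⟨g0, f0, hw0⟩ := hexW Y1 hY1 hY1Y y0 hy0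
      have hy0Y : y0 ∈ closure Y ∩ N := ⟨closure_mono hY1Y hy0.1, hy0.2⟩
      have hy0r : y0 ≠ r := by
        rintro rfl; exact hrY hy0Y.1
      have hy0r' : y0 ≠ r' := by
        rintro rfl; exact hr'Y hy0Y.1
      obtain ⟨η, hη, htail⟩ := hw0.2.2.1
      obtain ⟨Y', hY', hY'Y1, y2, hy2, hy2O, hy2M, -⟩ := two_sided hS hN hNl hNlN hB hPr hY1
        hw0.2.1.1 (hw0.2.1.inter_subset hgsN hYN) hw0.2.1.2.2.2.2 hy0r hy0r' hη htail hWo hNlW
        (Set.finite_range f0) hw0.notMem.1 hw0.notMem.2 hw0.2.2.2.2 one_pos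
      set O0 := W \ (range f0 ∪ (B ∪ g0)) with hO0
      set M1 := connectedComponentIn O0 r with hM1
      have hO0o : IsOpen O0 := hOopen g0 f0 hw0.2.1.1
      have hM1o : IsOpen M1 := hO0o.connectedComponentIn
      have hM1cl : closure M1 ∩ O0 ⊆ M1 := closure_comp_inter hO0o
      have hM2o : IsOpen (O0 \ closure M1) := hO0o.sdiff isClosed_closure
      have hy2M2 : y2 ∈ O0 \ closure M1 := ⟨hy2O, fun h => hy2M (hM1cl ⟨h, hy2O⟩)⟩
      obtain ⟨Y2, hY2, hY2Y', hY2M⟩ := hY'.exists_sub hS hN hy2 (hM2o.mem_nhds hy2M2)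
      have hY2Y1 : Y2 ⊆ Y1 := hY2Y'.trans hY'Y1
      have hy0g0 : y0 ∈ g0 := hw0.2.1.2.2.2.2
      have hy0O0 : y0 ∉ O0 := fun h => h.2 (Or.inr (Or.inr hy0g0))
      have hy0Y2 : y0 ∉ closure Y2 := fun h => hy0O0 (hY2M h).1
      have hy0S : y0 ∉ S := fun h => hS2 y0 h hy0.1
      refine ⟨Y2, hY2, hY2Y1.trans hY1Y, insert y0 S, ?_, ?_, ?_⟩
      · rw [Finset.card_insert_of_notMem hy0S, hS1]
      · intro x hx
        rw [Finset.mem_insert] at hx
        rcases hx with rfl | hx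
        · exact hy0Y2
        · exact fun h => hS2 x hx (closure_mono hY2Y1 h)
      · intro y g f hw
        have hw' := hw.mono hY2Y1
        rw [Finset.coe_insert, insert_subset_iff]
        refine ⟨?_, hS3 y g f hw'⟩
        by_contra hy0f
        have hyM2 : y ∈ O0 \ closure M1 := hY2M hw.1.1
        have hy0y : y0 ≠ y := by
          rintro rfl
          exact hy0O0 hyM2.1
        have hy0g : y0 ∉ g := fun h => hy0y (hw.2.1.inter_subset hgsN hYN ⟨h, hy0.2⟩)
        have hy0Nl : y0 ∈ Nl := hTNl y0 hy0Y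
        have hy0B : y0 ∉ B := hΦ y0 hy0Y.1 hy0Nl
        set O1 := W \ (range f ∪ (B ∪ g)) with hO1
        set M1' := connectedComponentIn O1 r with hM1'
        have hO1o : IsOpen O1 := hOopen g f hw.2.1.1
        have hM1'o : IsOpen M1' := hO1o.connectedComponentIn
        have hM1'cl : closure M1' ∩ O1 ⊆ M1' := closure_comp_inter hO1o
        have hM2'o : IsOpen (O1 \ closure M1') := hO1o.sdiff isClosed_closure
        have hy0O1 : y0 ∈ O1 := ⟨hNlW hy0Nl, by
          rintro (h | h | h)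
          exacts [hy0f h, hy0B h, hy0g h]⟩
        have hy0M2' : y0 ∈ O1 \ closure M1' :=
          ⟨hy0O1, fun h => hy0M y g f hw' (hM1'cl ⟨h, hy0O1⟩)⟩
        have hr'O0 : r' ∈ O0 := ⟨hNlW hr'Nl, by
          rintro (h | h | h)
          exacts [hw0.notMem.2 h, hPr.right_notMem h,
            hy0r' (hw0.2.1.inter_subset hgsN hYN ⟨h, hNlN hr'Nl⟩).symm]⟩
        have hrO0 : r ∈ O0 := ⟨hNlW hrNl, by
          rintro (h | h | h)
          exacts [hw0.notMem.1 h, hPr.left_notMem h,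
            hy0r (hw0.2.1.inter_subset hgsN hYN ⟨h, hNlN hrNl⟩).symm]⟩
        have hyY : y ∈ closure Y := closure_mono (hY2Y1.trans hY1Y) hw.1.1
        have hyr : y ≠ r := by
          rintro rfl; exact hrY hyY
        have hyr' : y ≠ r' := by
          rintro rfl; exact hr'Y hyY
        have hrO1 : r ∈ O1 := ⟨hNlW hrNl, by
          rintro (h | h | h)
          exacts [hw.notMem.1 h, hPr.left_notMem h,
            hyr (hw.2.1.inter_subset hgsN hYN ⟨h, hNlN hrNl⟩).symm]⟩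
        have hr'M2 : r' ∈ O0 \ closure M1 :=
          ⟨hr'O0, fun h => hw0.2.2.2.2 (J_iff.2 ⟨hrO0, hM1cl ⟨h, hr'O0⟩⟩)⟩
        have hrM1 : r ∈ M1 := mem_connectedComponentIn hrO0
        have hrM1' : r ∈ M1' := mem_connectedComponentIn hrO1
        -- closure property
        have hclM2 : ∀ (f : Fin n → X) (g : Set X), IsCompact g → ∀ x,
            x ∈ closure ((W \ (range f ∪ (B ∪ g))) \
              closure (connectedComponentIn (W \ (range f ∪ (B ∪ g))) r)) →
            x ∈ W \ (range f ∪ B) → x ∉ g → x ∈ ((W \ (range f ∪ (B ∪ g))) \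
              closure (connectedComponentIn (W \ (range f ∪ (B ∪ g))) r)) := by
          intro f g hg x hx1 hx2 hx3
          have hxO : x ∈ W \ (range f ∪ (B ∪ g)) := ⟨hx2.1, by
            rintro (h | h | h)
            exacts [hx2.2 (Or.inl h), hx2.2 (Or.inr h), hx3 h]⟩
          refine ⟨hxO, fun hxc => ?_⟩
          have hxM := closure_comp_inter (hOopen g f hg) ⟨hxc, hxO⟩
          obtain ⟨z, hz1, hz2⟩ := _root_.mem_closure_iff.1 hx1 _
            (hOopen g f hg).connectedComponentIn hxM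
          exact hz2.2 (subset_closure hz1)
        have hfinal : r ∈ (O0 \ closure M1) ∪ (O1 \ closure M1') := by
          refine no_clash hNlN hPr.symm hWo hNlW (hM2o.union hM2'o) (Or.inl hr'M2)
            (F := range f0 ∪ range f) ((Set.finite_range f0).union (Set.finite_range f)) ?_ ?_
            (K := g0 ∪ g) (hw0.2.1.1.isClosed.union hw.2.1.1.isClosed) ?_ ?_
          · rintro (h | h); exacts [hw0.notMem.2 h, hw.notMem.2 h]
          · rintro (h | h); exacts [hw0.notMem.1 h, hw.notMem.1 h]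
          · rintro x ⟨hx | hx, hxN⟩
            · right
              have : x = y0 := hw0.2.1.inter_subset hgsN hYN ⟨hx, hxN⟩
              rw [this]
              exact hy0M2'
            · left
              have : x = y := hw.2.1.inter_subset hgsN hYN ⟨hx, hxN⟩
              rw [this]
              exact hyM2
          · rintro x ⟨hx1, hx2, hx3⟩
            by_cases hxg0 : x ∈ g0
            · exact Or.inr (Or.inl hxg0)
            by_cases hxg : x ∈ g
            · exact Or.inr (Or.inr hxg)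
            left
            rw [closure_union] at hx1
            rcases hx1 with hx1 | hx1
            · left
              exact hclM2 f0 g0 hw0.2.1.1 x hx1
                ⟨hx2, fun h => hx3 (h.elim (fun h => Or.inl (Or.inl h)) Or.inr)⟩ hxg0
            · right
              exact hclM2 f g hw.2.1.1 x hx1
                ⟨hx2, fun h => hx3 (h.elim (fun h => Or.inl (Or.inr h)) Or.inr)⟩ hxg
        rcases hfinal with h | h
        · exact h.2 (subset_closure hrM1)
        · exact h.2 (subset_closure hrM1')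
  obtain ⟨Y1, hY1, hY1Y, S, hS1, hS2, hS3⟩ := hind (n + 1)
  obtain ⟨y, hy⟩ := hY1.nonempty'
  obtain ⟨g, f, hw⟩ := hexW Y1 hY1 hY1Y y hy
  have hsub := hS3 y g f hw
  have hcard : S.card ≤ n := by
    have h1 : S ⊆ Finset.univ.image f := by
      intro x hx
      obtain ⟨i, hi⟩ := hsub hx
      exact Finset.mem_image.2 ⟨i, Finset.mem_univ _, hi⟩
    calc S.card ≤ (Finset.univ.image f).card := Finset.card_le_card h1
      _ ≤ (Finset.univ : Finset (Fin n)).card := Finset.card_image_le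
      _ = n := by simp
  omega

end Pool.Agent.H64
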