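import Mathlib

set_option autoImplicit false

namespace Pool.Agent.H64.Hfc

open Set Function

/-- finite-tuple genericity by the Baire category theorem -/
lemma generic_fun {S κ : Type} [Countable κ] (n : κ → ℕ) (A : ∀ k, ℕ → Fin (n k) → S)
    (M : κ → Set ℕ) (hM : ∀ k, (M k).Infinite) (hinj : ∀ k m, Injective (A k m))
    (hpd : ∀ k m m', m ≠ m' → ∀ i j, A k m i ≠ A k m' j) :
    ∃ f : S → Bool, ∀ k (b : Fin (n k) → Bool), {m ∈ M k | ∀ i, f (A k m i) = b i}.Infinite := by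
  classical
  let ι := Σ k, (Fin (n k) → Bool) × ℕ
  let O : ι → Set (S → Bool) := fun t => {f | ∃ m ∈ M t.1, t.2.2 < m ∧ ∀ i, f (A t.1 m i) = t.2.1 i}
  have hopen : ∀ t, IsOpen (O t) := by
    intro t
    have : O t = ⋃ m ∈ {m | m ∈ M t.1 ∧ t.2.2 < m}, ⋂ i, {f : S → Bool | f (A t.1 m i) = t.2.1 i} := by
      ext f
      simp only [O, mem_ofPred_eq, mem_iUnion, mem_iInter, exists_prop]
      constructor
      · rintro ⟨m, h1, h2, h3⟩
        exact ⟨m, ⟨h1, h2⟩, h3⟩
      · rintro ⟨m, ⟨h1, h2⟩, h3⟩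
        exact ⟨m, h1, h2, h3⟩
    rw [this]
    apply isOpen_biUnion
    intro m _
    apply isOpen_iInter_of_finite
    intro i
    have h1 : IsOpen ({t.2.1 i} : Set Bool) := isOpen_discrete _
    exact h1.preimage (continuous_apply (A t.1 m i) : Continuous (fun f : S → Bool => f (A t.1 m i)))
  have hdense : ∀ t, Dense (O t) := by
    rintro ⟨k, b, N⟩
    rw [dense_iff_inter_open]
    rintro U hU ⟨f0, hf0⟩
    obtain ⟨T, u, hu, hTU⟩ := isOpen_pi_iff.1 hU f0 hf0
    have hfin : {m | ∃ i, A k m i ∈ T}.Finite := by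
      have hsub : {m | ∃ i, A k m i ∈ T} ⊆ ⋃ t ∈ T, {m | ∃ i, A k m i = t} := by
        rintro m ⟨i, hi⟩
        simp only [mem_iUnion, exists_prop]
        exact ⟨_, hi, i, rfl⟩
      refine (T.finite_toSet.biUnion (fun t _ => ?_)).subset hsub
      apply Set.Subsingleton.finite
      rintro m ⟨i, hi⟩ m' ⟨j, hj⟩
      by_contra hne
      exact hpd k m m' hne i j (hi.trans hj.symm)
    obtain ⟨m, hm1, hm2⟩ := ((hM k).sdiff (hfin.union (Set.finite_Iic N))).nonempty
    have hm3 : ∀ i, A k m i ∉ T := fun i hi => hm2 (Or.inl ⟨i, hi⟩)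
    have hm4 : N < m := by
      by_contra h
      exact hm2 (Or.inr (not_lt.1 h))
    let f : S → Bool := fun s => if h : ∃ i, A k m i = s then b h.choose else f0 s
    have hf : ∀ i, f (A k m i) = b i := by
      intro i
      have h : ∃ j, A k m j = A k m i := ⟨i, rfl⟩
      have h2 : h.choose = i := hinj k m h.choose_spec
      simp only [f]
      rw [dif_pos h, h2]
    refine ⟨f, hTU ?_, m, hm1, hm4, hf⟩
    intro s hs
    have : f s = f0 s := by
      simp only [f]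
      rw [dif_neg]
      rintro ⟨i, hi⟩
      exact hm3 i (hi ▸ hs)
    rw [this]
    exact (hu s hs).2
  obtain ⟨f, hf⟩ := (dense_iInter_of_isOpen hopen hdense).nonempty
  refine ⟨f, fun k b => ?_⟩
  rw [Set.infinite_iff_exists_gt]
  intro N
  obtain ⟨m, h1, h2, h3⟩ := mem_iInter.1 hf ⟨k, b, N⟩
  exact ⟨m, ⟨h1, h3⟩, h2⟩

variable {Ω : Type} [LinearOrder Ω]

/-- sequences of finite tuples -/
abbrev Sq (Ω : Type) := Σ n : ℕ, ℕ → Fin n → Ω

/-- injective tuples, pairwise disjoint -/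
def Sq.PD (A : Sq Ω) : Prop :=
  (∀ m, Injective (A.2 m)) ∧ ∀ m m', m ≠ m' → ∀ i j, A.2 m i ≠ A.2 m' j

/-- discreteness of the set of points with indices in `I` (and injectivity of the indexing) -/
def Disc (x : Ω → Ω → Bool) (I : Set Ω) : Prop :=
  ∀ a ∈ I, ∃ e : Finset Ω, ∀ b ∈ I, (∀ g ∈ e, x b g = x a g) → b = a

/-- truncation of a matrix -/
def trunc (z : Ω) (x : Ω → Ω → Bool) (a g : Ω) : Bool := if a < z ∧ g < z then x a g else false

open Classical in
/-- the set to be avoided at stage `z` -/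
noncomputable def Jset (I : Ω → Set Ω) (z : Ω) (X : Ω → Ω → Bool) : Set Ω :=
  if I z ⊆ Iio z ∧ Disc X (I z) then I z else ∅

/-- requirements at stage `z` -/
structure Stage (E : Ω → Sq Ω) (I : Ω → Set Ω) (z : Ω) (X : Ω → Ω → Bool) (r c : Ω → Bool) :
    Prop where
  row0 : ∀ g ∈ Jset I z X, r g = false
  row : ∀ v < z, (E v).PD → (∀ m i, (E v).2 m i < z) →
    {m | ∀ i, (E v).2 m i ∉ Jset I z X}.Infinite → ∀ b : Fin (E v).1 → Bool,
      ∃ m, ∀ i, r ((E v).2 m i) = b i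
  col : ∀ v < z, (E v).PD → (∀ m i, (E v).2 m i < z) →
    ∀ (e : Finset (Iio z)) (q : Fin (E v).1 → Finset (Iio z)),
      {m | ∀ i, ∀ g ∈ e, X ((E v).2 m i) g = decide (g ∈ q i)}.Infinite →
      ∀ b : Fin (E v).1 → Bool,
      {m | (∀ i, ∀ g ∈ e, X ((E v).2 m i) g = decide (g ∈ q i)) ∧
        ∀ i, c ((E v).2 m i) = b i}.Infinite

lemma exists_stage (hinit : ∀ a : Ω, (Iio a).Countable) (E : Ω → Sq Ω) (I : Ω → Set Ω) (z : Ω)
    (X : Ω → Ω → Bool) : ∃ r c, Stage E I z X r c := by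
  classical
  have hc : Countable (Iio z) := (hinit z).to_subtype
  -- the row
  let κ := {v : Iio z // (E v).PD ∧ {m | ∀ i, (E v).2 m i ∉ Jset I z X}.Infinite}
  obtain ⟨f, hf⟩ := generic_fun (κ := κ) (fun k => (E k.1).1) (fun k => (E k.1).2)
    (fun k => {m | ∀ i, (E k.1).2 m i ∉ Jset I z X}) (fun k => k.2.2) (fun k => k.2.1.1)
    (fun k => k.2.1.2)
  -- the column
  let κ' := {t : Σ v : Iio z, (Finset (Iio z)) × (Fin (E v).1 → Finset (Iio z)) // (E t.1).PD ∧
    {m | ∀ i, ∀ g ∈ t.2.1, X ((E t.1).2 m i) g = decide (g ∈ t.2.2 i)}.Infinite}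
  obtain ⟨f', hf'⟩ := generic_fun (κ := κ') (fun k => (E k.1.1).1) (fun k => (E k.1.1).2)
    (fun k => {m | ∀ i, ∀ g ∈ k.1.2.1, X ((E k.1.1).2 m i) g = decide (g ∈ k.1.2.2 i)})
    (fun k => k.2.2) (fun k => k.2.1.1) (fun k => k.2.1.2)
  refine ⟨fun g => if g ∈ Jset I z X then false else f g, f', ⟨?_, ?_, ?_⟩⟩
  · intro g hg
    simp [hg]
  · intro v hv hPD hlt hinf b
    obtain ⟨m, hm1, hm2⟩ := (hf ⟨⟨v, hv⟩, hPD, hinf⟩ b).nonempty
    refine ⟨m, fun i => ?_⟩
    have := hm1 i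
    simp only at this
    simp only [this, if_false]
    exact hm2 i
  · intro v hv hPD hlt e q hinf b
    exact hf' ⟨⟨⟨v, hv⟩, e, q⟩, hPD, hinf⟩ b

/-- the matrix -/
theorem exists_matrix [WellFoundedLT Ω] (hinit : ∀ a : Ω, (Iio a).Countable) (E : Ω → Sq Ω)
    (I : Ω → Set Ω) :
    ∃ x : Ω → Ω → Bool, (∀ a, x a a = true) ∧ ∀ z, ∃ r c, Stage E I z (trunc z x) r c ∧
      (∀ g < z, x z g = r g) ∧ (∀ a < z, x a z = c a) := by
  classical
  let prev : (z : Ω) → ((y : Ω) → y < z → (Ω → Bool) × (Ω → Bool)) → Ω → Ω → Bool :=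
    fun z d a g => if h1 : a < z then (if h2 : g < z then
      (if g < a then (d a h1).1 g else if a < g then (d g h2).2 a else true) else false) else false
  have hex : ∀ (z : Ω) (d : (y : Ω) → y < z → (Ω → Bool) × (Ω → Bool)),
      ∃ p : (Ω → Bool) × (Ω → Bool), Stage E I z (prev z d) p.1 p.2 := by
    intro z d
    obtain ⟨r, c, h⟩ := exists_stage hinit E I z (prev z d)
    exact ⟨(r, c), h⟩
  choose F hF using hex
  have wf : WellFounded (fun a b : Ω => a < b) := wellFounded_lt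
  let D : Ω → (Ω → Bool) × (Ω → Bool) := wf.fix F
  have hD : ∀ z, D z = F z (fun y _ => D y) := fun z => wf.fix_eq F z
  let x : Ω → Ω → Bool := fun a g => if g < a then (D a).1 g else if a < g then (D g).2 a else true
  have hprev : ∀ z, prev z (fun y _ => D y) = trunc z x := by
    intro z
    funext a g
    simp only [prev, trunc, x]
    by_cases h1 : a < z
    · by_cases h2 : g < z
      · simp [h1, h2]
      · simp [h1, h2]
    · simp [h1]
  refine ⟨x, fun a => ?_, fun z => ⟨(D z).1, (D z).2, ?_, ?_, ?_⟩⟩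
  · simp [x]
  · rw [← hprev]
    have := hF z (fun y _ => D y)
    rw [← hD z] at this
    exact this
  · intro g hg
    simp [x, hg]
  · intro a ha
    simp [x, ha, not_lt.2 ha.le]

end Pool.Agent.H64.Hfc
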