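import Pool.Agent.H64.Hfc1

set_option autoImplicit false

namespace Pool.Agent.H64.Hfc

open Set Function

variable {Ω : Type} [LinearOrder Ω]

lemma exists_bound (hinit : ∀ a : Ω, (Iio a).Countable) (hunc : ¬ (univ : Set Ω).Countable)
    {S : Set Ω} (hS : S.Countable) : ∃ b, ∀ a ∈ S, a < b := by
  by_contra hcon
  push Not at hcon
  apply hunc
  have : (univ : Set Ω) ⊆ ⋃ a ∈ S, (Iio a ∪ {a}) := by
    intro b _
    obtain ⟨a, ha, hba⟩ := hcon b
    rw [mem_iUnion₂]
    rcases lt_or_eq_of_le hba with h | h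
    · exact ⟨a, ha, Or.inl h⟩
    · exact ⟨a, ha, Or.inr h⟩
  exact (hS.biUnion (fun a _ => (hinit a).union (countable_singleton a))).mono this

lemma exists_gt_mem (hinit : ∀ a : Ω, (Iio a).Countable) {P : Set Ω} (hP : ¬ P.Countable)
    (b : Ω) : ∃ a ∈ P, b < a := by
  by_contra hcon
  push Not at hcon
  apply hP
  apply ((hinit b).union (countable_singleton b)).mono
  intro a ha
  rcases lt_or_eq_of_le (hcon a ha) with h | h
  · exact Or.inl h
  · exact Or.inr h

lemma exists_pigeon {ι κ : Type} [Countable κ] {P : Set ι} (hP : ¬ P.Countable) (f : ι → κ) :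
    ∃ k, ¬ {p ∈ P | f p = k}.Countable := by
  by_contra hcon
  push Not at hcon
  apply hP
  have : P ⊆ ⋃ k, {p ∈ P | f p = k} := fun p hp => mem_iUnion.2 ⟨f p, hp, rfl⟩
  exact (countable_iUnion hcon).mono this

/-- weak Delta system lemma -/
lemma exists_root (hinit : ∀ a : Ω, (Iio a).Countable) {ι : Type} (e : ι → Finset Ω) {P : Set ι}
    (hP : ¬ P.Countable) :
    ∃ (R : Finset Ω) (P' : Set ι), P' ⊆ P ∧ ¬ P'.Countable ∧ (∀ p ∈ P', R ⊆ e p) ∧
      ∀ z : Ω, {p ∈ P' | ∃ g ∈ e p, g < z ∧ g ∉ R}.Countable := by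
  classical
  have key : ∀ d : ℕ, ∀ (R : Finset Ω) (P : Set ι), ¬ P.Countable → (∀ p ∈ P, R ⊆ e p) →
      (∀ p ∈ P, (e p).card ≤ R.card + d) →
      ∃ (R : Finset Ω) (P' : Set ι), P' ⊆ P ∧ ¬ P'.Countable ∧ (∀ p ∈ P', R ⊆ e p) ∧
        ∀ z : Ω, {p ∈ P' | ∃ g ∈ e p, g < z ∧ g ∉ R}.Countable := by
    intro d
    induction d with
    | zero =>
      intro R P hP hR hcard
      refine ⟨R, P, subset_rfl, hP, hR, fun z => ?_⟩
      have : {p ∈ P | ∃ g ∈ e p, g < z ∧ g ∉ R} = ∅ := by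
        ext p
        simp only [mem_ofPred_eq, mem_empty_iff_false, iff_false]
        rintro ⟨hp, g, hg, -, hgR⟩
        have : R = e p := Finset.eq_of_subset_of_card_le (hR p hp) (by simpa using hcard p hp)
        exact hgR (this ▸ hg)
      rw [this]
      exact countable_empty
    | succ d ih =>
      intro R P hP hR hcard
      by_cases hall : ∀ z : Ω, {p ∈ P | ∃ g ∈ e p, g < z ∧ g ∉ R}.Countable
      · exact ⟨R, P, subset_rfl, hP, hR, hall⟩
      push Not at hall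
      obtain ⟨z, hz⟩ := hall
      have hex : ∃ g, g ∉ R ∧ ¬ {p ∈ P | g ∈ e p}.Countable := by
        by_contra hcon
        push Not at hcon
        apply hz
        have : {p ∈ P | ∃ g ∈ e p, g < z ∧ g ∉ R} ⊆
            ⋃ g ∈ {g ∈ Iio z | g ∉ R}, {p ∈ P | g ∈ e p} := by
          rintro p ⟨hp, g, hg, hgz, hgR⟩
          rw [mem_iUnion₂]
          exact ⟨g, ⟨hgz, hgR⟩, hp, hg⟩
        exact (((hinit z).mono (fun g hg => hg.1)).biUnion (fun g hg => hcon g hg.2)).mono this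
      obtain ⟨g, hgR, hg⟩ := hex
      obtain ⟨R', P', h1, h2, h3, h4⟩ := ih (insert g R) {p ∈ P | g ∈ e p} hg (by
        rintro p ⟨hp, hgp⟩
        exact Finset.insert_subset hgp (hR p hp)) (by
        rintro p ⟨hp, -⟩
        rw [Finset.card_insert_of_notMem hgR]
        have := hcard p hp
        omega)
      exact ⟨R', P', h1.trans (fun p hp => hp.1), h2, h3, h4⟩
  obtain ⟨k, hk⟩ := exists_pigeon hP (fun p => (e p).card)
  obtain ⟨R, P', h1, h2⟩ := key k ∅ {p ∈ P | (e p).card = k} hk (fun p _ => Finset.empty_subset _)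
    (fun p hp => by rw [hp.2]; simp)
  exact ⟨R, P', h1.trans (fun p hp => hp.1), h2⟩

/-- generic matrices -/
structure Gen (E : Ω → Sq Ω) (I : Ω → Set Ω) (x : Ω → Ω → Bool) : Prop where
  diag : ∀ a, x a a = true
  stage : ∀ z, ∃ r c, Stage E I z (trunc z x) r c ∧ (∀ g < z, x z g = r g) ∧
    (∀ a < z, x a z = c a)

lemma trunc_apply {z : Ω} {x : Ω → Ω → Bool} {a g : Ω} (ha : a < z) (hg : g < z) :
    trunc z x a g = x a g := by simp [trunc, ha, hg]

lemma Disc.of_trunc {z : Ω} {x : Ω → Ω → Bool} {J : Set Ω} (hJ : J ⊆ Iio z)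
    (h : Disc (trunc z x) J) : Disc x J := by
  classical
  intro a ha
  obtain ⟨e, he⟩ := h a ha
  refine ⟨e, fun b hb hab => he b hb (fun g hg => ?_)⟩
  unfold trunc
  have h1 : a < z := hJ ha
  have h2 : b < z := hJ hb
  by_cases hg' : g < z
  · simp [h1, h2, hg', hab g hg]
  · simp [hg']

lemma Jset_subset (I : Ω → Set Ω) (z : Ω) (X : Ω → Ω → Bool) : Jset I z X ⊆ Iio z := by
  unfold Jset
  split_ifs with h
  · exact h.1
  · exact empty_subset _

lemma Jset_disc (I : Ω → Set Ω) (z : Ω) (x : Ω → Ω → Bool) : Disc x (Jset I z (trunc z x)) := by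
  apply Disc.of_trunc (Jset_subset I z _)
  unfold Jset
  split_ifs with h
  · exact h.2
  · exact fun a ha => absurd ha (notMem_empty a)

variable {E : Ω → Sq Ω} {I : Ω → Set Ω} {x : Ω → Ω → Bool}

lemma Gen.row (h : Gen E I x) {n : ℕ} {A : ℕ → Fin n → Ω} {v : Ω} (hv : E v = ⟨n, A⟩)
    (hPD : Sq.PD ⟨n, A⟩) {z : Ω} (hvz : v < z) (hlt : ∀ m i, A m i < z)
    (hJ : ∀ J, Disc x J → {m | ∀ i, A m i ∉ J}.Infinite) (b : Fin n → Bool) :
    ∃ m, ∀ i, x z (A m i) = b i := by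
  obtain ⟨r, c, hst, hr, -⟩ := h.stage z
  have hrow := hst.row v hvz
  rw [hv] at hrow
  obtain ⟨m, hm⟩ := hrow hPD hlt (hJ _ (Jset_disc I z x)) b
  exact ⟨m, fun i => by rw [hr _ (hlt m i)]; exact hm i⟩

lemma Gen.hfd (h : Gen E I x) {n : ℕ} {A : ℕ → Fin n → Ω} {v : Ω} (hv : E v = ⟨n, A⟩)
    (hPD : Sq.PD ⟨n, A⟩) {z0 : Ω} (hvz : v < z0) (hlt : ∀ m i, A m i < z0)
    (p : Fin n → Ω → Bool) (e : Finset Ω) (he : ∀ g ∈ e, z0 ≤ g) :
    {m | ∀ i, ∀ g ∈ e, x (A m i) g = p i g}.Infinite := by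
  classical
  induction e using Finset.induction_on_max with
  | empty =>
    have : {m : ℕ | ∀ i, ∀ g ∈ (∅ : Finset Ω), x (A m i) g = p i g} = univ := by
      ext m; simp
    rw [this]
    exact infinite_univ
  | insert a s hs ih =>
    have ih' := ih (fun g hg => he g (Finset.mem_insert_of_mem hg))
    have haz : z0 ≤ a := he a (Finset.mem_insert_self a s)
    obtain ⟨r, c, hst, -, hc⟩ := h.stage a
    have hcol := hst.col v (hvz.trans_le haz)
    rw [hv] at hcol
    have hlt' : ∀ m i, A m i < a := fun m i => (hlt m i).trans_le haz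
    have heq : ∀ m, (∀ i, ∀ g ∈ s.subtype (· ∈ Iio a), trunc a x (A m i) g =
        decide (g ∈ (s.filter (fun g => p i g = true)).subtype (· ∈ Iio a))) ↔
        ∀ i, ∀ g ∈ s, x (A m i) g = p i g := by
      intro m
      constructor
      · intro h1 i g hg
        have := h1 i ⟨g, hs g hg⟩ (by simpa using hg)
        rw [trunc_apply (hlt' m i) (hs g hg)] at this
        rw [this]
        simp only [Finset.mem_subtype, Finset.mem_filter, hg, true_and]
        simp
      · rintro h1 i ⟨g, hga⟩ hg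
        simp only [Finset.mem_subtype] at hg
        rw [trunc_apply (hlt' m i) hga, h1 i g hg]
        simp only [Finset.mem_subtype, Finset.mem_filter, hg, true_and]
        simp
    have hinf := hcol hPD hlt' (s.subtype (· ∈ Iio a))
      (fun i => (s.filter (fun g => p i g = true)).subtype (· ∈ Iio a)) (by
        simp only [heq]
        exact ih') (fun i => p i a)
    simp only [heq] at hinf
    apply hinf.mono
    rintro m ⟨h1, h2⟩ i g hg
    rw [Finset.mem_insert] at hg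
    rcases hg with rfl | hg
    · rw [hc _ (hlt' m i)]
      exact h2 i
    · exact h1 i g hg

/-- the inductive statement in the main claim -/
def SS (x : Ω → Ω → Bool) {n : ℕ} (F : Ω → Fin n → Ω) (j : ℕ) (σ : Fin j → Fin n) : Prop :=
  ∀ ρ : Ω, ∃ a, ρ < a ∧ ∃ J, Disc x J ∧ {b | b < a ∧ ∀ i, F b i ∉ J}.Finite ∧
    ∃ e : Fin j → Finset Ω, ∀ l, ∀ α ∈ J, ∀ β ∈ J, (∀ g ∈ e l, x α g = x (F a (σ l)) g) →
      (∀ g ∈ e l, x β g = x (F a (σ l)) g) → α = β

lemma Gen.step (h : Gen E I x) (hE : Surjective E) (hinit : ∀ a : Ω, (Iio a).Countable)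
    (hunc : ¬ (univ : Set Ω).Countable) {n : ℕ} (F : Ω → Fin n → Ω)
    (hinj : ∀ a, Injective (F a)) (hpd : ∀ a b, a ≠ b → ∀ i j, F a i ≠ F b j) {j : ℕ}
    {σ : Fin j → Fin n} (hSS : SS x F j σ) :
    ∃ i, i ∉ range σ ∧ SS x F (j + 1) (Fin.snoc σ i) := by
  classical
  choose a ha J hJ hfin e he using hSS
  let e' : Ω → Finset Ω := fun ρ => Finset.univ.biUnion (e ρ)
  obtain ⟨R, P', -, hP'unc, hR, hRc⟩ := exists_root hinit e' hunc
  obtain ⟨pat, hpat⟩ := exists_pigeon hP'unc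
    (fun (ρ : Ω) (l : Fin j) (g : R) => x (F (a ρ) (σ l)) g)
  set P := {ρ ∈ P' | (fun (l : Fin j) (g : R) => x (F (a ρ) (σ l)) g) = pat} with hP
  have hroot : ∀ p ∈ P, ∀ q ∈ P, ∀ l, ∀ g ∈ R, x (F (a p) (σ l)) g = x (F (a q) (σ l)) g := by
    intro p hp q hq l g hg
    have h1 := congrFun (congrFun hp.2 l) ⟨g, hg⟩
    have h2 := congrFun (congrFun hq.2 l) ⟨g, hg⟩
    exact h1.trans h2.symm
  -- for every bound, a new record
  have hnew : ∀ ρ0 : Ω, ∃ i, i ∉ range σ ∧ ∃ a', ρ0 < a' ∧ ∃ J', Disc x J' ∧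
      {b | b < a' ∧ ∀ i, F b i ∉ J'}.Finite ∧
      ∃ e'' : Fin (j + 1) → Finset Ω, ∀ l, ∀ α ∈ J', ∀ β ∈ J',
        (∀ g ∈ e'' l, x α g = x (F a' ((Fin.snoc σ i : Fin (j + 1) → Fin n) l)) g) →
        (∀ g ∈ e'' l, x β g = x (F a' ((Fin.snoc σ i : Fin (j + 1) → Fin n) l)) g) → α = β := by
    intro ρ0
    have hnext : ∀ b : Ω, ∃ q ∈ P, b < q := fun b => exists_gt_mem hinit hpat b
    choose nx hnxP hnx using hnext
    let q : ℕ → Ω := fun m => Nat.rec (nx ρ0) (fun _ p => nx (a p)) m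
    have hq0 : q 0 = nx ρ0 := rfl
    have hqs : ∀ m, q (m + 1) = nx (a (q m)) := fun m => rfl
    have hqP : ∀ m, q m ∈ P := by
      intro m
      cases m with
      | zero => exact hnxP ρ0
      | succ m => exact hnxP _
    have hsmono : StrictMono (fun m => a (q m)) := strictMono_nat_of_lt_succ (fun m => by
      rw [hqs]
      exact (hnx _).trans (ha _))
    have hρ0 : ∀ m, ρ0 < a (q m) := by
      intro m
      have h0 : ρ0 < a (q 0) := (hnx ρ0).trans (ha _)
      exact h0.trans_le (hsmono.monotone (Nat.zero_le m))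
    have hsinj : ∀ m m', m ≠ m' → a (q m) ≠ a (q m') := fun m m' hne heq =>
      hne (hsmono.injective heq)
    obtain ⟨v, hv⟩ := hE ⟨n, fun m => F (a (q m))⟩
    have hPD : Sq.PD (⟨n, fun m => F (a (q m))⟩ : Sq Ω) :=
      ⟨fun m => hinj _, fun m m' hne i k => hpd _ _ (hsinj m m' hne) i k⟩
    have hcount : (({v} : Set Ω) ∪ (range (fun t : ℕ × Fin n => F (a (q t.1)) t.2)) ∪
        range (fun m => a (q m))).Countable :=
      ((countable_singleton v).union (countable_range _)).union (countable_range _)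
    obtain ⟨z0, hz0⟩ := exists_bound hinit hunc hcount
    have hvz : v < z0 := hz0 v (Or.inl (Or.inl rfl))
    have hFz : ∀ m i, F (a (q m)) i < z0 := fun m i => hz0 _ (Or.inl (Or.inr ⟨(m, i), rfl⟩))
    have haz : ∀ m, a (q m) < z0 := fun m => hz0 _ (Or.inr ⟨m, rfl⟩)
    -- a large p
    have hPlarge : ¬ (P \ {p ∈ P' | ∃ g ∈ e' p, g < z0 ∧ g ∉ R}).Countable := by
      intro hc
      apply hpat
      apply (hc.union (hRc z0)).mono
      intro p hp
      by_cases hpb : p ∈ {p ∈ P' | ∃ g ∈ e' p, g < z0 ∧ g ∉ R}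
      · exact Or.inr hpb
      · exact Or.inl ⟨hp, hpb⟩
    obtain ⟨p, ⟨hpP, hpb⟩, hpz⟩ := exists_gt_mem hinit hPlarge z0
    have hge : ∀ g ∈ e' p, g ∉ R → z0 ≤ g := by
      intro g hg hgR
      by_contra hlt
      exact hpb ⟨hpP.1, g, hg, not_le.1 hlt, hgR⟩
    have hM1 := h.hfd hv hPD hvz hFz (fun i g => x (F (a p) i) g) (e' p \ R) (by
      intro g hg
      rw [Finset.mem_sdiff] at hg
      exact hge g hg.1 hg.2)
    set M1 := {m | ∀ i, ∀ g ∈ e' p \ R, x (F (a (q m)) i) g = x (F (a p) i) g} with hM1def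
    have hagree : ∀ m ∈ M1, ∀ l, ∀ g ∈ e p l, x (F (a (q m)) (σ l)) g = x (F (a p) (σ l)) g := by
      intro m hm l g hg
      have hge' : g ∈ e' p := Finset.mem_biUnion.2 ⟨l, Finset.mem_univ _, hg⟩
      by_cases hgR : g ∈ R
      · exact hroot _ (hqP m) _ hpP l g hgR
      · exact hm (σ l) g (Finset.mem_sdiff.2 ⟨hge', hgR⟩)
    have hT1 : {m | ∀ i, F (a (q m)) i ∉ J p}.Finite := by
      have : MapsTo (fun m => a (q m)) {m | ∀ i, F (a (q m)) i ∉ J p}
          {b | b < a p ∧ ∀ i, F b i ∉ J p} :=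
        fun m hm => ⟨(haz m).trans (hpz.trans (ha p)), hm⟩
      exact Set.Finite.of_injOn this (hsmono.injective.injOn) (hfin p)
    have hT2 : {m ∈ M1 | ∃ l, F (a (q m)) (σ l) ∈ J p}.Finite := by
      have : {m ∈ M1 | ∃ l, F (a (q m)) (σ l) ∈ J p} ⊆
          ⋃ l, {m ∈ M1 | F (a (q m)) (σ l) ∈ J p} := by
        rintro m ⟨hm, l, hl⟩
        exact mem_iUnion.2 ⟨l, hm, hl⟩
      refine (Set.finite_iUnion (fun l => ?_)).subset this
      apply Set.Subsingleton.finite
      rintro m ⟨hm, hml⟩ m' ⟨hm', hml'⟩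
      by_contra hne
      have := he p l _ hml _ hml' (fun g hg => hagree m hm l g hg)
        (fun g hg => hagree m' hm' l g hg)
      exact hpd _ _ (hsinj m m' hne) _ _ this
    obtain ⟨m, hmM, hmT⟩ := (hM1.sdiff (hT1.union hT2)).nonempty
    have hm1 : ∃ i, F (a (q m)) i ∈ J p := by
      by_contra hcon
      push Not at hcon
      exact hmT (Or.inl hcon)
    obtain ⟨i, hi⟩ := hm1
    have hiσ : i ∉ range σ := by
      rintro ⟨l, rfl⟩
      exact hmT (Or.inr ⟨hmM, l, hi⟩)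
    obtain ⟨eiso, heiso⟩ := hJ p _ hi
    refine ⟨i, hiσ, a (q m), hρ0 m, J p, hJ p, ?_, Fin.snoc (e p) eiso, ?_⟩
    · apply (hfin p).subset
      rintro b ⟨hb1, hb2⟩
      exact ⟨hb1.trans ((haz m).trans (hpz.trans (ha p))), hb2⟩
    · intro l α hα β hβ h1 h2
      induction l using Fin.lastCases with
      | last =>
        simp only [Fin.snoc_last] at h1 h2
        rw [heiso α hα h1, heiso β hβ h2]
      | cast l =>
        simp only [Fin.snoc_castSucc] at h1 h2
        exact he p l α hα β hβ (fun g hg => (h1 g hg).trans (hagree m hmM l g hg))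
          (fun g hg => (h2 g hg).trans (hagree m hmM l g hg))
  choose pos hpos hrec using hnew
  -- choose a position which works for arbitrarily large bounds
  obtain ⟨i0, hi0⟩ := exists_pigeon hunc pos
  have hunb : ∀ b, ∃ ρ, b < ρ ∧ pos ρ = i0 := by
    intro b
    obtain ⟨ρ, hρ, hbρ⟩ := exists_gt_mem hinit hi0 b
    exact ⟨ρ, hbρ, hρ.2⟩
  obtain ⟨ρ1, -, hρ1⟩ : ∃ ρ, (True) ∧ pos ρ = i0 := by
    obtain ⟨ρ, hρ⟩ : {p ∈ (univ : Set Ω) | pos p = i0}.Nonempty := by
      by_contra hemp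
      rw [not_nonempty_iff_eq_empty] at hemp
      rw [hemp] at hi0
      exact hi0 countable_empty
    exact ⟨ρ, trivial, hρ.2⟩
  refine ⟨i0, hρ1 ▸ hpos ρ1, ?_⟩
  intro ρ
  obtain ⟨ρ', hρρ', hpos'⟩ := hunb ρ
  obtain ⟨a', ha', J', h1, h2, e'', h3⟩ := hrec ρ'
  rw [hpos'] at h3
  exact ⟨a', hρρ'.trans ha', J', h1, h2, e'', h3⟩

/-- main claim: an uncountable family of pairwise disjoint tuples contains a sequence which is not
almost hit by any discrete set. -/
lemma Gen.claim (h : Gen E I x) (hE : Surjective E) (hinit : ∀ a : Ω, (Iio a).Countable)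
    (hunc : ¬ (univ : Set Ω).Countable) {n : ℕ} (F : Ω → Fin n → Ω)
    (hinj : ∀ a, Injective (F a)) (hpd : ∀ a b, a ≠ b → ∀ i j, F a i ≠ F b j) :
    ∃ s : ℕ → Ω, Injective s ∧ ∀ J, Disc x J → {m | ∀ i, F (s m) i ∉ J}.Infinite := by
  by_contra hcon
  push Not at hcon
  have hbase : ∀ σ : Fin 0 → Fin n, SS x F 0 σ := by
    intro σ ρ
    obtain ⟨a, -, ha⟩ := exists_gt_mem hinit hunc ρ
    by_cases hfin : (Iio a).Finite
    · exact ⟨a, ha, ∅, fun b hb => absurd hb (notMem_empty b), hfin.subset (fun b hb => hb.1),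
        fun _ => ∅, fun l => l.elim0⟩
    · have h1 : Countable (Iio a) := (hinit a).to_subtype
      have h2 : Infinite (Iio a) := Set.infinite_coe_iff.2 hfin
      obtain ⟨eq⟩ := nonempty_equiv_of_countable (α := ℕ) (β := Iio a)
      obtain ⟨J, hJ, hJfin⟩ := hcon (fun m => (eq m : Ω)) (fun m m' hmm' =>
        eq.injective (Subtype.ext hmm'))
      refine ⟨a, ha, J, hJ, ?_, fun _ => ∅, fun l => l.elim0⟩

      apply (hJfin.image (fun m => (eq m : Ω))).subset
      rintro b ⟨hb1, hb2⟩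
      refine ⟨eq.symm ⟨b, hb1⟩, ?_, ?_⟩
      · intro i
        simp only [Equiv.apply_symm_apply]
        exact hb2 i
      · simp
  have hall : ∀ j : ℕ, ∃ σ : Fin j → Fin n, Injective σ ∧ SS x F j σ := by
    intro j
    induction j with
    | zero => exact ⟨Fin.elim0, fun l => l.elim0, hbase _⟩
    | succ j ih =>
      obtain ⟨σ, hσ, hSS⟩ := ih
      obtain ⟨i, hi, hSS'⟩ := h.step hE hinit hunc F hinj hpd hSS
      refine ⟨Fin.snoc σ i, ?_, hSS'⟩
      rw [Fin.snoc_injective_iff]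
      exact ⟨hσ, hi⟩
  obtain ⟨σ, hσ, -⟩ := hall (n + 1)
  have := Fintype.card_le_of_injective σ hσ
  simp at this

end Pool.Agent.H64.Hfc
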