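import Pool.Agent.H64.Hfc2

set_option autoImplicit false

namespace Pool.Agent.H64.Hfc

open Set Function Cardinal

lemma exists_injection {Ω ι : Type} (hcard : #Ω = ℵ₁) {P : Set ι} (hP : ¬ P.Countable) :
    ∃ g : Ω → ι, Injective g ∧ ∀ a, g a ∈ P := by
  have h1 : ℵ₀ < #P := by
    rw [← not_le, mk_le_aleph0_iff]
    exact fun h => hP (Set.countable_coe_iff.1 h)
  have h2 : #Ω ≤ #P := by
    rw [hcard, ← succ_aleph0]
    exact Order.succ_le_of_lt h1
  obtain ⟨f⟩ := h2
  exact ⟨fun a => (f a : ι), fun a b h => f.injective (Subtype.ext h), fun a => (f a).2⟩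

variable {Ω : Type} [LinearOrder Ω]

/-- discrete index sets are countable -/
lemma Gen.disc_countable {E : Ω → Sq Ω} {I : Ω → Set Ω} {x : Ω → Ω → Bool} (h : Gen E I x)
    (hE : Surjective E) (hinit : ∀ a : Ω, (Iio a).Countable) (hcard : #Ω = ℵ₁)
    (hunc : ¬ (univ : Set Ω).Countable) {J : Set Ω} (hJ : Disc x J) : J.Countable := by
  by_contra hJc
  obtain ⟨g, hg1, hg2⟩ := exists_injection hcard hJc
  obtain ⟨s, -, hs⟩ := h.claim hE hinit hunc (n := 1) (fun a _ => g a)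
    (fun a i j _ => Subsingleton.elim i j) (fun a b hab i j h => hab (hg1 h))
  obtain ⟨m, hm⟩ := (hs J hJ).nonempty
  exact hm 0 (hg2 _)

/-- the set of points is an `HFC_w` space -/
lemma Gen.hfcw {E : Ω → Sq Ω} {I : Ω → Set Ω} {x : Ω → Ω → Bool} (h : Gen E I x)
    (hE : Surjective E) (hinit : ∀ a : Ω, (Iio a).Countable) (hcard : #Ω = ℵ₁)
    (hunc : ¬ (univ : Set Ω).Countable) {n : ℕ} {P : Set (Finset Ω)}
    (hn : ∀ F ∈ P, F.card = n) (hd : P.PairwiseDisjoint id) (hP : ¬ P.Countable) :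
    ∃ Q ⊆ P, Q.Countable ∧ ∀ b : Fin n → Bool,
      (range x \ ⋃ F ∈ Q, {y : Ω → Bool | ∃ h : F.card = n,
        ∀ i, y (F.orderEmbOfFin h i) = b i}).Countable := by
  obtain ⟨g, hg1, hg2⟩ := exists_injection hcard hP
  have hc : ∀ a, (g a).card = n := fun a => hn _ (hg2 a)
  let F : Ω → Fin n → Ω := fun a => (g a).orderEmbOfFin (hc a)
  have hinj : ∀ a, Injective (F a) := fun a => ((g a).orderEmbOfFin (hc a)).injective
  have hmem : ∀ a i, F a i ∈ g a := fun a i => Finset.orderEmbOfFin_mem _ _ _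
  have hpd : ∀ a b, a ≠ b → ∀ i j, F a i ≠ F b j := by
    intro a b hab i j heq
    have h1 : Disjoint (g a) (g b) := hd (hg2 a) (hg2 b) (fun h => hab (hg1 h))
    exact Finset.disjoint_left.1 h1 (hmem a i) (heq ▸ hmem b j)
  obtain ⟨s, hs1, hs2⟩ := h.claim hE hinit hunc F hinj hpd
  obtain ⟨v, hv⟩ := hE ⟨n, fun m => F (s m)⟩
  have hPD : Sq.PD (⟨n, fun m => F (s m)⟩ : Sq Ω) :=
    ⟨fun m => hinj _, fun m m' hne i k => hpd _ _ (fun h => hne (hs1 h)) i k⟩
  have hcount : (({v} : Set Ω) ∪ (range (fun t : ℕ × Fin n => F (s t.1) t.2))).Countable :=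
    (countable_singleton v).union (countable_range _)
  obtain ⟨z0, hz0⟩ := exists_bound hinit hunc hcount
  have hvz : v < z0 := hz0 v (Or.inl rfl)
  have hFz : ∀ m i, F (s m) i < z0 := fun m i => hz0 _ (Or.inr ⟨(m, i), rfl⟩)
  refine ⟨range (fun m => g (s m)), ?_, countable_range _, ?_⟩
  · rintro _ ⟨m, rfl⟩
    exact hg2 _
  · intro b
    apply ((hinit z0).image x).mono
    rintro _ ⟨⟨z, rfl⟩, hz⟩
    by_cases hzz : z < z0
    · exact ⟨z, hzz, rfl⟩
    · exfalso
      apply hz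
      have hle := not_lt.1 hzz
      obtain ⟨m, hm⟩ := h.row hv hPD (hvz.trans_le hle) (fun m i => (hFz m i).trans_le hle) hs2 b
      rw [mem_iUnion₂]
      exact ⟨g (s m), ⟨m, rfl⟩, hc _, hm⟩

/-- no discrete kernel for the assignment -/
lemma Gen.no_kernel {E : Ω → Sq Ω} {I : Ω → Set Ω} {x : Ω → Ω → Bool} (h : Gen E I x)
    (hE : Surjective E) (hinit : ∀ a : Ω, (Iio a).Countable) (hcard : #Ω = ℵ₁)
    (hunc : ¬ (univ : Set Ω).Countable)
    (hI : ∀ J : Set Ω, J.Countable → ∀ b, ∃ z, b < z ∧ I z = J) :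
    ∃ U : range x → Set (range x), (∀ y, IsOpen (U y) ∧ y ∈ U y) ∧
      ∀ D : Set (range x), DiscreteTopology D → ⋃ y ∈ D, U y ≠ Set.univ := by
  classical
  have hidx : ∀ y : range x, ∃ a, x a = y.1 := fun y => y.2
  choose a ha using hidx
  refine ⟨fun y => {w | w.1 (a y) = true}, fun y => ⟨?_, ?_⟩, ?_⟩
  · have h1 : IsOpen ({true} : Set Bool) := isOpen_discrete _
    have h2 : Continuous (fun w : range x => w.1 (a y)) :=
      (continuous_apply (a y)).comp continuous_subtype_val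
    exact h1.preimage h2
  · show y.1 (a y) = true
    rw [← ha y]
    exact h.diag _
  · intro D hD hcov
    set J := a '' D with hJ
    have hdisc : Disc x J := by
      rintro _ ⟨y, hy, rfl⟩
      obtain ⟨O, hO, hOD⟩ := isOpen_induced_iff.1 (isOpen_discrete ({⟨y, hy⟩} : Set D))
      obtain ⟨O', hO', hOO'⟩ := isOpen_induced_iff.1 hO
      have hyO : y.1 ∈ O' := by
        have : (⟨y, hy⟩ : D) ∈ Subtype.val ⁻¹' O := by rw [hOD]; rfl
        have h2 : y ∈ O := this
        rw [← hOO'] at h2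
        exact h2
      obtain ⟨e, u, hu, heO⟩ := isOpen_pi_iff.1 hO' y.1 hyO
      refine ⟨e, ?_⟩
      rintro _ ⟨w, hw, rfl⟩ hag
      rw [ha w, ha y] at hag
      have hwO : w.1 ∈ O' := by
        apply heO
        intro g hg
        rw [hag g hg]
        exact (hu g hg).2
      have h3 : w ∈ O := by rw [← hOO']; exact hwO
      have h4 : (⟨w, hw⟩ : D) ∈ Subtype.val ⁻¹' O := h3
      rw [hOD] at h4
      have h5 : w = y := congrArg Subtype.val (mem_singleton_iff.1 h4)
      rw [h5]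
    have hJc : J.Countable := h.disc_countable hE hinit hcard hunc hdisc
    -- bound for the supports
    have hex : ∀ α : J, ∃ e : Finset Ω, ∀ b ∈ J, (∀ g ∈ e, x b g = x α g) → b = α :=
      fun α => hdisc α α.2
    choose e he using hex
    have hJc' : Countable J := hJc.to_subtype
    have hcount : (J ∪ ⋃ α : J, (e α : Set Ω)).Countable :=
      hJc.union (countable_iUnion (fun α => (e α).countable_toSet))
    obtain ⟨z1, hz1⟩ := exists_bound hinit hunc hcount
    obtain ⟨z, hz1z, hIz⟩ := hI J hJc z1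
    have hJz : ∀ α ∈ J, α < z := fun α hα => (hz1 α (Or.inl hα)).trans hz1z
    have hJset : Jset I z (trunc z x) = J := by
      unfold Jset
      rw [if_pos, hIz]
      rw [hIz]
      refine ⟨hJz, fun α hα => ⟨e ⟨α, hα⟩, fun β hβ hag => ?_⟩⟩
      apply he ⟨α, hα⟩ β hβ
      intro g hg
      have hgz : g < z := (hz1 g (Or.inr (mem_iUnion.2 ⟨⟨α, hα⟩, hg⟩))).trans hz1z
      have := hag g hg
      rwa [trunc_apply (hJz β hβ) hgz, trunc_apply (hJz α hα) hgz] at this
    obtain ⟨r, c, hst, hr, -⟩ := h.stage z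
    have hz0 : ∀ α ∈ J, x z α = false := by
      intro α hα
      rw [hr α (hJz α hα)]
      exact hst.row0 α (by rw [hJset]; exact hα)
    have hmem : (⟨x z, ⟨z, rfl⟩⟩ : range x) ∈ ⋃ y ∈ D, {w : range x | w.1 (a y) = true} := by
      rw [hcov]; exact mem_univ _
    rw [mem_iUnion₂] at hmem
    obtain ⟨y, hy, hy'⟩ := hmem
    have hy'' : x z (a y) = true := hy'
    rw [hz0 _ ⟨y, hy, rfl⟩] at hy''
    exact absurd hy'' (by simp)

/-- enumerations from CH -/
lemma exists_enum (hCH : continuum.{0} = ℵ₁) (hcard : #Ω = ℵ₁) (hinit : ∀ a : Ω, (Iio a).Countable)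
    (hunc : ¬ (univ : Set Ω).Countable) :
    (∃ E : Ω → Sq Ω, Surjective E) ∧
      ∃ I : Ω → Set Ω, ∀ J : Set Ω, J.Countable → ∀ b, ∃ z, b < z ∧ I z = J := by
  have hΩ : #Ω = 𝔠 := hcard.trans hCH.symm
  have hne : Nonempty Ω := by
    by_contra hemp
    rw [not_nonempty_iff] at hemp
    exact hunc (Set.to_countable _)
  constructor
  · have h1 : #(Sq Ω) ≤ #Ω := by
      rw [hΩ, mk_sigma]
      have h2 : ∀ n : ℕ, #(ℕ → Fin n → Ω) ≤ 𝔠 := by
        intro n
        have h3 : #(Fin n → Ω) ≤ 𝔠 := by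
          rw [← power_def, hΩ]
          calc 𝔠 ^ #(Fin n) ≤ 𝔠 ^ ℵ₀ := power_le_power_left continuum_ne_zero (by simp [natCast_lt_aleph0.le])
            _ = 𝔠 := continuum_power_aleph0
        rw [← power_def, mk_nat]
        calc #(Fin n → Ω) ^ ℵ₀ ≤ 𝔠 ^ ℵ₀ := power_le_power_right h3
          _ = 𝔠 := continuum_power_aleph0
      calc Cardinal.sum (fun n : ℕ => #(ℕ → Fin n → Ω)) ≤ Cardinal.sum (fun _ : ℕ => 𝔠) :=
            sum_le_sum _ _ h2
        _ = 𝔠 := by
          rw [sum_const, lift_id, lift_id, mk_nat, aleph0_mul_continuum]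
    obtain ⟨f⟩ := h1
    have hneS : Nonempty (Sq Ω) := ⟨⟨0, fun _ i => i.elim0⟩⟩
    exact ⟨invFun f, invFun_surjective f.injective⟩
  · have h1 : #((ℕ → Option Ω) × Ω) ≤ #Ω := by
      have h2 : #(Option Ω) = 𝔠 := by
        rw [mk_option, hΩ]
        exact add_one_eq aleph0_le_continuum
      rw [mk_prod, lift_id, lift_id, ← power_def, h2, mk_nat, continuum_power_aleph0, hΩ,
        continuum_mul_self]
    obtain ⟨f⟩ := h1
    have hneS : Nonempty ((ℕ → Option Ω) × Ω) := ⟨(fun _ => none, Classical.arbitrary Ω)⟩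
    have hsurj := invFun_surjective f.injective
    refine ⟨fun z => {a | ∃ m, (invFun f z).1 m = some a}, fun J hJ b => ?_⟩
    obtain ⟨s, hs⟩ : ∃ s : ℕ → Option Ω, {a | ∃ m, s m = some a} = J := by
      rcases J.eq_empty_or_nonempty with rfl | hJne
      · exact ⟨fun _ => none, by ext a; simp⟩
      · obtain ⟨g, hg⟩ := hJ.exists_eq_range hJne
        refine ⟨fun m => some (g m), ?_⟩
        rw [hg]
        ext a
        simp
    have hunb : ¬ {z | (invFun f z).1 = s}.Countable := by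
      intro hc
      apply hunc
      have : (univ : Set Ω) ⊆ (fun z => (invFun f z).2) '' {z | (invFun f z).1 = s} := by
        intro w _
        obtain ⟨z, hz⟩ := hsurj (s, w)
        exact ⟨z, by simp [hz], by simp [hz]⟩
      exact (hc.image _).mono this
    obtain ⟨z, hz, hbz⟩ := exists_gt_mem hinit hunb b
    refine ⟨z, hbz, ?_⟩
    have hz' : (invFun f z).1 = s := hz
    simp only [hz']
    exact hs

/-- main theorem in explicit form -/
theorem main (hCH : continuum.{0} = ℵ₁) [WellFoundedLT Ω] (hcard : #Ω = ℵ₁)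
    (hinit : ∀ a : Ω, (Iio a).Countable) :
    ∃ X : Set (Ω → Bool), (∀ (n : ℕ) (P : Set (Finset Ω)), (∀ F ∈ P, F.card = n) →
      P.PairwiseDisjoint id → ¬ P.Countable → ∃ Q ⊆ P, Q.Countable ∧ ∀ b : Fin n → Bool,
      (X \ ⋃ F ∈ Q, {y : Ω → Bool | ∃ h : F.card = n,
        ∀ i, y (F.orderEmbOfFin h i) = b i}).Countable) ∧
      ∃ U : X → Set X, (∀ y, IsOpen (U y) ∧ y ∈ U y) ∧
      ∀ D : Set X, DiscreteTopology D → ⋃ y ∈ D, U y ≠ Set.univ := by
  have hunc : ¬ (univ : Set Ω).Countable := by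
    intro hc
    have h1 : #Ω ≤ ℵ₀ := by
      rw [mk_le_aleph0_iff]
      exact Set.countable_univ_iff.1 hc
    rw [hcard] at h1
    exact absurd aleph0_lt_aleph_one (not_lt.2 h1)
  obtain ⟨⟨E, hE⟩, I, hI⟩ := exists_enum hCH hcard hinit hunc
  obtain ⟨x, hx1, hx2⟩ := exists_matrix hinit E I
  have h : Gen E I x := ⟨hx1, hx2⟩
  exact ⟨range x, fun n P hn hd hP => h.hfcw hE hinit hcard hunc hn hd hP,
    h.no_kernel hE hinit hcard hunc hI⟩

end Pool.Agent.H64.Hfc
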