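import Pool.Agent.H64.Basic

set_option autoImplicit false

namespace Pool.Agent.H64

open Set Metric Filter Topology

variable {X : Type*} [MetricSpace X]

/-- Persistence: `r` and `r'` cannot be separated inside small neighbourhoods of `N` by a finite
set together with `A`. -/
def Pr (A N : Set X) (r r' : X) : Prop :=
  ∀ W : Set X, IsOpen W → N ⊆ W → ∀ F : Set X, F.Finite → r ∉ F → r' ∉ F →
    J (W \ (F ∪ A)) r r'

lemma Pr.symm {A N : Set X} {r r' : X} (h : Pr A N r r') : Pr A N r' r :=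
  fun W hW hN F hF h1 h2 => (h W hW hN F hF h2 h1).symm

lemma Pr.mono {A N N' : Set X} {r r' : X} (h : Pr A N r r') (hN : N ⊆ N') : Pr A N' r r' :=
  fun W hW hN' F hF h1 h2 => h W hW (hN.trans hN') F hF h1 h2

lemma Pr.anti {A A' N : Set X} {r r' : X} (h : Pr A' N r r') (hA : A ⊆ A') : Pr A N r r' :=
  fun W hW hN F hF h1 h2 => (h W hW hN F hF h1 h2).mono
    (sdiff_subset_sdiff_right (union_subset_union_right _ hA))

lemma Pr.left_notMem {A N : Set X} {r r' : X} (h : Pr A N r r') : r ∉ A := by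
  have := h univ isOpen_univ (subset_univ _) ∅ finite_empty (by simp) (by simp)
  intro hr
  exact this.left_mem.2 (Or.inr hr)

lemma Pr.left_mem {A N : Set X} {r r' : X} (hN : IsClosed N) (h : Pr A N r r') : r ∈ N := by
  by_contra hr
  have := h {r}ᶜ isClosed_singleton.isOpen_compl (by
    intro x hx hxr
    rw [mem_singleton_iff] at hxr
    exact hr (hxr ▸ hx)) ∅ finite_empty (by simp) (by simp)
  exact this.left_mem.1 rfl

lemma Pr.right_mem {A N : Set X} {r r' : X} (hN : IsClosed N) (h : Pr A N r r') : r' ∈ N :=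
  h.symm.left_mem hN

lemma Pr.right_notMem {A N : Set X} {r r' : X} (h : Pr A N r r') : r' ∉ A :=
  h.symm.left_notMem

/-- adding finitely many points. -/
lemma Pr.add_finite {A N E : Set X} {r r' : X} (h : Pr A N r r') (hE : E.Finite) (hr : r ∉ E)
    (hr' : r' ∉ E) : Pr (A ∪ E) N r r' := by
  intro W hW hN F hF h1 h2
  have := h W hW hN (F ∪ E) (hF.union hE) (by simp [h1, hr]) (by simp [h2, hr'])
  refine this.mono ?_
  intro x hx
  refine ⟨hx.1, fun h => hx.2 ?_⟩
  rcases h with h | h | h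
  · exact Or.inl (Or.inl h)
  · exact Or.inr h
  · exact Or.inl (Or.inr h)

/-- adding a closed set disjoint from `N`. -/
lemma Pr.add_disjoint {A N K : Set X} {r r' : X} (h : Pr A N r r') (hK : IsClosed K)
    (hKN : Disjoint K N) : Pr (A ∪ K) N r r' := by
  intro W hW hN F hF h1 h2
  have := h (W \ K) (hW.sdiff hK) (by
    intro x hx
    exact ⟨hN hx, fun hxK => Set.disjoint_left.1 hKN hxK hx⟩) F hF h1 h2
  refine this.mono ?_
  intro x hx
  refine ⟨hx.1.1, fun h => ?_⟩
  rcases h with h | h | h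
  · exact hx.2 (Or.inl h)
  · exact hx.2 (Or.inr h)
  · exact hx.1.2 h

/-- minimal closed sets with persistence. -/
def PrMin (A N : Set X) (r r' : X) : Prop :=
  IsClosed N ∧ Pr A N r r' ∧ ∀ N' : Set X, N' ⊆ N → IsClosed N' → Pr A N' r r' → N' = N

lemma PrMin.symm {A N : Set X} {r r' : X} (h : PrMin A N r r') : PrMin A N r' r :=
  ⟨h.1, h.2.1.symm, fun N' h1 h2 h3 => h.2.2 N' h1 h2 h3.symm⟩

lemma PrMin.of_subset {A A' N : Set X} {r r' : X} (h : PrMin A N r r') (hA : A ⊆ A')
    (h' : Pr A' N r r') : PrMin A' N r r' :=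
  ⟨h.1, h', fun N' h1 h2 h3 => h.2.2 N' h1 h2 (h3.anti hA)⟩

lemma exists_PrMin [CompactSpace X] {A N : Set X} {r r' : X} (hN : IsClosed N)
    (h : Pr A N r r') : ∃ M, M ⊆ N ∧ PrMin A M r r' := by
  obtain ⟨m, hm1, hm2⟩ := zorn_superset_nonempty {N' : Set X | IsClosed N' ∧ Pr A N' r r'} (by
    intro c hc hchain hne
    refine ⟨⋂₀ c, ⟨isClosed_sInter (fun s hs => (hc hs).1), ?_⟩, fun s hs => sInter_subset_of_mem hs⟩
    intro W hW hsub F hF h1 h2
    have : Nonempty c := hne.to_subtype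
    have hdir : Directed (· ⊇ ·) (fun s : c => (s : Set X)) := by
      intro s t
      rcases hchain.total s.2 t.2 with h | h
      · exact ⟨s, subset_rfl, h⟩
      · exact ⟨t, h, subset_rfl⟩
    obtain ⟨s, hs⟩ := exists_subset_nhds_of_compactSpace hdir (fun s => (hc s.2).1) (U := W) (by
      intro x hx
      apply hW.mem_nhds
      apply hsub
      rw [mem_sInter]
      intro t ht
      exact mem_iInter.1 hx ⟨t, ht⟩)
    exact (hc s.2).2 W hW hs F hF h1 h2) N ⟨hN, h⟩
  refine ⟨m, hm1, hm2.1.1, hm2.1.2, ?_⟩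
  intro N' h1 h2 h3
  exact h1.antisymm (hm2.2 ⟨h2, h3⟩ h1)

lemma PrMin.isPreconnected {A N : Set X} {r r' : X} (h : PrMin A N r r') : IsPreconnected N := by
  rw [isPreconnected_closed_iff]
  have key : ∀ t t' : Set X, IsClosed t → IsClosed t' → N ⊆ t ∪ t' → r ∈ t →
      (N ∩ t').Nonempty → (N ∩ (t ∩ t')).Nonempty := by
    intro t t' ht ht' hsub hr hne
    by_contra hcon
    rw [not_nonempty_iff_eq_empty] at hcon
    have hdisj : Disjoint (N ∩ t) (N ∩ t') := by
      rw [Set.disjoint_left]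
      rintro x ⟨h1, h2⟩ ⟨-, h3⟩
      have : x ∈ N ∩ (t ∩ t') := ⟨h1, h2, h3⟩
      rw [hcon] at this
      exact this
    obtain ⟨WP, WQ, hWP, hWQ, hP, hQ, hPQ⟩ := normal_separation (h.1.inter ht) (h.1.inter ht') hdisj
    have hPr : Pr A (N ∩ t) r r' := by
      intro W hW hNW F hF h1 h2
      obtain ⟨C, hC1, hC2, hrC, hr'C⟩ := h.2.1 ((W ∩ WP) ∪ WQ) ((hW.inter hWP).union hWQ) (by
        intro x hx
        rcases hsub hx with h | h
        · exact Or.inl ⟨hNW ⟨hx, h⟩, hP ⟨hx, h⟩⟩
        · exact Or.inr (hQ ⟨hx, h⟩)) F hF h1 h2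
      have hrN : r ∈ N := h.2.1.left_mem h.1
      have hC3 : C ⊆ W ∩ WP := by
        apply hC2.subset_left_of_subset_union (hW.inter hWP) hWQ (hPQ.mono_left inter_subset_right)
        · exact fun x hx => (hC1 hx).1
        · exact ⟨r, hrC, hNW ⟨hrN, hr⟩, hP ⟨hrN, hr⟩⟩
      exact ⟨C, fun x hx => ⟨(hC3 hx).1, (hC1 hx).2⟩, hC2, hrC, hr'C⟩
    have heq := h.2.2 _ inter_subset_left (h.1.inter ht) hPr
    obtain ⟨x, hx1, hx2⟩ := hne
    exact Set.disjoint_left.1 hdisj (heq.symm ▸ hx1) ⟨hx1, hx2⟩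
  intro t t' ht ht' hsub h1 h2
  rcases hsub (h.2.1.left_mem h.1) with hr | hr
  · exact key t t' ht ht' hsub hr h2
  · have := key t' t ht' ht (by rwa [union_comm]) hr h1
    rwa [inter_comm t' t] at this

/-- all points of a minimal set are linked to the end point. -/
lemma PrMin.link [LocallyConnectedSpace X] {A N : Set X} {r r' u : X} (hA : IsClosed A)
    (h : PrMin A N r r') (hu : u ∈ N) (huA : u ∉ A) : Pr A N r u := by
  intro W hW hNW F hF hrF huF
  by_contra hcon
  set O := W \ (F ∪ A) with hO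
  have hOo : IsOpen O := hW.sdiff (hF.isClosed.union hA)
  set W1 := connectedComponentIn O r with hW1
  set W2 := O \ closure W1 with hW2
  have hrN : r ∈ N := h.2.1.left_mem h.1
  have hr'N : r' ∈ N := h.2.1.right_mem h.1
  have hrA := h.2.1.left_notMem
  have hr'A := h.2.1.right_notMem
  have hrO : r ∈ O := ⟨hNW hrN, fun h => h.elim hrF hrA⟩
  have huO : u ∈ O := ⟨hNW hu, fun h => h.elim huF huA⟩
  have hW1o : IsOpen W1 := hOo.connectedComponentIn
  have hW2o : IsOpen W2 := hOo.sdiff isClosed_closure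
  have hcl : closure W1 ∩ O ⊆ W1 := closure_comp_inter hOo
  have hrW1 : r ∈ W1 := mem_connectedComponentIn hrO
  have huW2 : u ∈ W2 := ⟨huO, fun h => hcon (J_iff.2 ⟨hrO, hcl ⟨h, huO⟩⟩)⟩
  have hdisj : Disjoint W1 W2 := by
    rw [Set.disjoint_left]
    exact fun x hx hx' => hx'.2 (subset_closure hx)
  have hcov : O ⊆ W1 ∪ W2 := by
    intro x hx
    by_cases hx1 : x ∈ closure W1
    · exact Or.inl (hcl ⟨hx1, hx⟩)
    · exact Or.inr ⟨hx, hx1⟩
  have hN1 : IsClosed (N \ W2) := h.1.sdiff hW2o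
  have hPr : Pr A (N \ W2) r r' := by
    intro W' hW' hNW' F' hF' hrF' hr'F'
    have hNsub : N ⊆ (W' ∪ W2) ∩ W := by
      intro x hx
      refine ⟨?_, hNW hx⟩
      by_cases hx2 : x ∈ W2
      · exact Or.inr hx2
      · exact Or.inl (hNW' ⟨hx, hx2⟩)
    by_cases hr'F : r' ∈ F
    · obtain ⟨C, hC1, hC2, hrC, hr'C⟩ := h.2.1 ((W' ∪ W2) ∩ W) ((hW'.union hW2o).inter hW) hNsub
        ((F \ {r'}) ∪ F') ((hF.subset sdiff_subset).union hF')
        (by rintro (h | h); exacts [hrF h.1, hrF' h]) (by rintro (h | h); exacts [h.2 rfl, hr'F' h])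
      have hCcov : C ⊆ insert r' (W1 ∪ W2) := by
        intro x hx
        by_cases hxr : x = r'
        · exact Or.inl hxr
        · right
          apply hcov
          refine ⟨(hC1 hx).1.2, ?_⟩
          rintro (h | h)
          · exact (hC1 hx).2 (Or.inl (Or.inl ⟨h, hxr⟩))
          · exact (hC1 hx).2 (Or.inr h)
      refine ⟨insert r' (C ∩ W1), ?_, isPreconnected_insert_inter hC2 hr'C hW1o hW2o hdisj hCcov,
        Or.inr ⟨hrC, hrW1⟩, mem_insert _ _⟩
      rintro x (rfl | ⟨hxC, hxW1⟩)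
      · refine ⟨hNW' ⟨hr'N, fun h => h.1.2 (Or.inl hr'F)⟩, ?_⟩
        rintro (h | h)
        exacts [hr'F' h, hr'A h]
      · refine ⟨?_, ?_⟩
        · rcases (hC1 hxC).1.1 with h | h
          · exact h
          · exact absurd h (Set.disjoint_left.1 hdisj hxW1)
        · rintro (h | h)
          · exact (hC1 hxC).2 (Or.inl (Or.inr h))
          · exact (hC1 hxC).2 (Or.inr h)
    · obtain ⟨C, hC1, hC2, hrC, hr'C⟩ := h.2.1 ((W' ∪ W2) ∩ W) ((hW'.union hW2o).inter hW) hNsub
        (F ∪ F') (hF.union hF') (by rintro (h | h); exacts [hrF h, hrF' h])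
        (by rintro (h | h); exacts [hr'F h, hr'F' h])
      have hCO : C ⊆ O := by
        intro x hx
        refine ⟨(hC1 hx).1.2, ?_⟩
        rintro (h | h)
        · exact (hC1 hx).2 (Or.inl (Or.inl h))
        · exact (hC1 hx).2 (Or.inr h)
      have hCW1 : C ⊆ W1 := hC2.subset_connectedComponentIn hrC hCO
      refine ⟨C, ?_, hC2, hrC, hr'C⟩
      intro x hx
      refine ⟨?_, ?_⟩
      · rcases (hC1 hx).1.1 with h | h
        · exact h
        · exact absurd h (Set.disjoint_left.1 hdisj (hCW1 hx))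
      · rintro (h | h)
        · exact (hC1 hx).2 (Or.inl (Or.inr h))
        · exact (hC1 hx).2 (Or.inr h)
  have heq := h.2.2 _ sdiff_subset hN1 hPr
  have : u ∈ N \ W2 := heq.symm ▸ hu
  exact this.2 huW2

lemma exists_small_open [LocallyConnectedSpace X] {Z K : Set X} (hZ : IsOpen Z)
    (hK : IsCompact K) (hKZ : K ⊆ closure Z) {m : X} (hm : m ∈ Z)
    (h : ∀ p ∈ K, ¬ Pr ∅ (closure Z) m p) :
    ∃ V, IsOpen V ∧ m ∈ V ∧ V ⊆ Z ∧ Disjoint (closure V) K ∧ (frontier V ∩ Z).Finite := by
  refine hK.induction_on (p := fun S => ∃ V, IsOpen V ∧ m ∈ V ∧ V ⊆ Z ∧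
    Disjoint (closure V) S ∧ (frontier V ∩ Z).Finite) ?_ ?_ ?_ ?_
  · refine ⟨Z, hZ, hm, subset_rfl, disjoint_empty _, ?_⟩
    have : frontier Z ∩ Z = ∅ := by
      rw [hZ.frontier_eq]
      ext x
      simp
    rw [this]
    exact finite_empty
  · rintro s t hst ⟨V, h1, h2, h3, h4, h5⟩
    exact ⟨V, h1, h2, h3, h4.mono_right hst, h5⟩
  · rintro s t ⟨V, h1, h2, h3, h4, h5⟩ ⟨V', h1', h2', h3', h4', h5'⟩
    refine ⟨V ∩ V', h1.inter h1', ⟨h2, h2'⟩, inter_subset_left.trans h3, ?_, ?_⟩
    · rw [Set.disjoint_left]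
      intro x hx hx'
      have hx1 := closure_inter_subset_inter_closure V V' hx
      rcases hx' with h | h
      · exact Set.disjoint_left.1 h4 hx1.1 h
      · exact Set.disjoint_left.1 h4' hx1.2 h
    · apply (h5.union h5').subset
      rintro x ⟨hx1, hx2⟩
      rcases frontier_inter_subset V V' hx1 with h | h
      · exact Or.inl ⟨h.1, hx2⟩
      · exact Or.inr ⟨h.2, hx2⟩
  · intro p hp
    have hnp := h p hp
    unfold Pr at hnp
    push Not at hnp
    obtain ⟨W, hW, hZW, F, hF, hmF, hpF, hJ⟩ := hnp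
    rw [union_empty] at hJ
    have hOo : IsOpen (W \ F) := hW.sdiff hF.isClosed
    have hmO : m ∈ W \ F := ⟨hZW (subset_closure hm), hmF⟩
    have hpO : p ∈ W \ F := ⟨hZW (hKZ hp), hpF⟩
    have hVo : IsOpen (connectedComponentIn (W \ F) m) := hOo.connectedComponentIn
    have hcl : closure (connectedComponentIn (W \ F) m) ∩ (W \ F) ⊆ connectedComponentIn (W \ F) m :=
      closure_comp_inter hOo
    refine ⟨(closure (connectedComponentIn (W \ F) m))ᶜ, ?_, Z ∩ connectedComponentIn (W \ F) m,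
      hZ.inter hVo, ⟨hm, mem_connectedComponentIn hmO⟩, inter_subset_left, ?_, ?_⟩
    · apply mem_nhdsWithin_of_mem_nhds
      apply isClosed_closure.isOpen_compl.mem_nhds
      intro hpc
      exact hJ (J_iff.2 ⟨hmO, hcl ⟨hpc, hpO⟩⟩)
    · rw [Set.disjoint_left]
      intro x hx hx'
      exact hx' (closure_mono inter_subset_right hx)
    · apply hF.subset
      rintro x ⟨hx1, hx2⟩
      by_contra hxF
      have hxO : x ∈ W \ F := ⟨hZW (subset_closure hx2), hxF⟩
      rcases frontier_inter_subset _ _ hx1 with h | h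
      · rw [hZ.frontier_eq] at h
        exact h.1.2 hx2
      · rw [hVo.frontier_eq] at h
        exact h.2.2 (hcl ⟨h.2.1, hxO⟩)

lemma PrMin.mem_closure {A N V : Set X} {r r' m : X} (h : PrMin A N r r') (hm : m ∈ N)
    (hV : IsOpen V) (hmV : m ∈ V) (hfV : (frontier V).Finite) : r' ∈ closure V := by
  by_contra hr'
  have hr'f : r' ∉ frontier V := fun h => hr' (frontier_subset_closure h)
  have hr'A := h.2.1.right_notMem
  by_cases hrV : r ∈ V
  · have hrf : r ∉ frontier V := by
      rw [hV.frontier_eq]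
      exact fun h => h.2 hrV
    have hJ := h.2.1 univ isOpen_univ (subset_univ _) (frontier V) hfV hrf hr'f
    apply hr'
    apply subset_closure
    apply hJ.mem_of_clopen hV _ hrV
    rintro x ⟨hx1, hx2⟩
    by_contra hxV
    apply hx2.2
    left
    rw [hV.frontier_eq]
    exact ⟨hx1, hxV⟩
  · have hPr : Pr A (N \ V) r r' := by
      intro W' hW' hNW' F' hF' hrF' hr'F'
      obtain ⟨C, hC1, hC2, hrC, hr'C⟩ := h.2.1 (W' ∪ V) (hW'.union hV) (by
        intro x hx
        by_cases hxV : x ∈ V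
        · exact Or.inr hxV
        · exact Or.inl (hNW' ⟨hx, hxV⟩)) (F' ∪ (frontier V \ {r})) (hF'.union (hfV.subset sdiff_subset))
        (by rintro (h | h); exacts [hrF' h, h.2 rfl]) (by rintro (h | h); exacts [hr'F' h, hr'f h.1])
      have hcov : C ⊆ insert r ((closure V)ᶜ ∪ V) := by
        intro x hx
        by_cases hxr : x = r
        · exact Or.inl hxr
        · right
          by_cases hxV : x ∈ V
          · exact Or.inr hxV
          · left
            intro hxc
            apply (hC1 hx).2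
            left
            right
            rw [hV.frontier_eq]
            exact ⟨⟨hxc, hxV⟩, hxr⟩
      refine ⟨insert r (C ∩ (closure V)ᶜ), ?_, isPreconnected_insert_inter hC2 hrC
        isClosed_closure.isOpen_compl hV ?_ hcov, mem_insert _ _, Or.inr ⟨hr'C, hr'⟩⟩
      · rintro x (rfl | ⟨hxC, hxV⟩)
        · refine ⟨hNW' ⟨h.2.1.left_mem h.1, hrV⟩, ?_⟩
          rintro (h' | h')
          exacts [hrF' h', h.2.1.left_notMem h']
        · refine ⟨?_, ?_⟩
          · rcases (hC1 hxC).1 with h | h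
            · exact h
            · exact absurd (subset_closure h) hxV
          · rintro (h | h)
            · exact (hC1 hxC).2 (Or.inl (Or.inl h))
            · exact (hC1 hxC).2 (Or.inr h)
      · rw [Set.disjoint_left]
        exact fun x hx hx' => hx (subset_closure hx')
    have heq := h.2.2 _ sdiff_subset (h.1.sdiff hV) hPr
    have : m ∈ N \ V := heq.symm ▸ hm
    exact this.2 hmV

lemma PrMin.exists_link [CompactSpace X] [LocallyConnectedSpace X] {A N Z : Set X} {r r' m : X}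
    (h : PrMin A N r r') (hm : m ∈ N) (hZ : IsOpen Z) (hmZ : m ∈ Z)
    (hr : ¬ (r ∈ closure Z ∧ r' ∈ closure Z)) : ∃ p ∈ frontier Z, Pr ∅ (closure Z) m p := by
  by_contra hcon
  push Not at hcon
  obtain ⟨V, h1, h2, h3, h4, h5⟩ := exists_small_open hZ (K := frontier Z)
    isClosed_frontier.isCompact frontier_subset_closure hmZ hcon
  have hcl : closure V ⊆ Z := by
    intro x hx
    by_contra hxZ
    apply Set.disjoint_left.1 h4 hx
    rw [hZ.frontier_eq]
    exact ⟨closure_mono h3 hx, hxZ⟩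
  have hfin : (frontier V).Finite := by
    apply h5.subset
    intro x hx
    exact ⟨hx, hcl (frontier_subset_closure hx)⟩
  apply hr
  exact ⟨closure_mono h3 (h.symm.mem_closure hm h1 h2 hfin),
    closure_mono h3 (h.mem_closure hm h1 h2 hfin)⟩

/-- sequences of continua with diameter bounded below meet their limit superior. -/
lemma Star.exists_limsup (hS : Star X) {ε : ℝ} (hε : 0 < ε) (M : ℕ → Set X)
    (hM : ∀ n, IsPreconnected (M n)) (hMc : ∀ n, IsCompact (M n))
    (hd : ∀ n, ε ≤ Metric.diam (M n)) :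
    ∃ k, ∃ u ∈ M k, ∀ n, u ∈ closure (⋃ j ∈ {j | n ≤ j}, M j) := by
  by_contra hcon
  push Not at hcon
  have hex : ∀ k, ∃ n, ∀ j, n ≤ j → Disjoint (M k) (M j) := by
    intro k
    obtain ⟨n, hn⟩ := (hMc k).elim_directed_cover (fun n => (closure (⋃ j ∈ {j | n ≤ j}, M j))ᶜ)
      (fun n => isClosed_closure.isOpen_compl) (by
        intro u hu
        obtain ⟨n, hn⟩ := hcon k u hu
        exact mem_iUnion.2 ⟨n, hn⟩) (by
        intro a b
        refine ⟨max a b, ?_, ?_⟩
        · apply compl_subset_compl.2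
          apply closure_mono
          intro x hx
          simp only [mem_ofPred_eq, mem_iUnion, exists_prop] at hx ⊢
          obtain ⟨i, hi, hi'⟩ := hx
          exact ⟨i, le_trans (le_max_left _ _) hi, hi'⟩
        · apply compl_subset_compl.2
          apply closure_mono
          intro x hx
          simp only [mem_ofPred_eq, mem_iUnion, exists_prop] at hx ⊢
          obtain ⟨i, hi, hi'⟩ := hx
          exact ⟨i, le_trans (le_max_right _ _) hi, hi'⟩)
    refine ⟨n, fun j hj => ?_⟩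
    rw [Set.disjoint_left]
    intro x hx hx'
    apply hn hx
    apply subset_closure
    simp only [mem_ofPred_eq, mem_iUnion, exists_prop]
    exact ⟨j, hj, hx'⟩
  choose n hn using hex
  let φ : ℕ → ℕ := fun i => Nat.rec 0 (fun _ p => max (n p) (p + 1)) i
  have hφ : ∀ i, φ (i + 1) = max (n (φ i)) (φ i + 1) := fun i => rfl
  have hmono : StrictMono φ := strictMono_nat_of_lt_succ (fun i => by
    rw [hφ]; exact lt_of_lt_of_le (Nat.lt_succ_self _) (le_max_right _ _))
  have hlt : ∀ i j, i < j → Disjoint (M (φ i)) (M (φ j)) := by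
    intro i j hij
    apply hn
    calc n (φ i) ≤ φ (i + 1) := by rw [hφ]; exact le_max_left _ _
      _ ≤ φ j := hmono.monotone hij
  apply hS ε hε
  refine ⟨fun i => M (φ i), fun i => hM _, ?_, fun i => hd _⟩
  intro i j hij
  rcases lt_or_gt_of_ne hij with h | h
  · exact hlt i j h
  · exact (hlt j i h).symm

lemma local_linking [CompactSpace X] [LocallyConnectedSpace X] (hS : Star X) {ι : Type*}
    (N A : ι → Set X) (r r' : ι → X) (h : ∀ i, PrMin (A i) (N i) (r i) (r' i)) {ρ : ℝ}
    (hρ : 0 < ρ) (hρ' : ∀ i, ρ < dist (r i) (r' i)) (y : X) (R : X → X → Prop)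
    (hR : ∀ u v, Pr ∅ (closedBall y ρ) u v → R u v) (hsymm : ∀ u v, R u v → R v u)
    (htrans : ∀ u v w, R u v → R v w → R u w) :
    ∃ s > 0, ∀ i, ∀ m ∈ N i, dist m y < s → R m y := by
  by_contra hcon
  push Not at hcon
  have hex : ∀ k : ℕ, ∃ i, ∃ m ∈ N i, dist m y < min (1 / ((k : ℝ) + 1)) (ρ / 2) ∧ ¬ R m y := by
    intro k
    exact hcon _ (lt_min (by positivity) (half_pos hρ))
  choose i m hmN hmd hmR using hex
  have hp : ∀ k, ∃ M : Set X, IsClosed M ∧ IsPreconnected M ∧ ρ / 2 ≤ Metric.diam M ∧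
      (∀ u ∈ M, Pr ∅ (closedBall y ρ) (m k) u) := by
    intro k
    obtain ⟨p, hp1, hp2⟩ := (h (i k)).exists_link (hmN k) (Z := ball (m k) (ρ/2)) isOpen_ball
      (mem_ball_self (half_pos hρ)) (by
        rintro ⟨h1, h2⟩
        have h1' : dist (r (i k)) (m k) ≤ ρ / 2 := closure_ball_subset_closedBall h1
        have h2' : dist (r' (i k)) (m k) ≤ ρ / 2 := closure_ball_subset_closedBall h2
        have h3 := dist_triangle_right (r (i k)) (r' (i k)) (m k)
        have h4 := hρ' (i k)
        linarith)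
    obtain ⟨M, hM1, hM2⟩ := exists_PrMin isClosed_closure hp2
    refine ⟨M, hM2.1, hM2.isPreconnected, ?_, ?_⟩
    · have h1 : dist p (m k) = ρ / 2 := frontier_ball_subset_sphere hp1
      rw [← h1]
      exact dist_le_diam (hM2.2.1.right_mem hM2.1) (hM2.2.1.left_mem hM2.1)
    · intro u hu
      apply (hM2.link isClosed_empty hu (notMem_empty u)).mono
      apply hM1.trans
      apply closure_ball_subset_closedBall.trans
      apply closedBall_subset_closedBall'
      have := (hmd k).trans_le (min_le_right _ _)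
      linarith
  choose M hMc hMp hMd hMl using hp
  obtain ⟨k, u, huk, hu⟩ := hS.exists_limsup (half_pos hρ) M hMp (fun n => (hMc n).isCompact) hMd
  have hMsub : ∀ k, M k ⊆ closedBall y ρ := fun k v hv =>
    (hMl k v hv).right_mem isClosed_closedBall
  have huB : u ∈ closedBall y ρ := hMsub k huk
  have hlink : Pr ∅ (closedBall y ρ) y u := by
    intro W hW hsub F hF hyF huF
    have hOo : IsOpen (W \ (F ∪ ∅)) := by
      rw [union_empty]; exact hW.sdiff hF.isClosed
    have hyO : y ∈ W \ (F ∪ ∅) := by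
      rw [union_empty]; exact ⟨hsub (mem_closedBall_self hρ.le), hyF⟩
    have huO : u ∈ W \ (F ∪ ∅) := by
      rw [union_empty]; exact ⟨hsub huB, huF⟩
    obtain ⟨δ, hδ, hδy⟩ := Metric.isOpen_iff.1 hOo.connectedComponentIn y
      (mem_connectedComponentIn hyO : y ∈ connectedComponentIn (W \ (F ∪ ∅)) y)
    obtain ⟨n, hn⟩ := exists_nat_one_div_lt hδ
    obtain ⟨v, hv1, hv2⟩ := mem_closure_iff.1 (hu n) (connectedComponentIn (W \ (F ∪ ∅)) u)
      hOo.connectedComponentIn (mem_connectedComponentIn huO)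
    simp only [mem_ofPred_eq, mem_iUnion, exists_prop] at hv2
    obtain ⟨j, hj, hvj⟩ := hv2
    have hmj : m j ∈ connectedComponentIn (W \ (F ∪ ∅)) y := by
      apply hδy
      rw [mem_ball]
      calc dist (m j) y < 1 / ((j : ℝ) + 1) := (hmd j).trans_le (min_le_left _ _)
        _ ≤ 1 / ((n : ℝ) + 1) := by
          apply one_div_le_one_div_of_le (by positivity)
          have : (n : ℝ) ≤ j := by exact_mod_cast hj
          linarith
        _ < δ := hn
    have hmjO := connectedComponentIn_subset _ _ hmj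
    have hvO := connectedComponentIn_subset _ _ hv1
    have h1 : J (W \ (F ∪ ∅)) y (m j) := J_iff.2 ⟨hyO, hmj⟩
    have h2 : J (W \ (F ∪ ∅)) u v := J_iff.2 ⟨huO, hv1⟩
    have h3 : J (W \ (F ∪ ∅)) (m j) v := hMl j v hvj W hW hsub F hF
      (fun h => hmjO.2 (Or.inl h)) (fun h => hvO.2 (Or.inl h))
    exact (h1.trans h3).trans h2.symm
  exact hmR k (htrans _ _ _ (hR _ _ (hMl k u huk)) (hsymm _ _ (hR _ _ hlink)))

end Pool.Agent.H64
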