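import Pool.Agent.H64.State

set_option autoImplicit false

namespace Pool.Agent.H64

open Set Metric Filter Topology

variable {X : Type*} [MetricSpace X]

/-- a new colour can be started from the master link -/
lemma St.Good.new_colour [CompactSpace X] [PreconnectedSpace X] [LocallyConnectedSpace X]
    {S : St X} (h : S.Good) {x z : X} {Nm : Set X}
    (hA0 : S.A 0 = {x, z}) (hL0 : (⟨x, z, Nm⟩ : Lk X) ∈ S.L 0) {k : ℕ} (hk0 : k ≠ 0)
    (hk : S.A k = ∅) (hkL : S.L k = ∅) {ε : ℝ} (hε : 0 < ε) :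
    ∃ S' : St X, S'.Good ∧ S.Le S' ∧ (∀ i, i ≠ k → S'.A i = S.A i ∧ S'.L i = S.L i) ∧
      ∃ a b, a ∈ S'.A k ∧ b ∈ S'.A k ∧ dist a x < ε ∧ dist b z < ε := by
  classical
  obtain ⟨hxz, -, -, hmin, hfin⟩ := h.link 0 _ hL0
  simp only at hxz hmin hfin
  have hothk : S.oth k = S.oth 0 ∪ {x, z} := by
    ext y
    rw [mem_union, St.mem_oth, St.mem_oth, ← hA0]
    constructor
    · rintro ⟨i, hi, hy⟩
      by_cases hi0 : i = 0
      · subst hi0; exact Or.inr hy
      · exact Or.inl ⟨i, hi0, hy⟩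
    · rintro (⟨i, hi, hy⟩ | hy)
      · refine ⟨i, ?_, hy⟩
        rintro rfl
        rw [hk] at hy
        exact hy
      · exact ⟨0, hk0.symm, hy⟩
  have hAll : (Nm ∩ S.oth k).Finite := by
    rw [hothk]
    apply (hfin.union (Set.toFinite {x, z})).subset
    rintro y ⟨hy1, hy2 | hy2⟩
    · exact Or.inl ⟨hy1, hy2⟩
    · exact Or.inr hy2
  have hxN : x ∈ Nm := hmin.2.1.left_mem hmin.1
  have hzN : z ∈ Nm := hmin.2.1.right_mem hmin.1
  obtain ⟨b, hbN, hbF, hbd⟩ := exists_near hmin.isPreconnected hAll hzN hxN hxz.symm hε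
  have hbo : b ∉ S.oth k := fun hb => hbF ⟨hbN, hb⟩
  have hbo0 : b ∉ S.oth 0 := fun hb => hbo (by rw [hothk]; exact Or.inl hb)
  have hbxz : b ∉ ({x, z} : Set X) := fun hb => hbo (by rw [hothk]; exact Or.inr hb)
  have hbx : b ≠ x := fun hb => hbxz (by rw [hb]; exact mem_insert _ _)
  have hPr1 := hmin.link (h.closed_oth 0) hbN hbo0
  obtain ⟨N1, hN1, hmin1⟩ := exists_PrMin hmin.1 hPr1.symm
  have hbN1 : b ∈ N1 := hmin1.2.1.left_mem hmin1.1
  have hxN1 : x ∈ N1 := hmin1.2.1.right_mem hmin1.1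
  obtain ⟨a, haN, haF, had⟩ := exists_near hmin1.isPreconnected (hAll.insert b) hxN1 hbN1
    hbx.symm hε
  have hao : a ∉ S.oth k := fun ha => haF (Or.inr ⟨hN1 haN, ha⟩)
  have hab : a ≠ b := fun hab => haF (Or.inl hab)
  have hao0 : a ∉ S.oth 0 := fun ha => hao (by rw [hothk]; exact Or.inl ha)
  have haxz : a ∉ ({x, z} : Set X) := fun ha => hao (by rw [hothk]; exact Or.inr ha)
  have hPr2 := hmin1.link (h.closed_oth 0) haN hao0
  have hPr3 : Pr (S.oth k) N1 a b := by
    rw [hothk]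
    exact (hPr2.add_finite (Set.toFinite _) hbxz haxz).symm
  obtain ⟨N2, hN2, hmin2⟩ := exists_PrMin hmin1.1 hPr3
  set S' : St X := ⟨Function.update S.A k {a, b}, Function.update S.L k {⟨a, b, N2⟩}⟩ with hS'
  have hAk : S'.A k = {a, b} := Function.update_self _ _ _
  have hLk : S'.L k = {⟨a, b, N2⟩} := Function.update_self _ _ _
  have hAi : ∀ i, i ≠ k → S'.A i = S.A i := fun i hi => Function.update_of_ne hi _ _
  have hLi : ∀ i, i ≠ k → S'.L i = S.L i := fun i hi => Function.update_of_ne hi _ _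
  have hothk' : S'.oth k = S.oth k := by
    ext y
    rw [St.mem_oth, St.mem_oth]
    constructor
    · rintro ⟨i, hi, hy⟩
      exact ⟨i, hi, (hAi i hi) ▸ hy⟩
    · rintro ⟨i, hi, hy⟩
      exact ⟨i, hi, (hAi i hi).symm ▸ hy⟩
  have hothi : ∀ i, i ≠ k → S'.oth i = S.oth i ∪ {a, b} := by
    intro i hi
    ext y
    rw [mem_union, St.mem_oth, St.mem_oth]
    constructor
    · rintro ⟨m, hm, hy⟩
      by_cases hmk : m = k
      · subst hmk
        rw [hAk] at hy
        exact Or.inr hy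
      · exact Or.inl ⟨m, hm, (hAi m hmk) ▸ hy⟩
    · rintro (⟨m, hm, hy⟩ | hy)
      · by_cases hmk : m = k
        · subst hmk
          rw [hk] at hy
          exact absurd hy (notMem_empty _)
        · exact ⟨m, hm, (hAi m hmk).symm ▸ hy⟩
      · exact ⟨k, hi.symm, by rw [hAk]; exact hy⟩
  have habo : ∀ y ∈ ({a, b} : Set X), y ∉ S.oth k := by
    rintro y (rfl | rfl)
    exacts [hao, hbo]
  obtain ⟨n, hn⟩ := h.fin
  refine ⟨S', ?_, ?_, fun i hi => ⟨hAi i hi, hLi i hi⟩, a, b, ?_, ?_, had, hbd⟩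
  · constructor
    · intro i
      by_cases hi : i = k
      · subst hi; rw [hAk]; exact (Set.toFinite _).isClosed
      · rw [hAi i hi]; exact h.closed i
    · have key : ∀ m, m ≠ k → Disjoint (S'.A k) (S'.A m) := by
        intro m hm
        rw [hAk, hAi m hm, Set.disjoint_left]
        exact fun y hy hy' => habo y hy (St.mem_oth.2 ⟨m, hm, hy'⟩)
      intro i m him
      by_cases hi : i = k
      · subst hi
        exact key m him.symm
      · by_cases hm : m = k
        · subst hm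
          exact (key i hi).symm
        · rw [hAi i hi, hAi m hm]
          exact h.disj i m him
    · refine ⟨max n (k + 1), fun i hi => ?_⟩
      have hik : i ≠ k := by
        have := (le_max_right n (k+1)).trans hi
        omega
      rw [hAi i hik, hLi i hik]
      exact hn i ((le_max_left _ _).trans hi)
    · intro i
      by_cases hi : i = k
      · subst hi; rw [hLk]; exact finite_singleton _
      · rw [hLi i hi]; exact h.finL i
    · intro i ν hν
      by_cases hi : i = k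
      · subst hi
        rw [hLk] at hν
        rw [hothk', hAk]
        rw [mem_singleton_iff.1 hν]
        exact ⟨hab, mem_insert _ _, mem_insert_of_mem _ rfl, hmin2,
          hAll.subset (inter_subset_inter_left _ (hN2.trans hN1))⟩
      · rw [hLi i hi] at hν
        rw [hothi i hi, hAi i hi]
        obtain ⟨k1, k2, k3, k4, k5⟩ := h.link i ν hν
        have hr : ν.r ∉ ({a, b} : Set X) := fun hy => habo _ hy (St.mem_oth.2 ⟨i, hi, k2⟩)
        have hr' : ν.r' ∉ ({a, b} : Set X) := fun hy => habo _ hy (St.mem_oth.2 ⟨i, hi, k3⟩)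
        refine ⟨k1, k2, k3, k4.of_subset subset_union_left
          (k4.2.1.add_finite (Set.toFinite _) hr hr'), ?_⟩
        apply (k5.union (Set.toFinite {a, b})).subset
        rintro y ⟨hy1, hy2 | hy2⟩
        · exact Or.inl ⟨hy1, hy2⟩
        · exact Or.inr hy2
    · intro i
      by_cases hi : i = k
      · subst hi
        rw [hAk, hLk]
        exact ConnL.pair a b N2
      · rw [hAi i hi, hLi i hi]
        exact h.conn i
  · intro i
    by_cases hi : i = k
    · subst hi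
      rw [hk, hkL]
      exact ⟨empty_subset _, empty_subset _⟩
    · rw [hAi i hi, hLi i hi]
      exact ⟨subset_rfl, subset_rfl⟩
  · rw [hAk]; exact mem_insert _ _
  · rw [hAk]; exact mem_insert_of_mem _ rfl

/-- the sequence of states -/
lemma exists_sequence [CompactSpace X] [PreconnectedSpace X] [LocallyConnectedSpace X]
    (hS : Star X) {x z : X} (hxz : x ≠ z) (hPr : Pr ∅ univ x z) {ε : ℝ} (hε : 0 < ε) :
    ∃ S : ℕ → St X, (∀ t, (S t).Good) ∧ (∀ t, (S t).Le (S (t + 1))) ∧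
      (∀ t j, j ≠ 0 → ∀ μ ∈ (S t).L j, TaskDone t j μ ((S t).oth j) (S (t + 1))) ∧
      ∀ j, j ≠ 0 → ∃ a b, a ∈ (S j).A j ∧ b ∈ (S j).A j ∧ dist a x < ε ∧ dist b z < ε := by
  classical
  obtain ⟨Nm, -, hmin⟩ := exists_PrMin isClosed_univ hPr
  let Inv : ℕ → St X → Prop := fun t S => S.Good ∧ S.A 0 = {x, z} ∧
    (⟨x, z, Nm⟩ : Lk X) ∈ S.L 0 ∧ ∀ k, t < k → S.A k = ∅ ∧ S.L k = ∅
  have hstep : ∀ t : ℕ, ∀ S : St X, Inv t S → ∃ S' : St X, Inv (t + 1) S' ∧ S.Le S' ∧
      (∀ j, j ≠ 0 → ∀ μ ∈ S.L j, TaskDone t j μ (S.oth j) S') ∧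
      ∃ a b, a ∈ S'.A (t + 1) ∧ b ∈ S'.A (t + 1) ∧ dist a x < ε ∧ dist b z < ε := by
    rintro t S ⟨h1, h2, h3, h4⟩
    obtain ⟨S1, k1, k2, k3, k4⟩ := h1.stage hS t
    have h0 := k3 0 (Or.inl rfl)
    have hlt : ∀ k, t < k → S1.A k = ∅ ∧ S1.L k = ∅ := by
      intro k hk
      have := k3 k (Or.inr (h4 k hk).2)
      rw [this.1, this.2]
      exact h4 k hk
    obtain ⟨S2, l1, l2, l3, a, b, l4, l5, l6, l7⟩ := k1.new_colour (x := x) (z := z) (Nm := Nm)
      (by rw [h0.1, h2]) (by rw [h0.2]; exact h3) (Nat.succ_ne_zero t)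
      (hlt (t + 1) (Nat.lt_succ_self t)).1 (hlt (t + 1) (Nat.lt_succ_self t)).2 hε
    refine ⟨S2, ⟨l1, ?_, ?_, ?_⟩, k2.trans l2, ?_, a, b, l4, l5, l6, l7⟩
    · rw [(l3 0 (Nat.succ_ne_zero t).symm).1, h0.1, h2]
    · rw [(l3 0 (Nat.succ_ne_zero t).symm).2, h0.2]
      exact h3
    · intro k hk
      have hkt : k ≠ t + 1 := by omega
      rw [(l3 k hkt).1, (l3 k hkt).2]
      exact hlt k (by omega)
    · exact fun j hj μ hμ => (k4 j hj μ hμ).mono l2 subset_rfl
  have hinit : ∃ S : St X, Inv 0 S := by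
    set S : St X := ⟨Function.update (fun _ : ℕ => (∅ : Set X)) 0 {x, z},
      Function.update (fun _ : ℕ => (∅ : Set (Lk X))) 0 {⟨x, z, Nm⟩}⟩ with hS0
    have hA0 : S.A 0 = {x, z} := by rw [hS0]; simp
    have hL0 : S.L 0 = {⟨x, z, Nm⟩} := by rw [hS0]; simp
    have hAi : ∀ i, i ≠ 0 → S.A i = ∅ := fun i hi => by rw [hS0]; simp [hi]
    have hLi : ∀ i, i ≠ 0 → S.L i = ∅ := fun i hi => by rw [hS0]; simp [hi]
    have hoth : S.oth 0 = ∅ := by
      ext y
      rw [St.mem_oth]
      constructor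
      · rintro ⟨i, hi, hy⟩
        rw [hAi i hi] at hy
        exact hy
      · exact fun h => absurd h (notMem_empty _)
    refine ⟨S, ⟨?_, ?_, ?_, ?_, ?_, ?_⟩, hA0, by rw [hL0]; rfl, ?_⟩
    · intro i
      by_cases hi : i = 0
      · subst hi; rw [hA0]; exact (Set.toFinite _).isClosed
      · rw [hAi i hi]; exact isClosed_empty
    · intro i j hij
      by_cases hi : i = 0
      · rw [hAi j (fun h => hij (hi.trans h.symm))]
        exact disjoint_empty _
      · rw [hAi i hi]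
        exact empty_disjoint _
    · exact ⟨1, fun j hj => ⟨hAi j (by omega), hLi j (by omega)⟩⟩
    · intro i
      by_cases hi : i = 0
      · subst hi; rw [hL0]; exact finite_singleton _
      · rw [hLi i hi]; exact finite_empty
    · intro i ν hν
      by_cases hi : i = 0
      · subst hi
        rw [hL0] at hν
        rw [mem_singleton_iff.1 hν, hoth, hA0]
        refine ⟨hxz, mem_insert _ _, mem_insert_of_mem _ rfl, hmin, ?_⟩
        rw [inter_empty]
        exact finite_empty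
      · rw [hLi i hi] at hν
        exact absurd hν (notMem_empty _)
    · intro i
      by_cases hi : i = 0
      · subst hi; rw [hA0, hL0]; exact ConnL.pair x z Nm
      · rw [hAi i hi]
        intro U V _ _ _ _ _
        exact Or.inl (empty_subset _)
    · exact fun k hk => ⟨hAi k (by omega), hLi k (by omega)⟩
  obtain ⟨S0, hS0⟩ := hinit
  choose f hf1 hf2 hf3 hf4 using hstep
  let T : ℕ → Type _ := fun t => {S : St X // Inv t S}
  let s : ∀ t, T t := fun t => Nat.rec ⟨S0, hS0⟩ (fun t p => ⟨f t p.1 p.2, hf1 t p.1 p.2⟩) t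
  have hs : ∀ t, (s (t + 1)).1 = f t (s t).1 (s t).2 := fun t => rfl
  refine ⟨fun t => (s t).1, fun t => (s t).2.1, ?_, ?_, ?_⟩
  · intro t
    simp only
    rw [hs]
    exact hf2 t _ _
  · intro t
    simp only
    rw [hs]
    exact hf3 t _ _
  · intro j hj
    obtain ⟨t, rfl⟩ := Nat.exists_eq_succ_of_ne_zero hj
    simp only
    have := hf4 t (s t).1 (s t).2
    rw [← hs] at this
    exact this

end Pool.Agent.H64
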