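import Pool.Agent.H64.Ext

set_option autoImplicit false

namespace Pool.Agent.H64

open Set Metric Filter Topology

/-- a state: coloured closed sets and coloured finite families of links -/
structure St (X : Type*) where
  A : ℕ → Set X
  L : ℕ → Set (Lk X)

/-- union of the other colours -/
def St.oth {X : Type*} (S : St X) (j : ℕ) : Set X := ⋃ i, ⋃ (_ : i ≠ j), S.A i

/-- extension of states -/
def St.Le {X : Type*} (S S' : St X) : Prop := ∀ j, S.A j ⊆ S'.A j ∧ S.L j ⊆ S'.L j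

lemma St.Le.refl {X : Type*} (S : St X) : S.Le S := fun _ => ⟨subset_rfl, subset_rfl⟩

lemma St.Le.trans {X : Type*} {S S' S'' : St X} (h : S.Le S') (h' : S'.Le S'') : S.Le S'' :=
  fun j => ⟨(h j).1.trans (h' j).1, (h j).2.trans (h' j).2⟩

lemma St.Le.oth {X : Type*} {S S' : St X} (h : S.Le S') (j : ℕ) : S.oth j ⊆ S'.oth j :=
  iUnion_mono (fun i => iUnion_mono (fun _ => (h i).1))

lemma St.mem_oth {X : Type*} {S : St X} {j : ℕ} {x : X} :
    x ∈ S.oth j ↔ ∃ i, i ≠ j ∧ x ∈ S.A i := by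
  unfold St.oth
  simp

variable {X : Type*} [MetricSpace X]

/-- good states -/
structure St.Good (S : St X) : Prop where
  closed : ∀ j, IsClosed (S.A j)
  disj : ∀ i j, i ≠ j → Disjoint (S.A i) (S.A j)
  fin : ∃ n, ∀ j, n ≤ j → S.A j = ∅ ∧ S.L j = ∅
  finL : ∀ j, (S.L j).Finite
  link : ∀ j, ∀ μ ∈ S.L j, μ.r ≠ μ.r' ∧ μ.r ∈ S.A j ∧ μ.r' ∈ S.A j ∧
    PrMin (S.oth j) μ.N μ.r μ.r' ∧ (μ.N ∩ S.oth j).Finite
  conn : ∀ j, ConnL (S.A j) (S.L j)

lemma St.Good.closed_oth {S : St X} (h : S.Good) (j : ℕ) : IsClosed (S.oth j) := by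
  obtain ⟨n, hn⟩ := h.fin
  have : S.oth j = ⋃ i ∈ {i | i < n ∧ i ≠ j}, S.A i := by
    ext x
    rw [St.mem_oth]
    simp only [mem_iUnion, exists_prop, mem_ofPred_eq]
    constructor
    · rintro ⟨i, hi, hx⟩
      refine ⟨i, ⟨?_, hi⟩, hx⟩
      by_contra hin
      rw [(hn i (not_lt.1 hin)).1] at hx
      exact hx
    · rintro ⟨i, ⟨-, hi⟩, hx⟩
      exact ⟨i, hi, hx⟩
  rw [this]
  apply Set.Finite.isClosed_biUnion
  · exact (Set.finite_lt_nat n).subset (fun i hi => hi.1)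
  · exact fun i _ => h.closed i

/-- extension of one colour along an open set -/
lemma St.Good.extend [CompactSpace X] [PreconnectedSpace X] [LocallyConnectedSpace X]
    (hS : Star X) {S : St X} (h : S.Good) {j : ℕ} {μ : Lk X} (hμ : μ ∈ S.L j) {O' : Set X}
    (hO' : IsOpen O') (hdis : Disjoint O' (S.oth j)) (hJ : J O' μ.r μ.r') {ε : ℝ} (hε : 0 < ε) :
    ∃ S' : St X, S'.Good ∧ S.Le S' ∧ (∀ i, i ≠ j → S'.A i = S.A i ∧ S'.L i = S.L i) ∧
      ∀ U V : Set X, IsOpen U → IsOpen V → Disjoint U V → S'.A j ⊆ U ∪ V → μ.Crosses U V →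
        ∃ ν ∈ S'.L j, ν.Crosses U V ∧ ν.N ⊆ O' ∧ Metric.diam ν.N < ε := by
  classical
  set O := connectedComponentIn O' μ.r with hO
  have hOo : IsOpen O := hO'.connectedComponentIn
  have hOp : IsPreconnected O := isPreconnected_connectedComponentIn
  have hOsub : O ⊆ O' := connectedComponentIn_subset _ _
  let ι := {p : ℕ × Lk X // p.1 ≠ j ∧ p.2 ∈ S.L p.1}
  obtain ⟨n, hn⟩ := h.fin
  have hfinι : Finite ι := by
    have hfs : {p : ℕ × Lk X | p.1 ≠ j ∧ p.2 ∈ S.L p.1}.Finite := by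
      have : {p : ℕ × Lk X | p.1 ≠ j ∧ p.2 ∈ S.L p.1} ⊆
          ⋃ i ∈ {i : ℕ | i < n}, (fun l => (i, l)) '' S.L i := by
        rintro ⟨i, l⟩ ⟨hi, hl⟩
        simp only [mem_iUnion, mem_ofPred_eq, exists_prop]
        refine ⟨i, ?_, l, hl, rfl⟩
        by_contra hin
        simp only at hl
        rw [(hn i (not_lt.1 hin)).2] at hl
        exact hl
      exact ((Set.finite_lt_nat n).biUnion (fun i _ => (h.finL i).image _)).subset this
    exact hfs.to_subtype
  have hmemO : ∀ p : ι, p.1.2.r ∉ O ∧ p.1.2.r' ∉ O := by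
    intro p
    have hl := h.link p.1.1 p.1.2 p.2.2
    constructor
    · exact fun hp => Set.disjoint_left.1 hdis (hOsub hp) (St.mem_oth.2 ⟨_, p.2.1, hl.2.1⟩)
    · exact fun hp => Set.disjoint_left.1 hdis (hOsub hp) (St.mem_oth.2 ⟨_, p.2.1, hl.2.2.1⟩)
  obtain ⟨E, Ln, h1, h2, h3, h4, h5, h6, h7, h8, h9⟩ := exists_extension hS
    (fun p : ι => p.1.2.N) (fun p => S.oth p.1.1) (fun p => p.1.2.r) (fun p => p.1.2.r')
    (fun p => h.closed_oth _) (fun p => (h.link p.1.1 p.1.2 p.2.2).1)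
    (fun p => (h.link p.1.1 p.1.2 p.2.2).2.2.2.1)
    (fun p => (h.link p.1.1 p.1.2 p.2.2).2.2.2.2) hOo hOp (fun p => (hmemO p).1)
    (fun p => (hmemO p).2) hε (q := μ.r) (q' := μ.r')
    (mem_connectedComponentIn hJ.left_mem) hJ.mem_comp
  have hμl := h.link j μ hμ
  set S' : St X := ⟨Function.update S.A j (S.A j ∪ E), Function.update S.L j (S.L j ∪ Ln)⟩ with hS'
  have hAj : S'.A j = S.A j ∪ E := Function.update_self _ _ _
  have hLj : S'.L j = S.L j ∪ Ln := Function.update_self _ _ _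
  have hAi : ∀ i, i ≠ j → S'.A i = S.A i := fun i hi => Function.update_of_ne hi _ _
  have hLi : ∀ i, i ≠ j → S'.L i = S.L i := fun i hi => Function.update_of_ne hi _ _
  have hothj : S'.oth j = S.oth j := by
    ext x
    rw [St.mem_oth, St.mem_oth]
    constructor
    · rintro ⟨i, hi, hx⟩
      exact ⟨i, hi, (hAi i hi) ▸ hx⟩
    · rintro ⟨i, hi, hx⟩
      exact ⟨i, hi, (hAi i hi).symm ▸ hx⟩
  have hothi : ∀ i, i ≠ j → S'.oth i = S.oth i ∪ E := by
    intro i hi
    ext x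
    rw [mem_union, St.mem_oth, St.mem_oth]
    constructor
    · rintro ⟨k, hk, hx⟩
      by_cases hkj : k = j
      · subst hkj
        rw [hAj] at hx
        rcases hx with hx | hx
        · exact Or.inl ⟨k, hk, hx⟩
        · exact Or.inr hx
      · exact Or.inl ⟨k, hk, (hAi k hkj) ▸ hx⟩
    · rintro (⟨k, hk, hx⟩ | hx)
      · by_cases hkj : k = j
        · subst hkj
          exact ⟨k, hk, by rw [hAj]; exact Or.inl hx⟩
        · exact ⟨k, hk, (hAi k hkj).symm ▸ hx⟩
      · exact ⟨j, hi.symm, by rw [hAj]; exact Or.inr hx⟩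
  have hEoth : Disjoint E (S.oth j) := hdis.mono_left (h2.trans hOsub)
  refine ⟨S', ?_, ?_, fun i hi => ⟨hAi i hi, hLi i hi⟩, ?_⟩
  · constructor
    · intro i
      by_cases hi : i = j
      · subst hi; rw [hAj]; exact (h.closed i).union h1
      · rw [hAi i hi]; exact h.closed i
    · have key : ∀ k, k ≠ j → Disjoint (S'.A j) (S'.A k) := by
        intro k hk
        rw [hAj, hAi k hk]
        apply Disjoint.union_left (h.disj j k hk.symm)
        apply hEoth.mono_right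
        intro x hx
        exact St.mem_oth.2 ⟨k, hk, hx⟩
      intro i k hik
      by_cases hi : i = j
      · subst hi
        exact key k hik.symm
      · by_cases hk : k = j
        · subst hk
          exact (key i hi).symm
        · rw [hAi i hi, hAi k hk]
          exact h.disj i k hik
    · refine ⟨max n (j + 1), fun i hi => ?_⟩
      have hij : i ≠ j := by
        have := (le_max_right n (j+1)).trans hi
        omega
      rw [hAi i hij, hLi i hij]
      exact hn i ((le_max_left _ _).trans hi)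
    · intro i
      by_cases hi : i = j
      · subst hi; rw [hLj]; exact (h.finL i).union h7
      · rw [hLi i hi]; exact h.finL i
    · intro i ν hν
      by_cases hi : i = j
      · subst hi
        rw [hLj] at hν
        rw [hothj, hAj]
        rcases hν with hν | hν
        · have := h.link i ν hν
          exact ⟨this.1, Or.inl this.2.1, Or.inl this.2.2.1, this.2.2.2⟩
        · obtain ⟨k1, k2, k3, k4, k5, k6⟩ := h8 ν hν
          have hdν : Disjoint (S.oth i) ν.N := (hdis.mono_left (k5.trans hOsub)).symm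
          refine ⟨k1, Or.inr k2, Or.inr k3, ?_, ?_⟩
          · apply k4.of_subset (empty_subset _)
            have := k4.2.1.add_disjoint (h.closed_oth i) hdν
            rwa [empty_union] at this
          · rw [inter_comm, hdν.inter_eq]
            exact finite_empty
      · rw [hLi i hi] at hν
        rw [hothi i hi, hAi i hi]
        obtain ⟨k1, k2, k3, k4, k5⟩ := h.link i ν hν
        refine ⟨k1, k2, k3, k4.of_subset subset_union_left (h6 ⟨(i, ν), hi, hν⟩), ?_⟩
        apply (k5.union (h5 ⟨(i, ν), hi, hν⟩)).subset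
        rintro x ⟨hx1, hx2 | hx2⟩
        · exact Or.inl ⟨hx1, hx2⟩
        · exact Or.inr ⟨hx1, hx2⟩
    · intro i
      by_cases hi : i = j
      · subst hi
        rw [hAj, hLj]
        exact (h.conn i).union h9 hμl.2.1 h3
      · rw [hAi i hi, hLi i hi]
        exact h.conn i
  · intro i
    by_cases hi : i = j
    · subst hi
      rw [hAj, hLj]
      exact ⟨subset_union_left, subset_union_left⟩
    · rw [hAi i hi, hLi i hi]
      exact ⟨subset_rfl, subset_rfl⟩
  · intro U V hU hV hUV hsub hcr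
    by_contra hcon
    push Not at hcon
    rw [hAj] at hsub
    rw [hLj] at hcon
    have hE := h9 U V hU hV hUV (subset_union_right.trans hsub) (fun ν hν hc =>
      absurd (h8 ν hν).2.2.2.2.2 (not_lt.2 (hcon ν (Or.inr hν) hc
        ((h8 ν hν).2.2.2.2.1.trans hOsub))))
    rcases hE with hE | hE
    · rcases hcr with hc | hc
      · exact Set.disjoint_left.1 hUV (hE h4) hc.2
      · exact Set.disjoint_left.1 hUV (hE h3) hc.1
    · rcases hcr with hc | hc
      · exact Set.disjoint_left.1 hUV hc.1 (hE h3)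
      · exact Set.disjoint_left.1 hUV hc.2 (hE h4)

/-- several open sets -/
lemma St.Good.extend_many [CompactSpace X] [PreconnectedSpace X] [LocallyConnectedSpace X]
    (hS : Star X) {S : St X} (h : S.Good) {j : ℕ} {μ : Lk X} (hμ : μ ∈ S.L j) {ε : ℝ}
    (hε : 0 < ε) {Q : Set (Set X)} (hQ : Q.Finite)
    (hQ' : ∀ O' ∈ Q, IsOpen O' ∧ Disjoint O' (S.oth j) ∧ J O' μ.r μ.r') :
    ∃ S' : St X, S'.Good ∧ S.Le S' ∧ (∀ i, i ≠ j → S'.A i = S.A i ∧ S'.L i = S.L i) ∧
      ∀ O' ∈ Q, ∀ U V : Set X, IsOpen U → IsOpen V → Disjoint U V → S'.A j ⊆ U ∪ V →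
        μ.Crosses U V → ∃ ν ∈ S'.L j, ν.Crosses U V ∧ ν.N ⊆ O' ∧ Metric.diam ν.N < ε := by
  induction Q, hQ using Set.Finite.induction_on with
  | empty => exact ⟨S, h, St.Le.refl S, fun i _ => ⟨rfl, rfl⟩, fun O' hO' => absurd hO' (notMem_empty _)⟩
  | @insert O1 Q hO1 hQ ih =>
    obtain ⟨S1, h1, h2, h3, h4⟩ := ih (fun O' hO' => hQ' O' (mem_insert_of_mem _ hO'))
    obtain ⟨k1, k2, k3⟩ := hQ' O1 (mem_insert _ _)
    have hoth : S1.oth j = S.oth j := by
      ext x
      rw [St.mem_oth, St.mem_oth]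
      constructor
      · rintro ⟨i, hi, hx⟩
        exact ⟨i, hi, (h3 i hi).1 ▸ hx⟩
      · rintro ⟨i, hi, hx⟩
        exact ⟨i, hi, (h3 i hi).1.symm ▸ hx⟩
    obtain ⟨S2, h1', h2', h3', h4'⟩ := h1.extend hS ((h2 j).2 hμ) k1 (by rw [hoth]; exact k2) k3 hε
    refine ⟨S2, h1', h2.trans h2', fun i hi => ⟨(h3' i hi).1.trans (h3 i hi).1,
      (h3' i hi).2.trans (h3 i hi).2⟩, ?_⟩
    intro O' hO' U V hU hV hUV hsub hcr
    rcases hO' with rfl | hO'
    · exact h4' U V hU hV hUV hsub hcr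
    · obtain ⟨ν, hν, hν'⟩ := h4 O' hO' U V hU hV hUV ((h2' j).1.trans hsub) hcr
      exact ⟨ν, (h2' j).2 hν, hν'⟩

/-- the task for the link `μ` of colour `j` at level `n` is fulfilled in `S'`; `D` is the closed
set which the new links have to avoid. -/
def TaskDone (n j : ℕ) (μ : Lk X) (D : Set X) (S' : St X) : Prop :=
  ∃ l : ℝ, 0 < l ∧ ∀ c : X, 1 / ((n : ℝ) + 1) ≤ dist c μ.r → 1 / ((n : ℝ) + 1) ≤ dist c μ.r' →
    ∀ U V : Set X, IsOpen U → IsOpen V → Disjoint U V → S'.A j ⊆ U ∪ V → μ.Crosses U V →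
      ∃ ν ∈ S'.L j, ν.Crosses U V ∧ (∀ x ∈ ν.N, l ≤ dist x c) ∧
        ν.N ⊆ thickening (1 / ((n : ℝ) + 1)) μ.N ∧ Metric.diam ν.N < 1 / ((n : ℝ) + 1) ∧
        Disjoint ν.N D

lemma TaskDone.mono {n j : ℕ} {μ : Lk X} {D D' : Set X} {S' S'' : St X}
    (h : TaskDone n j μ D S') (hle : S'.Le S'') (hD : D' ⊆ D) : TaskDone n j μ D' S'' := by
  obtain ⟨l, hl, h⟩ := h
  refine ⟨l, hl, ?_⟩
  intro c hc hc' U V hU hV hUV hsub hcr
  obtain ⟨ν, h1, h2, h3, h4, h5, h6⟩ := h c hc hc' U V hU hV hUV ((hle j).1.trans hsub) hcr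
  exact ⟨ν, (hle j).2 h1, h2, h3, h4, h5, h6.mono_right hD⟩

lemma St.Good.task [CompactSpace X] [PreconnectedSpace X] [LocallyConnectedSpace X]
    (hS : Star X) {S : St X} (h : S.Good) {j : ℕ} {μ : Lk X} (hμ : μ ∈ S.L j) (n : ℕ) :
    ∃ S' : St X, S'.Good ∧ S.Le S' ∧ (∀ i, i ≠ j → S'.A i = S.A i ∧ S'.L i = S.L i) ∧
      TaskDone n j μ (S.oth j) S' := by
  obtain ⟨k1, k2, k3, k4, k5⟩ := h.link j μ hμ
  have hpos : 0 < 1 / ((n : ℝ) + 1) := by positivity
  set W := thickening (1 / ((n : ℝ) + 1)) μ.N with hW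
  set K : Set X := {c | 1 / ((n : ℝ) + 1) ≤ dist c μ.r ∧ 1 / ((n : ℝ) + 1) ≤ dist c μ.r'} with hK
  have hKc : IsClosed K := by
    apply IsClosed.inter
    · exact isClosed_le continuous_const (continuous_id.dist continuous_const)
    · exact isClosed_le continuous_const (continuous_id.dist continuous_const)
  obtain ⟨Q, hQ, hQ', l, hl, hlQ⟩ : ∃ Q : Set (Set X), Q.Finite ∧ (∀ O' ∈ Q, IsOpen O' ∧
      Disjoint O' (S.oth j) ∧ J O' μ.r μ.r' ∧ O' ⊆ W) ∧ ∃ l : ℝ, 0 < l ∧ ∀ c ∈ K, ∃ O' ∈ Q,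
        ∀ x ∈ O', l ≤ dist x c := by
    refine hKc.isCompact.induction_on (p := fun T => ∃ Q : Set (Set X), Q.Finite ∧
      (∀ O' ∈ Q, IsOpen O' ∧ Disjoint O' (S.oth j) ∧ J O' μ.r μ.r' ∧ O' ⊆ W) ∧
      ∃ l : ℝ, 0 < l ∧ ∀ c ∈ T, ∃ O' ∈ Q, ∀ x ∈ O', l ≤ dist x c) ?_ ?_ ?_ ?_
    · exact ⟨∅, finite_empty, fun O' h => absurd h (notMem_empty _), 1, one_pos,
        fun c hc => absurd hc (notMem_empty _)⟩
    · rintro s t hst ⟨Q, h1, h2, l, hl, h3⟩
      exact ⟨Q, h1, h2, l, hl, fun c hc => h3 c (hst hc)⟩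
    · rintro s t ⟨Q, h1, h2, l, hl, h3⟩ ⟨Q', h1', h2', l', hl', h3'⟩
      refine ⟨Q ∪ Q', h1.union h1', ?_, min l l', lt_min hl hl', ?_⟩
      · rintro O' (hO' | hO')
        exacts [h2 O' hO', h2' O' hO']
      · rintro c (hc | hc)
        · obtain ⟨O', hO', hx⟩ := h3 c hc
          exact ⟨O', Or.inl hO', fun x hxO => (min_le_left _ _).trans (hx x hxO)⟩
        · obtain ⟨O', hO', hx⟩ := h3' c hc
          exact ⟨O', Or.inr hO', fun x hxO => (min_le_right _ _).trans (hx x hxO)⟩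
    · rintro c ⟨hc1, hc2⟩
      have hcr : μ.r ∉ ({c} : Set X) := by
        intro h
        rw [← mem_singleton_iff.1 h, dist_self] at hc1
        linarith
      have hcr' : μ.r' ∉ ({c} : Set X) := by
        intro h
        rw [← mem_singleton_iff.1 h, dist_self] at hc2
        linarith
      have hJ := k4.2.1 W isOpen_thickening (self_subset_thickening hpos _) {c}
        (finite_singleton c) hcr hcr'
      have hOo : IsOpen (W \ ({c} ∪ S.oth j)) :=
        isOpen_thickening.sdiff (isClosed_singleton.union (h.closed_oth j))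
      obtain ⟨C, hC1, hC2, hC3, hrC, hr'C⟩ := exists_compact_connected hOo hJ
      have hcC : c ∈ Cᶜ := fun h => (hC1 h).2 (Or.inl rfl)
      obtain ⟨η, hη, hηC⟩ := Metric.nhds_basis_closedBall.mem_iff.1
        (hC2.isClosed.isOpen_compl.mem_nhds hcC)
      refine ⟨ball c (η / 2), mem_nhdsWithin_of_mem_nhds (ball_mem_nhds c (half_pos hη)),
        {W \ (closedBall c η ∪ S.oth j)}, finite_singleton _, ?_, η / 2, half_pos hη, ?_⟩
      · rintro _ rfl
        refine ⟨isOpen_thickening.sdiff (isClosed_closedBall.union (h.closed_oth j)), ?_, ?_,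
          sdiff_subset⟩
        · rw [Set.disjoint_left]
          exact fun x hx hx' => hx.2 (Or.inr hx')
        · refine ⟨C, ?_, hC3, hrC, hr'C⟩
          intro x hx
          refine ⟨(hC1 hx).1, ?_⟩
          rintro (h | h)
          · exact hηC h hx
          · exact (hC1 hx).2 (Or.inr h)
      · intro c' hc'
        refine ⟨_, rfl, fun x hx => ?_⟩
        have h1 : η < dist x c := by
          by_contra hlt
          exact hx.2 (Or.inl (not_lt.1 hlt))
        have h2 : dist c' c < η / 2 := hc'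
        have h3 := dist_triangle x c' c
        linarith
  obtain ⟨S', h1, h2, h3, h4⟩ := h.extend_many hS hμ hpos hQ
    (fun O' hO' => ⟨(hQ' O' hO').1, (hQ' O' hO').2.1, (hQ' O' hO').2.2.1⟩)
  refine ⟨S', h1, h2, h3, l, hl, ?_⟩
  intro c hc hc' U V hU hV hUV hsub hcr
  obtain ⟨O', hO', hx⟩ := hlQ c ⟨hc, hc'⟩
  obtain ⟨ν, hν1, hν2, hν3, hν4⟩ := h4 O' hO' U V hU hV hUV hsub hcr
  exact ⟨ν, hν1, hν2, fun x hxν => hx x (hν3 hxν), hν3.trans (hQ' O' hO').2.2.2, hν4,
    (hQ' O' hO').2.1.mono_left hν3⟩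

/-- all tasks of a stage -/
lemma St.Good.stage [CompactSpace X] [PreconnectedSpace X] [LocallyConnectedSpace X]
    (hS : Star X) {S : St X} (h : S.Good) (n : ℕ) :
    ∃ S' : St X, S'.Good ∧ S.Le S' ∧
      (∀ i, (i = 0 ∨ S.L i = ∅) → S'.A i = S.A i ∧ S'.L i = S.L i) ∧
      ∀ j, j ≠ 0 → ∀ μ ∈ S.L j, TaskDone n j μ (S.oth j) S' := by
  obtain ⟨m, hm⟩ := h.fin
  have hfs : {p : ℕ × Lk X | p.1 ≠ 0 ∧ p.2 ∈ S.L p.1}.Finite := by
    have : {p : ℕ × Lk X | p.1 ≠ 0 ∧ p.2 ∈ S.L p.1} ⊆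
        ⋃ i ∈ {i : ℕ | i < m}, (fun l => (i, l)) '' S.L i := by
      rintro ⟨i, l⟩ ⟨hi, hl⟩
      simp only [mem_iUnion, mem_ofPred_eq, exists_prop]
      refine ⟨i, ?_, l, hl, rfl⟩
      by_contra hin
      simp only at hl
      rw [(hm i (not_lt.1 hin)).2] at hl
      exact hl
    exact ((Set.finite_lt_nat m).biUnion (fun i _ => (h.finL i).image _)).subset this
  have key : ∀ Q : Set (ℕ × Lk X), Q.Finite → (∀ p ∈ Q, p.1 ≠ 0 ∧ p.2 ∈ S.L p.1) →
      ∃ S' : St X, S'.Good ∧ S.Le S' ∧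
      (∀ i, (i = 0 ∨ S.L i = ∅) → S'.A i = S.A i ∧ S'.L i = S.L i) ∧
      ∀ p ∈ Q, TaskDone n p.1 p.2 (S.oth p.1) S' := by
    intro Q hQ
    induction Q, hQ using Set.Finite.induction_on with
    | empty =>
      intro _
      exact ⟨S, h, St.Le.refl S, fun i _ => ⟨rfl, rfl⟩, fun p hp => absurd hp (notMem_empty _)⟩
    | @insert p Q hp hQ ih =>
      intro hQ'
      obtain ⟨S1, h1, h2, h3, h4⟩ := ih (fun q hq => hQ' q (mem_insert_of_mem _ hq))
      obtain ⟨hp1, hp2⟩ := hQ' p (mem_insert _ _)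
      obtain ⟨S2, h1', h2', h3', h4'⟩ := h1.task hS ((h2 p.1).2 hp2) n
      refine ⟨S2, h1', h2.trans h2', ?_, ?_⟩
      · intro i hi
        have hip : i ≠ p.1 := by
          rintro rfl
          rcases hi with hi | hi
          · exact hp1 hi
          · rw [hi] at hp2
            exact hp2
        exact ⟨(h3' i hip).1.trans (h3 i hi).1, (h3' i hip).2.trans (h3 i hi).2⟩
      · rintro q (rfl | hq)
        · exact h4'.mono (St.Le.refl _) (h2.oth _)
        · exact (h4 q hq).mono h2' subset_rfl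
  obtain ⟨S', h1, h2, h3, h4⟩ := key _ hfs (fun p hp => hp)
  exact ⟨S', h1, h2, h3, fun j hj μ hμ => h4 (j, μ) ⟨hj, hμ⟩⟩

/-- points of a nontrivial connected set near a given one, outside a finite set -/
lemma exists_near [PreconnectedSpace X] {N F : Set X} (hN : IsPreconnected N) (hF : F.Finite)
    {a b : X} (ha : a ∈ N) (hb : b ∈ N) (hab : a ≠ b) {ε : ℝ} (hε : 0 < ε) :
    ∃ c ∈ N, c ∉ F ∧ dist c a < ε := by
  -- the distances to `a` fill an interval
  by_contra hcon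
  push Not at hcon
  have hd : 0 < dist b a := dist_pos.2 hab.symm
  have himg : IsPreconnected ((fun x => dist x a) '' N) :=
    hN.image _ (continuous_id.dist continuous_const).continuousOn
  have hsub : Set.Icc 0 (dist b a) ⊆ (fun x => dist x a) '' N := by
    apply himg.Icc_subset
    · exact ⟨a, ha, dist_self a⟩
    · exact ⟨b, hb, rfl⟩
  have hfin : (Set.Ioo 0 (min ε (dist b a))).Finite := by
    apply (hF.image (fun x => dist x a)).subset
    intro t ht
    obtain ⟨x, hxN, hx⟩ := hsub ⟨ht.1.le, (ht.2.trans_le (min_le_right _ _)).le⟩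
    refine ⟨x, ?_, hx⟩
    by_contra hxF
    have := hcon x hxN hxF
    simp only at hx
    rw [hx] at this
    exact absurd (ht.2.trans_le (min_le_left _ _)) (not_lt.2 this)
  exact (Set.Ioo_infinite (lt_min hε hd)) hfin

end Pool.Agent.H64
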